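import Mathlib
import Pool.Agent.TH335.RF.P4
set_option autoImplicit false
set_option linter.unusedSectionVars false

/-! Weighted mixed norm estimates from the `L²` norms in space and in time and the `L^Q` norm. -/

namespace Pool.Agent.X146.RP

open MeasureTheory Set
open scoped ENNReal NNReal

lemma add_rpow_le (a b : ℝ≥0∞) (p : ℝ) (hp : 0 ≤ p) :
    (a + b) ^ p ≤ 2 ^ p * (a ^ p + b ^ p) := by
  rcases le_total a b with h | h
  · calc (a + b) ^ p ≤ (2 * b) ^ p := by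
          gcongr
          rw [two_mul]
          gcongr
      _ = 2 ^ p * b ^ p := ENNReal.mul_rpow_of_nonneg _ _ hp
      _ ≤ _ := by
          gcongr
          exact le_add_self
  · calc (a + b) ^ p ≤ (2 * a) ^ p := by
          gcongr
          rw [two_mul]
          gcongr
      _ = 2 ^ p * a ^ p := ENNReal.mul_rpow_of_nonneg _ _ hp
      _ ≤ _ := by
          gcongr
          exact le_self_add

lemma dyad_cover : Ioi (1 : ℝ) ⊆ ⋃ i : ℕ, Ioc ((2 : ℝ) ^ i) (2 ^ (i + 1)) := by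
  intro x hx
  have hx1 : (1 : ℝ) < x := hx
  have h1 : ∃ n : ℕ, x ≤ 2 ^ (n + 1) := by
    obtain ⟨n, hn⟩ := pow_unbounded_of_one_lt x (one_lt_two : (1 : ℝ) < 2)
    exact ⟨n, hn.le.trans (pow_le_pow_right₀ one_le_two (Nat.le_succ n))⟩
  classical
  refine mem_iUnion.2 ⟨Nat.find h1, ?_, Nat.find_spec h1⟩
  rcases Nat.eq_zero_or_pos (Nat.find h1) with h2 | h2
  · rw [h2, pow_zero]
    exact hx1
  · have h3 := Nat.find_min h1 (Nat.sub_lt h2 one_pos)
    push Not at h3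
    have h4 : Nat.find h1 - 1 + 1 = Nat.find h1 := Nat.sub_add_cancel h2
    rwa [h4] at h3

/-- Hölder's inequality at a fixed time, general exponents -/
lemma hold_fix {α : Type*} [MeasurableSpace α] (μ : Measure α) (n : ℕ) (hn : 1 ≤ n) (q : ℝ)
    (hq : 2 ≤ q) (u : α → ℝ≥0∞) (hu : Measurable u) :
    (∫⁻ x, u x ^ q ∂μ) ^ (n : ℝ) ≤
      (∫⁻ x, u x ^ 2 ∂μ) ^ ((n : ℝ) - 1) * ∫⁻ x, u x ^ (2 + n * (q - 2)) ∂μ := by
  have hn2 : (1 : ℝ) ≤ n := by exact_mod_cast hn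
  have hn0 : (0 : ℝ) < n := by linarith
  set w : ℝ := 1 / n with hw
  set Q : ℝ := 2 + n * (q - 2) with hQ
  have hQ0 : 0 ≤ Q := by
    have : 0 ≤ n * (q - 2) := by
      apply mul_nonneg hn0.le
      linarith
    linarith
  have hw0 : 0 < w := by positivity
  have hw1 : w ≤ 1 := by
    rw [hw, div_le_one hn0]
    linarith
  have hnw : w * n = 1 := by
    rw [hw]
    field_simp
  have h2 : ∀ x, u x ^ q = (u x ^ 2) ^ (1 - w) * (u x ^ Q) ^ w := by
    intro x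
    rw [← ENNReal.rpow_natCast, ← ENNReal.rpow_mul, ← ENNReal.rpow_mul,
      ← ENNReal.rpow_add_of_nonneg _ _ (by
        have : 0 ≤ 1 - w := by linarith
        positivity) (by positivity)]
    congr 1
    have h3 : Q * w = 2 * w + (q - 2) := by
      rw [hQ, add_mul, mul_assoc, mul_comm (q - 2), ← mul_assoc, mul_comm (n : ℝ) w, hnw, one_mul]
    push_cast
    rw [h3]
    ring
  have h3 : ∫⁻ x, u x ^ q ∂μ ≤ (∫⁻ x, u x ^ 2 ∂μ) ^ (1 - w) * (∫⁻ x, u x ^ Q ∂μ) ^ w := by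
    simp only [h2]
    exact ENNReal.lintegral_mul_norm_pow_le (hu.pow_const 2).aemeasurable
      (hu.pow_const Q).aemeasurable (by linarith) hw0.le (by ring)
  calc (∫⁻ x, u x ^ q ∂μ) ^ (n : ℝ)
      ≤ ((∫⁻ x, u x ^ 2 ∂μ) ^ (1 - w) * (∫⁻ x, u x ^ Q ∂μ) ^ w) ^ (n : ℝ) := by gcongr
    _ = _ := by
        rw [ENNReal.mul_rpow_of_nonneg _ _ hn0.le, ← ENNReal.rpow_mul, ← ENNReal.rpow_mul, hnw,
          ENNReal.rpow_one, sub_mul, hnw, one_mul]

/-- **The weighted mixed norm estimate.** -/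
theorem weighted (n k : ℕ) (hk : 2 ≤ k) (hkn : k ≤ n) (q : ℝ) (hq : 2 * ((n : ℝ) + 1) / n < q)
    (A B C : ℝ≥0) : ∃ K : ℝ≥0, ∀ u : ℝ → ℝ → ℝ≥0∞, Measurable (Function.uncurry u) →
      (∀ t, ∫⁻ ρ, u ρ t ^ 2 ≤ A) → (∀ ρ, ∫⁻ t, u ρ t ^ 2 ≤ B) →
      (∫⁻ t, ∫⁻ ρ, u ρ t ^ (2 + n * (q - 2)) ≤ C) →
      ∫⁻ t, (∫⁻ ρ in Ioi (1 : ℝ), ENNReal.ofReal (ρ ^ (-((k : ℝ) - 1) * (q - 2) / 2)) *
        u ρ t ^ q) ^ ((n : ℝ) / k) ≤ K := by
  have hk2 : (2 : ℝ) ≤ k := by exact_mod_cast hk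
  have hkn' : (k : ℝ) ≤ n := by exact_mod_cast hkn
  have hk0 : (0 : ℝ) < k := by linarith
  have hn0 : (0 : ℝ) < n := by linarith
  have hq2 : 2 < n * (q - 2) := by
    rw [div_lt_iff₀ hn0] at hq
    linarith
  have hq0 : 2 < q := by
    by_contra h
    have : n * (q - 2) ≤ 0 := mul_nonpos_of_nonneg_of_nonpos hn0.le (by linarith)
    linarith
  set s : ℝ := (n : ℝ) / k with hs
  have hs1 : 1 ≤ s := by
    rw [hs, le_div_iff₀ hk0]
    linarith
  have hs0 : 0 < s := by linarith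
  set w : ℝ := ((k : ℝ) - 1) * (q - 2) / 2 with hw
  have hw0 : 0 ≤ w := by
    rw [hw]
    have : 0 ≤ ((k : ℝ) - 1) * (q - 2) := mul_nonneg (by linarith) (by linarith)
    linarith
  set Q : ℝ := 2 + n * (q - 2) with hQ
  -- the constant of one piece
  set e : ℝ := ((k : ℝ) - 1) / k with he
  have he0 : 0 ≤ e := by
    rw [he]
    apply div_nonneg _ hk0.le
    linarith
  have he1 : e ≤ 1 := by
    rw [he, div_le_one hk0]
    linarith
  set D : ℝ≥0∞ := (A : ℝ≥0∞) ^ (((n : ℝ) - k) / k) * ((B : ℝ≥0∞) ^ e * (C : ℝ≥0∞) ^ (1 / (k : ℝ)))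
    with hD
  have hDfin : D ≠ ∞ := by
    rw [hD]
    apply ENNReal.mul_ne_top
    · exact ENNReal.rpow_ne_top_of_nonneg (div_nonneg (by linarith) hk0.le) ENNReal.coe_ne_top
    · apply ENNReal.mul_ne_top
      · exact ENNReal.rpow_ne_top_of_nonneg he0 ENNReal.coe_ne_top
      · exact ENNReal.rpow_ne_top_of_nonneg (by positivity) ENNReal.coe_ne_top
  -- the geometric series
  set η : ℝ := w - e / s with hη
  have hη0 : 0 < η := by
    rw [hη, hw, he, hs]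
    have h1 : ((k : ℝ) - 1) / k / (n / k) = ((k : ℝ) - 1) / n := by
      field_simp
    rw [h1]
    have h2 : ((k : ℝ) - 1) / n < ((k : ℝ) - 1) * (q - 2) / 2 := by
      rw [div_lt_div_iff₀ hn0 two_pos]
      have : 0 < (k : ℝ) - 1 := by linarith
      nlinarith
    linarith
  set G : ℝ≥0∞ := ∑' i : ℕ, ENNReal.ofReal (2 ^ (-η)) ^ i with hG
  have hGfin : G ≠ ∞ := by
    rw [hG, ENNReal.tsum_geometric]
    apply ENNReal.inv_ne_top.2
    have h1 : ENNReal.ofReal ((2 : ℝ) ^ (-η)) < 1 := by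
      rw [← ENNReal.ofReal_one, ENNReal.ofReal_lt_ofReal_iff one_pos]
      exact Real.rpow_lt_one_of_one_lt_of_neg one_lt_two (by linarith)
    exact (tsub_pos_of_lt h1).ne'
  refine ⟨((D ^ (1 / s) * G) ^ s).toNNReal, ?_⟩
  have hfin : (D ^ (1 / s) * G) ^ s ≠ ∞ := by
    apply ENNReal.rpow_ne_top_of_nonneg hs0.le
    exact ENNReal.mul_ne_top (ENNReal.rpow_ne_top_of_nonneg (by positivity) hDfin) hGfin
  rw [ENNReal.coe_toNNReal hfin]
  intro u hu h2 h3 h4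
  -- the pieces
  set V : ℕ → ℝ → ℝ≥0∞ := fun i t => ∫⁻ ρ in Ioc ((2 : ℝ) ^ i) (2 ^ (i + 1)), u ρ t ^ q with hV
  set c : ℕ → ℝ≥0∞ := fun i => ENNReal.ofReal (((2 : ℝ) ^ i) ^ (-w)) with hc
  have hut : ∀ t, Measurable fun ρ => u ρ t := fun t =>
    hu.comp (by fun_prop : Measurable fun ρ : ℝ => ((ρ, t) : ℝ × ℝ))
  have huq : ∀ p : ℝ, Measurable (Function.uncurry fun ρ t => u ρ t ^ p) := fun p =>
    hu.pow_const p
  have hu2 : Measurable (Function.uncurry fun ρ t => u ρ t ^ 2) := hu.pow_const 2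
  have hVm : ∀ i, Measurable (V i) := fun i => (huq q).lintegral_prod_left'
  have hsplit : ∀ t, ∫⁻ ρ in Ioi (1 : ℝ), ENNReal.ofReal (ρ ^ (-((k : ℝ) - 1) * (q - 2) / 2)) *
      u ρ t ^ q ≤ ∑' i, c i * V i t := by
    intro t
    refine (lintegral_mono_set dyad_cover).trans ((lintegral_iUnion_le _ _).trans ?_)
    apply ENNReal.tsum_le_tsum
    intro i
    rw [hc, hV]
    simp only
    rw [← lintegral_const_mul _ ((hut t).pow_const q)]
    apply setLIntegral_mono' measurableSet_Ioc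
    intro ρ hρ
    have h5 : (0 : ℝ) < 2 ^ i := by positivity
    gcongr ?_ * _
    apply ENNReal.ofReal_le_ofReal
    rw [show -((k : ℝ) - 1) * (q - 2) / 2 = -w by rw [hw]; ring]
    exact Real.rpow_le_rpow_of_nonpos h5 hρ.1.le (by linarith)
  -- one piece
  have hpiece : ∀ i, ∫⁻ t, V i t ^ s ≤ D * ENNReal.ofReal ((2 : ℝ) ^ i) ^ e := by
    intro i
    set S : Set ℝ := Ioc ((2 : ℝ) ^ i) (2 ^ (i + 1)) with hS
    have h5 : ∀ t, V i t ^ s ≤ (A : ℝ≥0∞) ^ (((n : ℝ) - k) / k) *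
        ((∫⁻ ρ in S, u ρ t ^ 2) ^ e * (∫⁻ ρ, u ρ t ^ Q) ^ (1 / (k : ℝ))) := by
      intro t
      have h6 := hold_fix (volume.restrict S) n (by omega) q hq0.le (fun ρ => u ρ t) (hut t)
      have h7 : V i t ^ s = (V i t ^ (n : ℝ)) ^ (1 / (k : ℝ)) := by
        rw [← ENNReal.rpow_mul]
        congr 1
        rw [hs]
        ring
      have h8 : (∫⁻ ρ in S, u ρ t ^ 2) ≤ A := (setLIntegral_le_lintegral _ _).trans (h2 t)
      have h9 : (∫⁻ ρ in S, u ρ t ^ Q) ≤ ∫⁻ ρ, u ρ t ^ Q := setLIntegral_le_lintegral _ _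
      rw [h7]
      calc (V i t ^ (n : ℝ)) ^ (1 / (k : ℝ))
          ≤ ((∫⁻ ρ in S, u ρ t ^ 2) ^ ((n : ℝ) - 1) * ∫⁻ ρ in S, u ρ t ^ Q) ^ (1 / (k : ℝ)) := by
            gcongr
        _ = (∫⁻ ρ in S, u ρ t ^ 2) ^ (((n : ℝ) - k) / k + e) *
            (∫⁻ ρ in S, u ρ t ^ Q) ^ (1 / (k : ℝ)) := by
            rw [ENNReal.mul_rpow_of_nonneg _ _ (by positivity), ← ENNReal.rpow_mul]
            congr 2
            rw [he]
            field_simp
            ring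
        _ = (∫⁻ ρ in S, u ρ t ^ 2) ^ (((n : ℝ) - k) / k) *
            ((∫⁻ ρ in S, u ρ t ^ 2) ^ e * (∫⁻ ρ in S, u ρ t ^ Q) ^ (1 / (k : ℝ))) := by
            rw [ENNReal.rpow_add_of_nonneg _ _ (div_nonneg (by linarith) hk0.le) he0, mul_assoc]
        _ ≤ _ := by
            have : 0 ≤ ((n : ℝ) - k) / k := div_nonneg (by linarith) hk0.le
            gcongr
    have hXm : Measurable fun t => ∫⁻ ρ in S, u ρ t ^ 2 := hu2.lintegral_prod_left'
    have hYm : Measurable fun t => ∫⁻ ρ, u ρ t ^ Q := (huq Q).lintegral_prod_left'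
    have hX : ∫⁻ t, ∫⁻ ρ in S, u ρ t ^ 2 ≤ B * ENNReal.ofReal ((2 : ℝ) ^ i) := by
      rw [lintegral_lintegral_swap]
      · calc ∫⁻ ρ in S, ∫⁻ t, u ρ t ^ 2 ≤ ∫⁻ _ρ in S, (B : ℝ≥0∞) := lintegral_mono fun ρ => h3 ρ
          _ = B * ENNReal.ofReal ((2 : ℝ) ^ i) := by
              rw [setLIntegral_const, hS, Real.volume_Ioc]
              congr 2
              ring
      · exact (hu2.comp measurable_swap).aemeasurable
    calc ∫⁻ t, V i t ^ s ≤ ∫⁻ t, (A : ℝ≥0∞) ^ (((n : ℝ) - k) / k) *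
          ((∫⁻ ρ in S, u ρ t ^ 2) ^ e * (∫⁻ ρ, u ρ t ^ Q) ^ (1 / (k : ℝ))) := lintegral_mono h5
      _ = (A : ℝ≥0∞) ^ (((n : ℝ) - k) / k) *
          ∫⁻ t, (∫⁻ ρ in S, u ρ t ^ 2) ^ e * (∫⁻ ρ, u ρ t ^ Q) ^ (1 / (k : ℝ)) := by
          rw [lintegral_const_mul]
          exact (hXm.pow_const _).mul (hYm.pow_const _)
      _ ≤ (A : ℝ≥0∞) ^ (((n : ℝ) - k) / k) *
          ((∫⁻ t, ∫⁻ ρ in S, u ρ t ^ 2) ^ e * (∫⁻ t, ∫⁻ ρ, u ρ t ^ Q) ^ (1 / (k : ℝ))) := by
          gcongr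
          exact ENNReal.lintegral_mul_norm_pow_le hXm.aemeasurable hYm.aemeasurable he0
            (by positivity) (by rw [he]; field_simp; ring)
      _ ≤ (A : ℝ≥0∞) ^ (((n : ℝ) - k) / k) *
          ((B * ENNReal.ofReal ((2 : ℝ) ^ i)) ^ e * (C : ℝ≥0∞) ^ (1 / (k : ℝ))) := by
          gcongr
      _ = D * ENNReal.ofReal ((2 : ℝ) ^ i) ^ e := by
          rw [ENNReal.mul_rpow_of_nonneg _ _ he0, hD]
          ring
  calc ∫⁻ t, (∫⁻ ρ in Ioi (1 : ℝ), ENNReal.ofReal (ρ ^ (-((k : ℝ) - 1) * (q - 2) / 2)) *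
        u ρ t ^ q) ^ s
      ≤ ∫⁻ t, (∑' i, c i * V i t) ^ s := by
        apply lintegral_mono
        intro t
        simp only
        gcongr
        exact hsplit t
    _ ≤ (∑' i, (∫⁻ t, (c i * V i t) ^ s) ^ (1 / s)) ^ s :=
        Pool.Agent.TH335.RF.mink volume s hs1 (fun i t => c i * V i t)
          fun i => (hVm i).const_mul _
    _ ≤ (∑' i, D ^ (1 / s) * ENNReal.ofReal (2 ^ (-η)) ^ i) ^ s := by
        gcongr with i
        calc (∫⁻ t, (c i * V i t) ^ s) ^ (1 / s) = c i * (∫⁻ t, V i t ^ s) ^ (1 / s) := by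
              have h5 : ∀ t, (c i * V i t) ^ s = c i ^ s * V i t ^ s := fun t =>
                ENNReal.mul_rpow_of_nonneg _ _ hs0.le
              simp only [h5]
              rw [lintegral_const_mul _ ((hVm i).pow_const s), ENNReal.mul_rpow_of_nonneg _ _
                (by positivity), ← ENNReal.rpow_mul, mul_one_div_cancel hs0.ne', ENNReal.rpow_one]
          _ ≤ c i * (D * ENNReal.ofReal ((2 : ℝ) ^ i) ^ e) ^ (1 / s) := by
              gcongr
              exact hpiece i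
          _ = D ^ (1 / s) * ENNReal.ofReal (2 ^ (-η)) ^ i := by
              have hp : (0 : ℝ) < 2 ^ i := by positivity
              rw [ENNReal.mul_rpow_of_nonneg _ _ (by positivity), ← ENNReal.rpow_mul, hc]
              simp only
              rw [ENNReal.ofReal_rpow_of_pos hp, mul_left_comm, ← ENNReal.ofReal_mul (by positivity),
                ← ENNReal.ofReal_pow (by positivity)]
              congr 2
              rw [← Real.rpow_add hp, ← Real.rpow_natCast, ← Real.rpow_natCast,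
                ← Real.rpow_mul (by norm_num), ← Real.rpow_mul (by norm_num)]
              congr 1
              rw [hη]
              ring
    _ = (D ^ (1 / s) * G) ^ s := by
        rw [ENNReal.tsum_mul_left]

end Pool.Agent.X146.RP
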