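import Mathlib
import Pool.Agent.TH277.HT.K
set_option autoImplicit false
set_option linter.unusedSectionVars false

/-! The `L²` norm in time of the extension operator of the half parabola at a fixed point. -/

namespace Pool.Agent.X146.RP

open MeasureTheory Set Complex
open scoped ENNReal NNReal
open Pool.Agent.TH277.HT

variable {H : Type} [NormedAddCommGroup H] [InnerProductSpace ℂ H] [CompleteSpace H]

/-- amplitudes on `(0,1]` of size `K √u` -/
structure Half (K : ℝ) (φ : ℝ → H) : Prop where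
  meas : StronglyMeasurable φ
  bd : ∀ u ∈ Ioc (0 : ℝ) 1, ‖φ u‖ ≤ K * Real.sqrt u
  zero : ∀ u, u ∉ Ioc (0 : ℝ) 1 → φ u = 0

lemma sq_image : (fun u : ℝ => u ^ 2) '' Ioc (0 : ℝ) 1 = Ioc (0 : ℝ) 1 := by
  ext s
  constructor
  · rintro ⟨u, hu, rfl⟩
    have h1 := hu.1
    have h2 := hu.2
    refine ⟨by positivity, ?_⟩
    simp only
    nlinarith
  · intro hs
    exact ⟨Real.sqrt s, ⟨Real.sqrt_pos.2 hs.1, Real.sqrt_le_one.2 hs.2⟩, Real.sq_sqrt hs.1.le⟩

lemma sq_deriv (u : ℝ) : HasDerivAt (fun u : ℝ => u ^ 2) (2 * u) u := by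
  simpa using hasDerivAt_pow 2 u

lemma sq_inj : InjOn (fun u : ℝ => u ^ 2) (Ioc (0 : ℝ) 1) := by
  intro u hu v hv h
  simp only at h
  exact (pow_left_inj₀ hu.1.le hv.1.le two_ne_zero).1 h

/-- the amplitude in the variable `s = u²` -/
noncomputable def ps (φ : ℝ → H) (s : ℝ) : H :=
  (Ioc (0 : ℝ) 1).indicator (fun s => (2 * Real.sqrt s)⁻¹ • φ (Real.sqrt s)) s

lemma ps_meas {K : ℝ} {φ : ℝ → H} (h : Half K φ) : StronglyMeasurable (ps φ) := by
  unfold ps
  apply StronglyMeasurable.indicator _ measurableSet_Ioc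
  refine StronglyMeasurable.smul (f := fun s : ℝ => (2 * Real.sqrt s)⁻¹)
    (g := fun s : ℝ => φ (Real.sqrt s)) ?_ ?_
  · exact Measurable.stronglyMeasurable (by fun_prop)
  · exact h.meas.comp_measurable Real.continuous_sqrt.measurable

lemma ps_bd {K : ℝ} {φ : ℝ → H} (h : Half K φ) (s : ℝ) (hs : s ∈ Ioc (0 : ℝ) 1) :
    ‖ps φ s‖ ≤ K * s ^ (-(1 / 4) : ℝ) := by
  unfold ps
  rw [indicator_of_mem hs]
  have h0 : 0 < Real.sqrt s := Real.sqrt_pos.2 hs.1
  have h1 : Real.sqrt s ∈ Ioc (0 : ℝ) 1 := ⟨h0, Real.sqrt_le_one.2 hs.2⟩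
  have h2 := h.bd _ h1
  have hK : 0 ≤ K := by
    have h3 := (norm_nonneg _).trans h2
    by_contra hc
    push Not at hc
    have h4 : 0 < Real.sqrt (Real.sqrt s) := Real.sqrt_pos.2 h0
    nlinarith
  rw [norm_smul, Real.norm_of_nonneg (by positivity)]
  have h5 : Real.sqrt (Real.sqrt s) = s ^ (1 / 4 : ℝ) := by
    rw [Real.sqrt_eq_rpow, Real.sqrt_eq_rpow, ← Real.rpow_mul hs.1.le]
    norm_num
  have h6 : Real.sqrt s = s ^ (1 / 4 : ℝ) * s ^ (1 / 4 : ℝ) := by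
    rw [Real.sqrt_eq_rpow, ← Real.rpow_add hs.1]
    norm_num
  have h7 : 0 < s ^ (1 / 4 : ℝ) := Real.rpow_pos_of_pos hs.1 _
  rw [h5] at h2
  calc (2 * Real.sqrt s)⁻¹ * ‖φ (Real.sqrt s)‖
      ≤ (2 * Real.sqrt s)⁻¹ * (K * s ^ (1 / 4 : ℝ)) := by gcongr
    _ = (K / 2) * (s ^ (1 / 4 : ℝ))⁻¹ := by
        rw [h6]
        field_simp
    _ ≤ K * s ^ (-(1 / 4) : ℝ) := by
        rw [Real.rpow_neg hs.1.le]
        have : 0 < (s ^ (1 / 4 : ℝ))⁻¹ := by positivity
        nlinarith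

lemma ps_zero (φ : ℝ → H) (s : ℝ) (hs : s ∉ Ioc (0 : ℝ) 1) : ps φ s = 0 := by
  unfold ps
  exact indicator_of_notMem hs _

lemma ps_int {K : ℝ} {φ : ℝ → H} (h : Half K φ) : Integrable (ps φ) := by
  have h1 : IntegrableOn (ps φ) (Ioc (0 : ℝ) 1) := by
    have h2 : IntervalIntegrable (fun s : ℝ => K * s ^ (-(1 / 4) : ℝ)) volume 0 1 :=
      (intervalIntegral.intervalIntegrable_rpow' (by norm_num)).const_mul K
    rw [intervalIntegrable_iff_integrableOn_Ioc_of_le zero_le_one] at h2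
    refine Integrable.mono' h2 (ps_meas h).aestronglyMeasurable ?_
    exact (ae_restrict_iff' measurableSet_Ioc).2 (ae_of_all _ fun s hs => ps_bd h s hs)
  rwa [integrableOn_iff_integrable_of_support_subset] at h1
  intro s hs
  by_contra hc
  exact hs (ps_zero φ s hc)

lemma ps_L2 {K : ℝ} {φ : ℝ → H} (h : Half K φ) : MemLp (ps φ) 2 := by
  rw [memLp_two_iff_integrable_sq_norm (ps_meas h).aestronglyMeasurable]
  have h1 : IntegrableOn (fun s => ‖ps φ s‖ ^ 2) (Ioc (0 : ℝ) 1) := by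
    have h2 : IntervalIntegrable (fun s : ℝ => K ^ 2 * s ^ (-(1 / 2) : ℝ)) volume 0 1 :=
      (intervalIntegral.intervalIntegrable_rpow' (by norm_num)).const_mul _
    rw [intervalIntegrable_iff_integrableOn_Ioc_of_le zero_le_one] at h2
    refine Integrable.mono' h2 ((ps_meas h).norm.pow 2).aestronglyMeasurable ?_
    refine (ae_restrict_iff' measurableSet_Ioc).2 (ae_of_all _ fun s hs => ?_)
    rw [Real.norm_of_nonneg (by positivity)]
    have h3 := ps_bd h s hs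
    have h4 : s ^ (-(1 / 2) : ℝ) = s ^ (-(1 / 4) : ℝ) * s ^ (-(1 / 4) : ℝ) := by
      rw [← Real.rpow_add hs.1]
      norm_num
    calc ‖ps φ s‖ ^ 2 ≤ (K * s ^ (-(1 / 4) : ℝ)) ^ 2 := by gcongr
      _ = K ^ 2 * s ^ (-(1 / 2) : ℝ) := by
          rw [h4]
          ring
  rwa [integrableOn_iff_integrable_of_support_subset] at h1
  intro s hs
  by_contra hc
  apply hs
  simp [ps_zero φ s hc]

lemma half_int {K : ℝ} {φ : ℝ → H} (h : Half K φ) : Integrable φ := by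
  have hK : 0 ≤ K := by
    have h3 := (norm_nonneg _).trans (h.bd 1 ⟨one_pos, le_rfl⟩)
    simpa using h3
  apply int_of_supp h.meas 1 K
  · intro u
    by_cases hu : u ∈ Ioc (0 : ℝ) 1
    · refine (h.bd u hu).trans ?_
      have : Real.sqrt u ≤ 1 := Real.sqrt_le_one.2 hu.2
      nlinarith [Real.sqrt_nonneg u]
    · rw [h.zero u hu, norm_zero]
      exact hK
  · intro u hu
    apply h.zero
    intro h1
    rw [abs_of_pos h1.1] at hu
    linarith [h1.2]

/-- change of variables -/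
lemma half_cv {K : ℝ} {φ : ℝ → H} (h : Half K φ) (t : ℝ) :
    ∫ u, ch (u ^ 2 * t) • φ u = ∫ s, ch (s * t) • ps φ s := by
  have h1 : ∫ u, ch (u ^ 2 * t) • φ u = ∫ u in Ioc (0 : ℝ) 1, ch (u ^ 2 * t) • φ u := by
    symm
    apply setIntegral_eq_integral_of_forall_compl_eq_zero
    intro u hu
    rw [h.zero u hu, smul_zero]
  have h2 : ∫ s, ch (s * t) • ps φ s = ∫ s in Ioc (0 : ℝ) 1, ch (s * t) • ps φ s := by
    symm
    apply setIntegral_eq_integral_of_forall_compl_eq_zero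
    intro u hu
    rw [ps_zero φ u hu, smul_zero]
  rw [h1, h2]
  conv_rhs => rw [← sq_image]
  rw [integral_image_eq_integral_abs_deriv_smul measurableSet_Ioc
    (fun u _ => (sq_deriv u).hasDerivWithinAt) sq_inj]
  apply setIntegral_congr_fun measurableSet_Ioc
  intro u hu
  have h3 : u ^ 2 ∈ Ioc (0 : ℝ) 1 := by
    rw [← sq_image]
    exact ⟨u, hu, rfl⟩
  have h4 : ps φ (u ^ 2) = (2 * u)⁻¹ • φ u := by
    unfold ps
    rw [indicator_of_mem h3, Real.sqrt_sq hu.1.le]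
  simp only
  rw [h4, abs_of_pos (by linarith [hu.1] : 0 < 2 * u), smul_comm (2 * u), smul_smul,
    mul_inv_cancel₀ (by have := hu.1; positivity), one_smul]

/-- **the `L²` norm in time** -/
lemma timeL2 {K : ℝ} {φ : ℝ → H} (h : Half K φ) :
    ∫⁻ t : ℝ, ‖∫ u, ch (u ^ 2 * t) • φ u‖ₑ ^ 2 =
      ∫⁻ u in Ioc (0 : ℝ) 1, ENNReal.ofReal (1 / (2 * u)) * ‖φ u‖ₑ ^ 2 := by
  simp only [half_cv h]
  rw [planch1 _ (ps_int h) (ps_L2 h)]
  have h1 : ∫⁻ u, ‖ps φ u‖ₑ ^ 2 = ∫⁻ u in Ioc (0 : ℝ) 1, ‖ps φ u‖ₑ ^ 2 := by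
    rw [← lintegral_indicator measurableSet_Ioc]
    apply lintegral_congr
    intro u
    by_cases hu : u ∈ Ioc (0 : ℝ) 1
    · rw [indicator_of_mem hu]
    · rw [indicator_of_notMem hu, ps_zero φ u hu]
      simp
  rw [h1]
  conv_lhs => rw [← sq_image]
  rw [lintegral_image_eq_lintegral_abs_deriv_mul measurableSet_Ioc
    (fun u _ => (sq_deriv u).hasDerivWithinAt) sq_inj]
  apply setLIntegral_congr_fun measurableSet_Ioc
  intro u hu
  have h3 : u ^ 2 ∈ Ioc (0 : ℝ) 1 := by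
    rw [← sq_image]
    exact ⟨u, hu, rfl⟩
  have h4 : ps φ (u ^ 2) = (2 * u)⁻¹ • φ u := by
    unfold ps
    rw [indicator_of_mem h3, Real.sqrt_sq hu.1.le]
  have h5 : 0 < 2 * u := by linarith [hu.1]
  simp only
  rw [h4, abs_of_pos h5, enorm_smul, mul_pow, ← mul_assoc]
  congr 1
  rw [← ofReal_norm, Real.norm_of_nonneg (by positivity), ← ENNReal.ofReal_pow (by positivity),
    ← ENNReal.ofReal_mul h5.le]
  congr 1
  field_simp

end Pool.Agent.X146.RP
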