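import Mathlib
import Pool.Agent.X146.RP.D
import Pool.Agent.TH335.RF.P2
set_option autoImplicit false
set_option linter.unusedSectionVars false

/-! The radial profile of the extension of a radial function: decomposition into the main term and
the remainder. -/

namespace Pool.Agent.X146.RP

open MeasureTheory Set Complex
open scoped ENNReal NNReal
open Pool.Agent.TH277.HT
open Pool.Agent.H438R2.BR (Phi Phi_le Phi_meas)
open Pool.Agent.TH335.RF (norm_mt phi_asym)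

variable {H : Type} [NormedAddCommGroup H] [InnerProductSpace ℂ H] [CompleteSpace H]

/-- the amplitude of the profile -/
noncomputable def vA (k : ℕ) (b : ℝ → H) (ρ r : ℝ) : H :=
  (Ioc (0 : ℝ) 1).indicator
    (fun r => (((r ^ (k - 1) : ℝ) : ℂ) * Phi k (2 * Real.pi * r * ρ)) • b r) r

/-- the profile -/
noncomputable def VV (k : ℕ) (b : ℝ → H) (ρ t : ℝ) : H := ∫ r, ch (r ^ 2 * t) • vA k b ρ r

/-- the amplitude of the main term -/
noncomputable def gA (k : ℕ) (b : ℝ → H) (r : ℝ) : H :=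
  (Ioc (0 : ℝ) 1).indicator (fun r => ((r ^ (((k : ℝ) - 1) / 2) : ℝ) : ℂ) • b r) r

/-- the error in the asymptotics -/
noncomputable def er (k : ℕ) (c : ℂ) (z : ℝ) : ℂ :=
  Phi k z - ((z ^ (-((k : ℝ) - 1) / 2) : ℝ) : ℂ) * Pool.Agent.TH335.RF.mt c z

/-- the amplitude of the remainder -/
noncomputable def eA (k : ℕ) (c : ℂ) (b : ℝ → H) (ρ r : ℝ) : H :=
  (Ioc (0 : ℝ) 1).indicator
    (fun r => (((r ^ (k - 1) : ℝ) : ℂ) * er k c (2 * Real.pi * r * ρ)) • b r) r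

/-- the remainder -/
noncomputable def WW (k : ℕ) (c : ℂ) (b : ℝ → H) (ρ t : ℝ) : H :=
  ∫ r, ch (r ^ 2 * t) • eA k c b ρ r

lemma mt_meas (c : ℂ) : Measurable (Pool.Agent.TH335.RF.mt c) := by
  unfold Pool.Agent.TH335.RF.mt
  fun_prop

lemma er_meas (k : ℕ) (c : ℂ) : Measurable (er k c) := by
  unfold er
  exact (Phi_meas k).sub ((Complex.measurable_ofReal.comp (by fun_prop)).mul (mt_meas c))

lemma pow_le_sqrt {k : ℕ} (hk : 2 ≤ k) {r : ℝ} (hr : r ∈ Ioc (0 : ℝ) 1) : r ^ (k - 1) ≤ Real.sqrt r := by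
  have h1 : r ^ (k - 1) ≤ r ^ 1 := pow_le_pow_of_le_one hr.1.le hr.2 (by omega)
  rw [pow_one] at h1
  have h2 : r ≤ Real.sqrt r := by
    rw [Real.le_sqrt' hr.1]
    nlinarith [hr.1, hr.2]
  exact h1.trans h2

lemma pow_le_self' {k : ℕ} (hk : 2 ≤ k) {r : ℝ} (hr : r ∈ Ioc (0 : ℝ) 1) : r ^ (k - 1) ≤ r := by
  have h1 : r ^ (k - 1) ≤ r ^ 1 := pow_le_pow_of_le_one hr.1.le hr.2 (by omega)
  rwa [pow_one] at h1

lemma vA_meas {k : ℕ} {b : ℝ → H} (hb : Adm b) :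
    StronglyMeasurable (Function.uncurry (vA k b)) := by
  have h1 : Function.uncurry (vA k b) = (Prod.snd ⁻¹' Ioc (0 : ℝ) 1).indicator
      (fun p : ℝ × ℝ => (((p.2 ^ (k - 1) : ℝ) : ℂ) * Phi k (2 * Real.pi * p.2 * p.1)) • b p.2) := by
    ext p
    obtain ⟨ρ, r⟩ := p
    simp only [Function.uncurry_apply_pair, vA]
    by_cases h : r ∈ Ioc (0 : ℝ) 1
    · rw [indicator_of_mem h, indicator_of_mem (by exact h)]
    · rw [indicator_of_notMem h, indicator_of_notMem (by exact h)]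
  rw [h1]
  apply StronglyMeasurable.indicator _ (measurable_snd measurableSet_Ioc)
  refine StronglyMeasurable.smul
    (f := fun p : ℝ × ℝ => ((p.2 ^ (k - 1) : ℝ) : ℂ) * Phi k (2 * Real.pi * p.2 * p.1))
    (g := fun p : ℝ × ℝ => b p.2) ?_ ?_
  · apply Measurable.stronglyMeasurable
    apply Measurable.mul
    · exact Complex.measurable_ofReal.comp (by fun_prop)
    · exact (Phi_meas k).comp (by fun_prop)
  · exact hb.meas.comp_measurable measurable_snd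

lemma eA_meas {k : ℕ} {c : ℂ} {b : ℝ → H} (hb : Adm b) :
    StronglyMeasurable (Function.uncurry (eA k c b)) := by
  have h1 : Function.uncurry (eA k c b) = (Prod.snd ⁻¹' Ioc (0 : ℝ) 1).indicator
      (fun p : ℝ × ℝ => (((p.2 ^ (k - 1) : ℝ) : ℂ) * er k c (2 * Real.pi * p.2 * p.1)) • b p.2) := by
    ext p
    obtain ⟨ρ, r⟩ := p
    simp only [Function.uncurry_apply_pair, eA]
    by_cases h : r ∈ Ioc (0 : ℝ) 1
    · rw [indicator_of_mem h, indicator_of_mem (by exact h)]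
    · rw [indicator_of_notMem h, indicator_of_notMem (by exact h)]
  rw [h1]
  apply StronglyMeasurable.indicator _ (measurable_snd measurableSet_Ioc)
  refine StronglyMeasurable.smul
    (f := fun p : ℝ × ℝ => ((p.2 ^ (k - 1) : ℝ) : ℂ) * er k c (2 * Real.pi * p.2 * p.1))
    (g := fun p : ℝ × ℝ => b p.2) ?_ ?_
  · apply Measurable.stronglyMeasurable
    apply Measurable.mul
    · exact Complex.measurable_ofReal.comp (by fun_prop)
    · exact (er_meas k c).comp (by fun_prop)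
  · exact hb.meas.comp_measurable measurable_snd

lemma int_meas {A : ℝ → ℝ → H} (hA : StronglyMeasurable (Function.uncurry A)) :
    StronglyMeasurable fun p : ℝ × ℝ => ∫ r, ch (r ^ 2 * p.2) • A p.1 r := by
  have h1 : StronglyMeasurable (Function.uncurry fun (p : ℝ × ℝ) (r : ℝ) =>
      ch (r ^ 2 * p.2) • A p.1 r) := by
    refine StronglyMeasurable.smul (f := fun q : (ℝ × ℝ) × ℝ => ch (q.2 ^ 2 * q.1.2))
      (g := fun q : (ℝ × ℝ) × ℝ => A q.1.1 q.2) ?_ ?_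
    · exact (ch_cont.comp (by fun_prop :
        Continuous fun q : (ℝ × ℝ) × ℝ => q.2 ^ 2 * q.1.2)).stronglyMeasurable
    · have h2 : Measurable fun q : (ℝ × ℝ) × ℝ => ((q.1.1, q.2) : ℝ × ℝ) := by fun_prop
      exact hA.comp_measurable h2
  exact h1.integral_prod_right (ν := (volume : Measure ℝ))

lemma VV_meas {k : ℕ} {b : ℝ → H} (hb : Adm b) :
    StronglyMeasurable fun p : ℝ × ℝ => VV k b p.1 p.2 := int_meas (vA_meas hb)

lemma WW_meas {k : ℕ} {c : ℂ} {b : ℝ → H} (hb : Adm b) :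
    StronglyMeasurable fun p : ℝ × ℝ => WW k c b p.1 p.2 := int_meas (eA_meas hb)

lemma vA_bd {k : ℕ} (hk : 2 ≤ k) {b : ℝ → H} (hb : Adm b) (ρ : ℝ) {r : ℝ} (hr : r ∈ Ioc (0 : ℝ) 1) :
    ‖vA k b ρ r‖ ≤ Real.pi * r ^ (k - 1) := by
  unfold vA
  rw [indicator_of_mem hr, norm_smul, norm_mul, Complex.norm_real, Real.norm_of_nonneg
    (pow_nonneg hr.1.le _)]
  have h1 := Phi_le k hk (2 * Real.pi * r * ρ)
  have h2 := hb.bd r
  have h3 : 0 ≤ r ^ (k - 1) := pow_nonneg hr.1.le _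
  calc r ^ (k - 1) * ‖Phi k (2 * Real.pi * r * ρ)‖ * ‖b r‖ ≤ r ^ (k - 1) * Real.pi * 1 := by
        gcongr
    _ = _ := by ring

lemma vA_half {k : ℕ} (hk : 2 ≤ k) {b : ℝ → H} (hb : Adm b) (ρ : ℝ) :
    Half Real.pi (vA k b ρ) := by
  refine ⟨(vA_meas hb).comp_measurable
    (by fun_prop : Measurable fun r : ℝ => ((ρ, r) : ℝ × ℝ)), ?_, ?_⟩
  · intro u hu
    refine (vA_bd hk hb ρ hu).trans ?_
    have := pow_le_sqrt hk hu
    have := Real.pi_pos
    gcongr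
  · intro u hu
    unfold vA
    exact indicator_of_notMem hu _

/-- bound of an integral over `(0,1]` -/
lemma lint_le (f : ℝ → ℝ≥0∞) (C : ℝ≥0∞) (h : ∀ u ∈ Ioc (0 : ℝ) 1, f u ≤ C) :
    ∫⁻ u in Ioc (0 : ℝ) 1, f u ≤ C := by
  calc ∫⁻ u in Ioc (0 : ℝ) 1, f u ≤ ∫⁻ _u in Ioc (0 : ℝ) 1, C :=
        setLIntegral_mono' measurableSet_Ioc h
    _ = C := by
        rw [setLIntegral_const, Real.volume_Ioc]
        norm_num

lemma VV_time {k : ℕ} (hk : 2 ≤ k) {b : ℝ → H} (hb : Adm b) (ρ : ℝ) :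
    ∫⁻ t, ‖VV k b ρ t‖ₑ ^ 2 ≤ ENNReal.ofReal (Real.pi ^ 2) := by
  unfold VV
  rw [timeL2 (vA_half hk hb ρ)]
  apply lint_le
  intro u hu
  have h1 := vA_bd hk hb ρ hu
  have h2 := pow_le_self' hk hu
  have hu0 := hu.1
  rw [← ofReal_norm, ← ENNReal.ofReal_pow (norm_nonneg _), ← ENNReal.ofReal_mul (by positivity)]
  apply ENNReal.ofReal_le_ofReal
  have h3 : ‖vA k b ρ u‖ ≤ Real.pi * u := by
    refine h1.trans ?_
    have := Real.pi_pos
    gcongr
  calc 1 / (2 * u) * ‖vA k b ρ u‖ ^ 2 ≤ 1 / (2 * u) * (Real.pi * u) ^ 2 := by gcongr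
    _ = Real.pi ^ 2 * (u / 2) := by
        field_simp
    _ ≤ Real.pi ^ 2 * 1 := by
        gcongr
        linarith [hu.2]
    _ = _ := mul_one _

lemma int_bd {A : ℝ → H} (K : ℝ) (hA : Half K A) (t C : ℝ)
    (h : ∀ u ∈ Ioc (0 : ℝ) 1, ‖A u‖ ≤ C) : ‖∫ r, ch (r ^ 2 * t) • A r‖ ≤ C := by
  have h1 : ∫ r, ch (r ^ 2 * t) • A r = ∫ r in Ioc (0 : ℝ) 1, ch (r ^ 2 * t) • A r := by
    symm
    apply setIntegral_eq_integral_of_forall_compl_eq_zero
    intro u hu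
    rw [hA.zero u hu, smul_zero]
  rw [h1]
  calc ‖∫ r in Ioc (0 : ℝ) 1, ch (r ^ 2 * t) • A r‖
      ≤ C * (volume (Ioc (0 : ℝ) 1)).toReal := by
        apply norm_setIntegral_le_of_norm_le_const
        · rw [Real.volume_Ioc]
          exact ENNReal.ofReal_lt_top
        · intro u hu
          rw [norm_smul, ch_norm, one_mul]
          exact h u hu
    _ = C := by
        rw [Real.volume_Ioc]
        norm_num

lemma VV_bd {k : ℕ} (hk : 2 ≤ k) {b : ℝ → H} (hb : Adm b) (ρ t : ℝ) :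
    ‖VV k b ρ t‖ ≤ Real.pi := by
  apply int_bd Real.pi (vA_half hk hb ρ) t _
  intro u hu
  refine (vA_bd hk hb ρ hu).trans ?_
  have h1 : u ^ (k - 1) ≤ 1 := pow_le_one₀ hu.1.le hu.2
  have := Real.pi_pos
  nlinarith

/-! ### The main term -/

lemma rp_half {k : ℕ} (hk : 2 ≤ k) {r : ℝ} (hr : r ∈ Ioc (0 : ℝ) 1) :
    r ^ (((k : ℝ) - 1) / 2) ≤ Real.sqrt r := by
  have hk' : (2 : ℝ) ≤ k := by exact_mod_cast hk
  rw [Real.sqrt_eq_rpow]
  exact Real.rpow_le_rpow_of_exponent_ge hr.1 hr.2 (by linarith)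

lemma gA_norm {k : ℕ} {b : ℝ → H} (hb : Adm b) {r : ℝ} (hr : r ∈ Ioc (0 : ℝ) 1) :
    ‖gA k b r‖ ≤ r ^ (((k : ℝ) - 1) / 2) := by
  unfold gA
  have h0 : 0 ≤ r ^ (((k : ℝ) - 1) / 2) := Real.rpow_nonneg hr.1.le _
  rw [indicator_of_mem hr, norm_smul, Complex.norm_real, Real.norm_of_nonneg h0]
  have h2 := hb.bd r
  nlinarith

lemma gA_adm {k : ℕ} (hk : 2 ≤ k) {b : ℝ → H} (hb : Adm b) : Adm (gA k b) := by
  constructor
  · unfold gA
    apply StronglyMeasurable.indicator _ measurableSet_Ioc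
    refine StronglyMeasurable.smul (f := fun r : ℝ => ((r ^ (((k : ℝ) - 1) / 2) : ℝ) : ℂ))
      (g := b) ?_ hb.meas
    exact (Complex.measurable_ofReal.comp (by fun_prop)).stronglyMeasurable
  · intro r
    by_cases hr : r ∈ Ioc (0 : ℝ) 1
    · refine (gA_norm hb hr).trans ((rp_half hk hr).trans ?_)
      exact Real.sqrt_le_one.2 hr.2
    · unfold gA
      rw [indicator_of_notMem hr, norm_zero]
      exact zero_le_one

lemma gA_E1 {k : ℕ} {b : ℝ → H} (ρ t : ℝ) :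
    E1 (gA k b) ρ t = ∫ r, ch (r ^ 2 * t) • (ch (r * ρ) • gA k b r) := by
  rw [E1_eq]
  apply integral_congr_ae
  refine ae_of_all _ fun u => ?_
  simp only
  have h1 : tr (gA k b) u = gA k b u := by
    unfold tr
    by_cases hu : u ∈ Icc (-1 : ℝ) 1
    · rw [indicator_of_mem hu]
    · rw [indicator_of_notMem hu]
      unfold gA
      rw [indicator_of_notMem]
      intro h
      exact hu ⟨by linarith [h.1], h.2⟩
  rw [h1, smul_smul, ← ch_add]
  congr 2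
  ring

lemma gA_half {k : ℕ} (hk : 2 ≤ k) {b : ℝ → H} (hb : Adm b) (ρ : ℝ) :
    Half 1 (fun r => ch (r * ρ) • gA k b r) := by
  refine ⟨?_, ?_, ?_⟩
  · refine StronglyMeasurable.smul (f := fun r : ℝ => ch (r * ρ)) (g := gA k b) ?_
      (gA_adm hk hb).meas
    exact (ch_cont.comp (by fun_prop : Continuous fun r : ℝ => r * ρ)).stronglyMeasurable
  · intro u hu
    rw [norm_smul, ch_norm, one_mul, one_mul]
    exact (gA_norm hb hu).trans (rp_half hk hu)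
  · intro u hu
    unfold gA
    rw [indicator_of_notMem hu, smul_zero]

lemma main_time {k : ℕ} (hk : 2 ≤ k) {b : ℝ → H} (hb : Adm b) (ρ : ℝ) :
    ∫⁻ t, ‖E1 (gA k b) ρ t‖ₑ ^ 2 ≤ 1 := by
  simp only [gA_E1]
  rw [timeL2 (gA_half hk hb ρ)]
  apply lint_le
  intro u hu
  have h1 := gA_norm (k := k) hb hu
  have hu0 := hu.1
  rw [enorm_smul, ch_enorm, one_mul, ← ofReal_norm, ← ENNReal.ofReal_pow (norm_nonneg _),
    ← ENNReal.ofReal_mul (by positivity)]
  apply ENNReal.ofReal_le_one.2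
  have h3 : ‖gA k b u‖ ^ 2 ≤ u := by
    calc ‖gA k b u‖ ^ 2 ≤ (Real.sqrt u) ^ 2 := by
          gcongr
          exact h1.trans (rp_half hk hu)
      _ = u := Real.sq_sqrt hu0.le
  calc 1 / (2 * u) * ‖gA k b u‖ ^ 2 ≤ 1 / (2 * u) * u := by gcongr
    _ = 1 / 2 := by field_simp
    _ ≤ 1 := by norm_num

end Pool.Agent.X146.RP
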