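import Mathlib
import Pool.Agent.X146.RP.F
set_option autoImplicit false
set_option linter.unusedSectionVars false

/-! The radial profile of the extension of a radial function: the remainder. -/

namespace Pool.Agent.X146.RP

open MeasureTheory Set Complex
open scoped ENNReal NNReal
open Pool.Agent.TH277.HT
open Pool.Agent.H438R2.BR (Phi Phi_le Phi_meas)
open Pool.Agent.TH335.RF (norm_mt phi_asym)

variable {H : Type} [NormedAddCommGroup H] [InnerProductSpace ℂ H] [CompleteSpace H]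

/-- the asymptotic constant and the bound of the error -/
def Asym (k : ℕ) (c : ℂ) (C : ℝ) : Prop :=
  0 < C ∧ ∀ z : ℝ, 0 < z → ‖er k c z‖ ≤ C * (z ^ (-((k : ℝ) - 1) / 2) / (1 + z))

lemma exists_asym (k : ℕ) (hk : 2 ≤ k) : ∃ (c : ℂ) (C : ℝ), Asym k c C := by
  obtain ⟨c, C, hC, h⟩ := phi_asym k hk
  exact ⟨c, C, hC, h⟩

section
variable {k : ℕ} {c : ℂ} {C : ℝ} {b : ℝ → H}

lemma eA_bd (hk : 2 ≤ k) (hA : Asym k c C) (hb : Adm b) {ρ : ℝ} (hρ : 0 < ρ) {r : ℝ}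
    (hr : r ∈ Ioc (0 : ℝ) 1) :
    ‖eA k c b ρ r‖ ≤ C * ρ ^ (-((k : ℝ) - 1) / 2) * (r ^ (((k : ℝ) - 1) / 2) / (1 + r * ρ)) := by
  have hr0 := hr.1
  have hk' : (2 : ℝ) ≤ k := by exact_mod_cast hk
  have hz : 0 < 2 * Real.pi * r * ρ := by
    have := Real.pi_pos
    positivity
  have h1 := hA.2 _ hz
  have hC := hA.1
  unfold eA
  rw [indicator_of_mem hr, norm_smul, norm_mul, Complex.norm_real,
    Real.norm_of_nonneg (pow_nonneg hr0.le _)]
  have h2 := hb.bd r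
  set a : ℝ := ((k : ℝ) - 1) / 2 with ha
  have ha' : -((k : ℝ) - 1) / 2 = -a := by rw [ha]; ring
  rw [ha'] at h1 ⊢
  have hpos : 0 < (r * ρ) ^ (-a) := Real.rpow_pos_of_pos (by positivity) _
  have h3 : (2 * Real.pi * r * ρ) ^ (-a) / (1 + 2 * Real.pi * r * ρ) ≤
      (r * ρ) ^ (-a) / (1 + r * ρ) := by
    have hp1 : (1 : ℝ) ≤ 2 * Real.pi := by linarith [Real.pi_gt_three]
    have hrp : 0 < r * ρ := by positivity
    have h4 : r * ρ ≤ 2 * Real.pi * r * ρ := by nlinarith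
    have h5 : (2 * Real.pi * r * ρ) ^ (-a) ≤ (r * ρ) ^ (-a) :=
      Real.rpow_le_rpow_of_nonpos hrp h4 (by rw [ha]; linarith)
    apply div_le_div₀ hpos.le h5 (by linarith) (by linarith)
  have h6 : (r * ρ) ^ (-a) = r ^ (-a) * ρ ^ (-a) := Real.mul_rpow hr0.le hρ.le
  have h7 : r ^ (k - 1) * r ^ (-a) = r ^ a := by
    rw [← Real.rpow_natCast, ← Real.rpow_add hr0]
    congr 1
    rw [Nat.cast_sub (by omega), ha]
    push_cast
    ring
  calc r ^ (k - 1) * ‖er k c (2 * Real.pi * r * ρ)‖ * ‖b r‖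
      ≤ r ^ (k - 1) * (C * ((r * ρ) ^ (-a) / (1 + r * ρ))) * 1 := by
        have h8 : ‖er k c (2 * Real.pi * r * ρ)‖ ≤ C * ((r * ρ) ^ (-a) / (1 + r * ρ)) :=
          h1.trans (by gcongr)
        gcongr
    _ = C * ρ ^ (-a) * ((r ^ (k - 1) * r ^ (-a)) / (1 + r * ρ)) := by
        rw [h6]
        ring
    _ = _ := by rw [h7]

lemma eA_half (hk : 2 ≤ k) (hA : Asym k c C) (hb : Adm b) {ρ : ℝ} (hρ : 0 < ρ) :
    Half (C * ρ ^ (-((k : ℝ) - 1) / 2)) (eA k c b ρ) := by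
  refine ⟨(eA_meas hb).comp_measurable
    (by fun_prop : Measurable fun r : ℝ => ((ρ, r) : ℝ × ℝ)), ?_, ?_⟩
  · intro u hu
    refine (eA_bd hk hA hb hρ hu).trans ?_
    have hC := hA.1
    have h1 : 0 < ρ ^ (-((k : ℝ) - 1) / 2) := Real.rpow_pos_of_pos hρ _
    have h2 := rp_half hk hu
    have h3 : 0 ≤ u ^ (((k : ℝ) - 1) / 2) := Real.rpow_nonneg hu.1.le _
    have h4 : 0 < u * ρ := mul_pos hu.1 hρ
    have h5 : u ^ (((k : ℝ) - 1) / 2) / (1 + u * ρ) ≤ Real.sqrt u := by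
      rw [div_le_iff₀ (by linarith)]
      nlinarith [Real.sqrt_nonneg u]
    gcongr
  · intro u hu
    unfold eA
    exact indicator_of_notMem hu _

/-- the sup bound of the remainder -/
lemma WW_bd (hk : 2 ≤ k) (hA : Asym k c C) (hb : Adm b) {ρ : ℝ} (hρ : 0 < ρ) (t : ℝ) :
    ‖WW k c b ρ t‖ ≤ 2 * C * ρ ^ (-((k : ℝ) + 1) / 2) := by
  have hk' : (2 : ℝ) ≤ k := by exact_mod_cast hk
  have hC := hA.1
  have hh := eA_half hk hA hb hρ
  unfold WW
  have h1 : ∫ r, ch (r ^ 2 * t) • eA k c b ρ r =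
      ∫ r in Ioc (0 : ℝ) 1, ch (r ^ 2 * t) • eA k c b ρ r := by
    symm
    apply setIntegral_eq_integral_of_forall_compl_eq_zero
    intro u hu
    rw [hh.zero u hu, smul_zero]
  rw [h1]
  set D : ℝ := C * ρ ^ (-((k : ℝ) + 1) / 2) with hD
  have hD0 : 0 ≤ D := mul_nonneg hC.le (Real.rpow_nonneg hρ.le _)
  have h2 : ∀ r ∈ Ioc (0 : ℝ) 1, ‖eA k c b ρ r‖ ≤ D * r ^ (-(1 / 2) : ℝ) := by
    intro r hr
    refine (eA_bd hk hA hb hρ hr).trans ?_
    have hr0 := hr.1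
    have h3 : r ^ (((k : ℝ) - 1) / 2) / (1 + r * ρ) ≤ r ^ (((k : ℝ) - 1) / 2) / (r * ρ) := by
      apply div_le_div_of_nonneg_left (Real.rpow_nonneg hr0.le _) (by positivity) (by linarith)
    have h4 : r ^ (((k : ℝ) - 1) / 2) / (r * ρ) = r ^ (((k : ℝ) - 3) / 2) * ρ⁻¹ := by
      rw [show ((k : ℝ) - 3) / 2 = ((k : ℝ) - 1) / 2 - 1 by ring, Real.rpow_sub hr0, Real.rpow_one]
      field_simp
    have h5 : r ^ (((k : ℝ) - 3) / 2) ≤ r ^ (-(1 / 2) : ℝ) :=
      Real.rpow_le_rpow_of_exponent_ge hr0 hr.2 (by linarith)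
    have h6 : ρ ^ (-((k : ℝ) - 1) / 2) * ρ⁻¹ = ρ ^ (-((k : ℝ) + 1) / 2) := by
      rw [← Real.rpow_neg_one, ← Real.rpow_add hρ]
      congr 1
      ring
    calc C * ρ ^ (-((k : ℝ) - 1) / 2) * (r ^ (((k : ℝ) - 1) / 2) / (1 + r * ρ))
        ≤ C * ρ ^ (-((k : ℝ) - 1) / 2) * (r ^ (-(1 / 2) : ℝ) * ρ⁻¹) := by
          have : 0 ≤ C * ρ ^ (-((k : ℝ) - 1) / 2) := mul_nonneg hC.le (Real.rpow_nonneg hρ.le _)
          gcongr
          refine h3.trans ?_
          rw [h4]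
          gcongr
      _ = C * (ρ ^ (-((k : ℝ) - 1) / 2) * ρ⁻¹) * r ^ (-(1 / 2) : ℝ) := by ring
      _ = _ := by rw [h6]
  have h7 : IntervalIntegrable (fun r : ℝ => D * r ^ (-(1 / 2) : ℝ)) volume 0 1 :=
    (intervalIntegral.intervalIntegrable_rpow' (by norm_num)).const_mul D
  have h8 : IntegrableOn (fun r : ℝ => D * r ^ (-(1 / 2) : ℝ)) (Ioc 0 1) := by
    rwa [intervalIntegrable_iff_integrableOn_Ioc_of_le zero_le_one] at h7
  calc ‖∫ r in Ioc (0 : ℝ) 1, ch (r ^ 2 * t) • eA k c b ρ r‖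
      ≤ ∫ r in Ioc (0 : ℝ) 1, D * r ^ (-(1 / 2) : ℝ) := by
        apply norm_integral_le_of_norm_le h8
        refine (ae_restrict_iff' measurableSet_Ioc).2 (ae_of_all _ fun r hr => ?_)
        rw [norm_smul, ch_norm, one_mul]
        exact h2 r hr
    _ = 2 * C * ρ ^ (-((k : ℝ) + 1) / 2) := by
        rw [← intervalIntegral.integral_of_le zero_le_one, intervalIntegral.integral_const_mul,
          integral_rpow (Or.inl (by norm_num)), hD]
        norm_num
        ring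

lemma inv_sq_int (a : ℝ) (ha : 0 < a) :
    ∫⁻ r in Ioc (0 : ℝ) 1, ENNReal.ofReal (1 / (1 + a * r) ^ 2) ≤ ENNReal.ofReal (1 / a) := by
  have hd : ∀ r ∈ uIcc (0 : ℝ) 1, HasDerivAt (fun r : ℝ => -(1 / a) * (1 + a * r)⁻¹)
      (1 / (1 + a * r) ^ 2) r := by
    intro r hr
    rw [uIcc_of_le zero_le_one] at hr
    have h1 : 1 + a * r ≠ 0 := by
      have := mul_nonneg ha.le hr.1
      linarith
    have h2 : HasDerivAt (fun r : ℝ => 1 + a * r) a r := by
      simpa using ((hasDerivAt_id r).const_mul a).const_add 1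
    have h3 := (h2.inv h1).const_mul (-(1 / a))
    have h4 : 1 / (1 + a * r) ^ 2 = -(1 / a) * (-a / (1 + a * r) ^ 2) := by
      field_simp
    rw [h4]
    exact h3
  have hc : ContinuousOn (fun r : ℝ => 1 / (1 + a * r) ^ 2) (Icc 0 1) := by
    apply ContinuousOn.div continuousOn_const (by fun_prop)
    intro r hr
    have h1 : 0 < 1 + a * r := by
      have := mul_nonneg ha.le hr.1
      linarith
    positivity
  have hi : IntervalIntegrable (fun r : ℝ => 1 / (1 + a * r) ^ 2) volume 0 1 := by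
    apply ContinuousOn.intervalIntegrable
    rwa [uIcc_of_le zero_le_one]
  have h1 := intervalIntegral.integral_eq_sub_of_hasDerivAt hd hi
  rw [intervalIntegral.integral_of_le zero_le_one] at h1
  rw [← ofReal_integral_eq_lintegral_ofReal]
  · apply ENNReal.ofReal_le_ofReal
    rw [h1]
    have h2 : 0 < 1 / a * (1 + a * 1)⁻¹ := by positivity
    simp only [mul_zero, add_zero, inv_one, mul_one] at h2 ⊢
    linarith
  · exact (intervalIntegrable_iff_integrableOn_Ioc_of_le zero_le_one).1 hi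
  · refine ae_of_all _ fun r => ?_
    simp only [Pi.zero_apply]
    positivity

/-- the `L²` norm in time of the remainder -/
lemma WW_time (hk : 2 ≤ k) (hA : Asym k c C) (hb : Adm b) {ρ : ℝ} (hρ : 0 < ρ) :
    ∫⁻ t, ‖WW k c b ρ t‖ₑ ^ 2 ≤ ENNReal.ofReal (C ^ 2 * ρ ^ (-(k : ℝ))) := by
  have hk' : (2 : ℝ) ≤ k := by exact_mod_cast hk
  have hC := hA.1
  unfold WW
  rw [timeL2 (eA_half hk hA hb hρ)]
  set D : ℝ := C ^ 2 * ρ ^ (-((k : ℝ) - 1)) with hD
  have hD0 : 0 ≤ D := mul_nonneg (by positivity) (Real.rpow_nonneg hρ.le _)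
  have h1 : ∀ u ∈ Ioc (0 : ℝ) 1, ENNReal.ofReal (1 / (2 * u)) * ‖eA k c b ρ u‖ₑ ^ 2 ≤
      ENNReal.ofReal D * ENNReal.ofReal (1 / (1 + ρ * u) ^ 2) := by
    intro u hu
    have hu0 := hu.1
    have h2 := eA_bd hk hA hb hρ hu
    rw [← ofReal_norm, ← ENNReal.ofReal_pow (norm_nonneg _), ← ENNReal.ofReal_mul (by positivity),
      ← ENNReal.ofReal_mul hD0]
    apply ENNReal.ofReal_le_ofReal
    have h3 : u ^ (((k : ℝ) - 1) / 2) ≤ Real.sqrt u := rp_half hk hu
    have h4 : 0 ≤ u ^ (((k : ℝ) - 1) / 2) := Real.rpow_nonneg hu0.le _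
    have h5 : 0 < 1 + ρ * u := by
      have := mul_pos hρ hu0
      linarith
    have h6 : ρ ^ (-((k : ℝ) - 1) / 2) ^ (1 : ℕ) * ρ ^ (-((k : ℝ) - 1) / 2) =
        ρ ^ (-((k : ℝ) - 1)) := by
      rw [pow_one, ← Real.rpow_add hρ]
      congr 1
      ring
    rw [pow_one] at h6
    have h7 : 0 ≤ ρ ^ (-((k : ℝ) - 1) / 2) := Real.rpow_nonneg hρ.le _
    calc 1 / (2 * u) * ‖eA k c b ρ u‖ ^ 2
        ≤ 1 / (2 * u) * (C * ρ ^ (-((k : ℝ) - 1) / 2) * (Real.sqrt u / (1 + u * ρ))) ^ 2 := by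
          gcongr
          refine h2.trans ?_
          have : 0 < 1 + u * ρ := by
            rw [mul_comm]
            exact h5
          gcongr
      _ = C ^ 2 * (ρ ^ (-((k : ℝ) - 1) / 2) * ρ ^ (-((k : ℝ) - 1) / 2)) *
          (1 / (2 * u) * Real.sqrt u ^ 2) * (1 / (1 + ρ * u) ^ 2) := by
          rw [mul_comm u ρ]
          field_simp
      _ = D * (1 / 2) * (1 / (1 + ρ * u) ^ 2) := by
          rw [h6, Real.sq_sqrt hu0.le, hD]
          field_simp
      _ ≤ D * 1 * (1 / (1 + ρ * u) ^ 2) := by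
          gcongr
          norm_num
      _ = _ := by ring
  calc ∫⁻ u in Ioc (0 : ℝ) 1, ENNReal.ofReal (1 / (2 * u)) * ‖eA k c b ρ u‖ₑ ^ 2
      ≤ ∫⁻ u in Ioc (0 : ℝ) 1, ENNReal.ofReal D * ENNReal.ofReal (1 / (1 + ρ * u) ^ 2) :=
        setLIntegral_mono' measurableSet_Ioc h1
    _ = ENNReal.ofReal D * ∫⁻ u in Ioc (0 : ℝ) 1, ENNReal.ofReal (1 / (1 + ρ * u) ^ 2) := by
        rw [lintegral_const_mul' _ _ ENNReal.ofReal_ne_top]
    _ ≤ ENNReal.ofReal D * ENNReal.ofReal (1 / ρ) := by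
        gcongr
        exact inv_sq_int ρ hρ
    _ = _ := by
        rw [← ENNReal.ofReal_mul hD0]
        congr 1
        rw [hD, one_div, ← Real.rpow_neg_one, mul_assoc, ← Real.rpow_add hρ]
        congr 2
        ring

/-- **the decomposition of the profile** -/
lemma VV_dec (hk : 2 ≤ k) (hA : Asym k c C) (hb : Adm b) {ρ : ℝ} (hρ : 0 < ρ) (t : ℝ) :
    VV k b ρ t = (((2 * Real.pi * ρ) ^ (-((k : ℝ) - 1) / 2) : ℝ) : ℂ) •
      (c • E1 (gA k b) ρ t + (starRingEnd ℂ) c • E1 (gA k b) (-ρ) t) + WW k c b ρ t := by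
  have hi : ∀ φ : ℝ → H, ∀ K : ℝ, Half K φ → Integrable fun r => ch (r ^ 2 * t) • φ r := by
    intro φ K hφ
    have h1 : Half K (fun r => ch (r ^ 2 * t) • φ r) := by
      refine ⟨?_, ?_, ?_⟩
      · refine StronglyMeasurable.smul (f := fun r : ℝ => ch (r ^ 2 * t)) (g := φ) ?_ hφ.meas
        exact (ch_cont.comp (by fun_prop : Continuous fun r : ℝ => r ^ 2 * t)).stronglyMeasurable
      · intro u hu
        rw [norm_smul, ch_norm, one_mul]
        exact hφ.bd u hu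
      · intro u hu
        rw [hφ.zero u hu, smul_zero]
    exact half_int h1
  have i1 := hi _ _ (gA_half hk hb ρ)
  have i2 := hi _ _ (gA_half hk hb (-ρ))
  have i3 := hi _ _ (eA_half hk hA hb hρ)
  rw [gA_E1, gA_E1]
  unfold VV WW
  have e1 : ∫ r, ch (r ^ 2 * t) • vA k b ρ r =
      ∫ r, ((((2 * Real.pi * ρ) ^ (-((k : ℝ) - 1) / 2) : ℝ) : ℂ) •
        (c • (ch (r ^ 2 * t) • (ch (r * ρ) • gA k b r)) +
          (starRingEnd ℂ) c • (ch (r ^ 2 * t) • (ch (r * -ρ) • gA k b r))) +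
        ch (r ^ 2 * t) • eA k c b ρ r) := by
    apply integral_congr_ae
    refine ae_of_all _ fun r => ?_
    simp only
    by_cases hr : r ∈ Ioc (0 : ℝ) 1
    · have hr0 := hr.1
      unfold vA gA eA er
      rw [indicator_of_mem hr, indicator_of_mem hr, indicator_of_mem hr]
      simp only [smul_smul, ← add_smul]
      congr 1
      have h1 : Pool.Agent.TH335.RF.mt c (2 * Real.pi * r * ρ) =
          c * ch (r * ρ) + (starRingEnd ℂ) c * ch (r * -ρ) := by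
        unfold Pool.Agent.TH335.RF.mt ch
        congr 3
        · push_cast
          ring
        · push_cast
          ring
      have h2 : (2 * Real.pi * r * ρ) ^ (-((k : ℝ) - 1) / 2) =
          (2 * Real.pi * ρ) ^ (-((k : ℝ) - 1) / 2) * r ^ (-((k : ℝ) - 1) / 2) := by
        rw [← Real.mul_rpow (by have := Real.pi_pos; positivity) hr0.le]
        congr 1
        ring
      have h3 : r ^ (k - 1) * r ^ (-((k : ℝ) - 1) / 2) = r ^ (((k : ℝ) - 1) / 2) := by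
        rw [← Real.rpow_natCast, ← Real.rpow_add hr0]
        congr 1
        rw [Nat.cast_sub (by omega)]
        push_cast
        ring
      rw [h1, h2, ← h3]
      push_cast
      ring
    · unfold vA gA eA
      rw [indicator_of_notMem hr, indicator_of_notMem hr, indicator_of_notMem hr]
      simp
  have j1 : Integrable fun r => c • (ch (r ^ 2 * t) • (ch (r * ρ) • gA k b r)) := i1.smul c
  have j2 : Integrable fun r => (starRingEnd ℂ) c • (ch (r ^ 2 * t) • (ch (r * -ρ) • gA k b r)) :=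
    i2.smul _
  have j3 : Integrable fun r => (((2 * Real.pi * ρ) ^ (-((k : ℝ) - 1) / 2) : ℝ) : ℂ) •
        (c • (ch (r ^ 2 * t) • (ch (r * ρ) • gA k b r)) +
          (starRingEnd ℂ) c • (ch (r ^ 2 * t) • (ch (r * -ρ) • gA k b r))) := (j1.add j2).smul _
  rw [e1, integral_add j3 i3, integral_smul, integral_add j1 j2, integral_smul, integral_smul]

end

end Pool.Agent.X146.RP
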