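import Mathlib
import Pool.Agent.X146.RP.G
import Pool.Agent.X146.RP.E
set_option autoImplicit false
set_option linter.unusedSectionVars false

/-! The mixed norm estimate for the profile of the extension of a radial function. -/

namespace Pool.Agent.X146.RP

open MeasureTheory Set Complex
open scoped ENNReal NNReal
open Pool.Agent.TH277.HT
open Pool.Agent.H438R2.BR (Phi Phi_le Phi_meas)

/-- powers of bounded functions -/
lemma pow_le_of_bd {α : Type*} [MeasurableSpace α] (μ : Measure α) (F : α → ℝ≥0∞) (A B : ℝ≥0∞)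
    (s : ℝ) (hs : 1 ≤ s) (hF : Measurable F) (h1 : ∀ t, F t ≤ A) (h2 : ∫⁻ t, F t ∂μ ≤ B) :
    ∫⁻ t, F t ^ s ∂μ ≤ A ^ (s - 1) * B := by
  calc ∫⁻ t, F t ^ s ∂μ ≤ ∫⁻ t, A ^ (s - 1) * F t ∂μ := by
        apply lintegral_mono
        intro t
        simp only
        calc F t ^ s = F t ^ ((s - 1) + 1) := by rw [sub_add_cancel]
          _ = F t ^ (s - 1) * F t := by
              rw [ENNReal.rpow_add_of_nonneg _ _ (by linarith) zero_le_one, ENNReal.rpow_one]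
          _ ≤ A ^ (s - 1) * F t := by
              gcongr
              exact h1 t
    _ = A ^ (s - 1) * ∫⁻ t, F t ∂μ := lintegral_const_mul _ hF
    _ ≤ _ := by gcongr

/-- the `L^Q` norm, iterated -/
lemma zyg' (Q : ℝ) (hQ : 4 < Q) : ∃ C : ℝ≥0, ∀ (H : Type) [NormedAddCommGroup H]
    [InnerProductSpace ℂ H] [CompleteSpace H] (a : ℝ → H), Adm a →
    ∫⁻ t, ∫⁻ x, ‖E1 a x t‖ₑ ^ Q ≤ C := by
  obtain ⟨C, hC⟩ := zyg (Q / 2) (by linarith)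
  refine ⟨C, ?_⟩
  intro H _ _ _ a ha
  have h1 : ∫⁻ t, ∫⁻ x, ‖E1 a x t‖ₑ ^ Q = ∫⁻ p : ℝ × ℝ, ‖E1 a p.1 p.2‖ₑ ^ Q := by
    rw [Measure.volume_eq_prod, lintegral_prod_symm _
      ((E1_meas ha).enorm.pow_const Q).aemeasurable]
  rw [h1]
  refine le_trans (le_of_eq ?_) (hC H a ha)
  apply lintegral_congr
  intro p
  rw [← ofReal_norm, ENNReal.ofReal_rpow_of_nonneg (norm_nonneg _) (by linarith)]
  congr 1
  rw [← Real.rpow_natCast, ← Real.rpow_mul (norm_nonneg _)]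
  congr 1
  push_cast
  ring

lemma Ioi_rpow (a : ℝ) (ha : a < -1) :
    ∫⁻ ρ in Ioi (1 : ℝ), ENNReal.ofReal (ρ ^ a) = ENNReal.ofReal (-1 / (a + 1)) := by
  rw [← ofReal_integral_eq_lintegral_ofReal (integrableOn_Ioi_rpow_of_lt ha one_pos)]
  · rw [integral_Ioi_rpow_of_lt ha one_pos, Real.one_rpow]
  · refine (ae_restrict_iff' measurableSet_Ioi).2 (ae_of_all _ fun ρ hρ => ?_)
    have : (1 : ℝ) < ρ := hρ
    simp only [Pi.zero_apply]
    positivity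

section
variable {H : Type} [NormedAddCommGroup H] [InnerProductSpace ℂ H] [CompleteSpace H]
variable {k : ℕ} {c : ℂ} {C : ℝ} {b : ℝ → H}

/-- the remainder: sup bound of the weighted norm in space -/
lemma Je_sup (hk : 2 ≤ k) (hA : Asym k c C) (hb : Adm b) (q : ℝ) (hq : 2 < q) (t : ℝ) :
    ∫⁻ ρ in Ioi (1 : ℝ), ENNReal.ofReal (ρ ^ (k - 1)) * ‖WW k c b ρ t‖ₑ ^ q ≤
      ENNReal.ofReal ((2 * C) ^ q) := by
  have hC := hA.1
  have h1 : ∀ ρ ∈ Ioi (1 : ℝ), ENNReal.ofReal (ρ ^ (k - 1)) * ‖WW k c b ρ t‖ₑ ^ q ≤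
      ENNReal.ofReal ((2 * C) ^ q) * ENNReal.ofReal (ρ ^ (-2 : ℝ)) := by
    intro ρ hρ
    have hρ1 : (1 : ℝ) < ρ := hρ
    have hρ0 : 0 < ρ := by linarith
    have h2 := WW_bd hk hA hb hρ0 t
    rw [← ofReal_norm, ENNReal.ofReal_rpow_of_nonneg (norm_nonneg _) (by linarith),
      ← ENNReal.ofReal_mul (by positivity), ← ENNReal.ofReal_mul (by positivity)]
    apply ENNReal.ofReal_le_ofReal
    calc ρ ^ (k - 1) * ‖WW k c b ρ t‖ ^ q
        ≤ ρ ^ (k - 1) * (2 * C * ρ ^ (-((k : ℝ) + 1) / 2)) ^ q := by gcongr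
      _ = (2 * C) ^ q * (ρ ^ (k - 1) * (ρ ^ (-((k : ℝ) + 1) / 2)) ^ q) := by
          rw [Real.mul_rpow (by positivity) (Real.rpow_nonneg hρ0.le _)]
          ring
      _ ≤ (2 * C) ^ q * ρ ^ (-2 : ℝ) := by
          gcongr
          rw [← Real.rpow_natCast, ← Real.rpow_mul hρ0.le, ← Real.rpow_add hρ0]
          apply Real.rpow_le_rpow_of_exponent_le hρ1.le
          rw [Nat.cast_sub (by omega)]
          push_cast
          have : (2 : ℝ) ≤ k := by exact_mod_cast hk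
          nlinarith
  calc ∫⁻ ρ in Ioi (1 : ℝ), ENNReal.ofReal (ρ ^ (k - 1)) * ‖WW k c b ρ t‖ₑ ^ q
      ≤ ∫⁻ ρ in Ioi (1 : ℝ), ENNReal.ofReal ((2 * C) ^ q) * ENNReal.ofReal (ρ ^ (-2 : ℝ)) :=
        setLIntegral_mono' measurableSet_Ioi h1
    _ = ENNReal.ofReal ((2 * C) ^ q) * ENNReal.ofReal (-1 / (-2 + 1)) := by
        rw [lintegral_const_mul' _ _ ENNReal.ofReal_ne_top, Ioi_rpow _ (by norm_num)]
    _ = _ := by norm_num

/-- the remainder: integral bound -/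
lemma Je_int (hk : 2 ≤ k) (hA : Asym k c C) (hb : Adm b) (q : ℝ) (hq : 2 < q) :
    ∫⁻ t, ∫⁻ ρ in Ioi (1 : ℝ), ENNReal.ofReal (ρ ^ (k - 1)) * ‖WW k c b ρ t‖ₑ ^ q ≤
      ENNReal.ofReal ((2 * C) ^ (q - 2) * C ^ 2 * (2 / (((k : ℝ) + 1) * (q - 2)))) := by
  have hC := hA.1
  have hm : Measurable fun p : ℝ × ℝ => ENNReal.ofReal (p.2 ^ (k - 1)) *
      ‖WW k c b p.2 p.1‖ₑ ^ q := by
    have h2 := ((WW_meas (k := k) (c := c) hb).enorm.pow_const q).comp measurable_swap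
    simp only [Function.comp_def, Prod.fst_swap, Prod.snd_swap] at h2
    exact Measurable.mul (by fun_prop) h2
  rw [lintegral_lintegral_swap hm.aemeasurable]
  have h1 : ∀ ρ ∈ Ioi (1 : ℝ), ∫⁻ t, ENNReal.ofReal (ρ ^ (k - 1)) * ‖WW k c b ρ t‖ₑ ^ q ≤
      ENNReal.ofReal ((2 * C) ^ (q - 2) * C ^ 2) *
        ENNReal.ofReal (ρ ^ (-1 - ((k : ℝ) + 1) * (q - 2) / 2)) := by
    intro ρ hρ
    have hρ1 : (1 : ℝ) < ρ := hρ
    have hρ0 : 0 < ρ := by linarith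
    have h2 : ∀ t, ‖WW k c b ρ t‖ₑ ^ q ≤
        ENNReal.ofReal ((2 * C * ρ ^ (-((k : ℝ) + 1) / 2)) ^ (q - 2)) * ‖WW k c b ρ t‖ₑ ^ 2 := by
      intro t
      have h3 := WW_bd hk hA hb hρ0 t
      calc ‖WW k c b ρ t‖ₑ ^ q = ‖WW k c b ρ t‖ₑ ^ ((q - 2) + 2) := by rw [sub_add_cancel]
        _ = ‖WW k c b ρ t‖ₑ ^ (q - 2) * ‖WW k c b ρ t‖ₑ ^ 2 := by
            rw [ENNReal.rpow_add_of_nonneg _ _ (by linarith) two_pos.le]
            congr 1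
            norm_cast
        _ ≤ _ := by
            gcongr
            rw [← ofReal_norm, ENNReal.ofReal_rpow_of_nonneg (norm_nonneg _) (by linarith)]
            gcongr
    have hWm : Measurable fun t => ‖WW k c b ρ t‖ₑ ^ 2 := by
      have h2 := ((WW_meas (k := k) (c := c) hb).enorm.pow_const 2).comp
        (by fun_prop : Measurable fun t : ℝ => ((ρ, t) : ℝ × ℝ))
      simp only [Function.comp_def] at h2
      exact h2
    calc ∫⁻ t, ENNReal.ofReal (ρ ^ (k - 1)) * ‖WW k c b ρ t‖ₑ ^ q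
        = ENNReal.ofReal (ρ ^ (k - 1)) * ∫⁻ t, ‖WW k c b ρ t‖ₑ ^ q := by
          rw [lintegral_const_mul' _ _ ENNReal.ofReal_ne_top]
      _ ≤ ENNReal.ofReal (ρ ^ (k - 1)) * ∫⁻ t,
          ENNReal.ofReal ((2 * C * ρ ^ (-((k : ℝ) + 1) / 2)) ^ (q - 2)) *
            ‖WW k c b ρ t‖ₑ ^ 2 := by
          gcongr with t
          exact h2 t
      _ = ENNReal.ofReal (ρ ^ (k - 1)) *
          (ENNReal.ofReal ((2 * C * ρ ^ (-((k : ℝ) + 1) / 2)) ^ (q - 2)) *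
            ∫⁻ t, ‖WW k c b ρ t‖ₑ ^ 2) := by
          rw [lintegral_const_mul' _ _ ENNReal.ofReal_ne_top]
      _ ≤ ENNReal.ofReal (ρ ^ (k - 1)) *
          (ENNReal.ofReal ((2 * C * ρ ^ (-((k : ℝ) + 1) / 2)) ^ (q - 2)) *
            ENNReal.ofReal (C ^ 2 * ρ ^ (-(k : ℝ)))) := by
          gcongr
          exact WW_time hk hA hb hρ0
      _ = _ := by
          rw [← ENNReal.ofReal_mul (by positivity), ← ENNReal.ofReal_mul (by positivity),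
            ← ENNReal.ofReal_mul (by positivity)]
          congr 1
          rw [Real.mul_rpow (by positivity) (Real.rpow_nonneg hρ0.le _), ← Real.rpow_mul hρ0.le,
            ← Real.rpow_natCast ρ (k - 1)]
          have e1 : ρ ^ (((k - 1 : ℕ)) : ℝ) * ρ ^ (-((k : ℝ) + 1) / 2 * (q - 2)) *
              ρ ^ (-(k : ℝ)) = ρ ^ (-1 - ((k : ℝ) + 1) * (q - 2) / 2) := by
            rw [← Real.rpow_add hρ0, ← Real.rpow_add hρ0]
            congr 1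
            rw [Nat.cast_sub (by omega)]
            push_cast
            ring
          rw [← e1]
          ring
  have hk' : (2 : ℝ) ≤ k := by exact_mod_cast hk
  have hpos : 0 < ((k : ℝ) + 1) * (q - 2) := mul_pos (by linarith) (by linarith)
  calc ∫⁻ ρ in Ioi (1 : ℝ), ∫⁻ t, ENNReal.ofReal (ρ ^ (k - 1)) * ‖WW k c b ρ t‖ₑ ^ q
      ≤ ∫⁻ ρ in Ioi (1 : ℝ), ENNReal.ofReal ((2 * C) ^ (q - 2) * C ^ 2) *
        ENNReal.ofReal (ρ ^ (-1 - ((k : ℝ) + 1) * (q - 2) / 2)) :=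
        setLIntegral_mono' measurableSet_Ioi h1
    _ = ENNReal.ofReal ((2 * C) ^ (q - 2) * C ^ 2) *
        ENNReal.ofReal (-1 / (-1 - ((k : ℝ) + 1) * (q - 2) / 2 + 1)) := by
        rw [lintegral_const_mul' _ _ ENNReal.ofReal_ne_top, Ioi_rpow _ (by linarith)]
    _ = _ := by
        rw [← ENNReal.ofReal_mul (by positivity)]
        congr 2
        rw [show -1 - ((k : ℝ) + 1) * (q - 2) / 2 + 1 = -(((k : ℝ) + 1) * (q - 2) / 2) by ring,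
          neg_div_neg_eq, one_div_div]

/-- the pointwise bound of the profile for `ρ > 1` -/
lemma VV_pt (hk : 2 ≤ k) (hA : Asym k c C) (hb : Adm b) (q : ℝ) (hq : 2 < q) {ρ : ℝ}
    (hρ1 : 1 < ρ) (t : ℝ) :
    ENNReal.ofReal (ρ ^ (k - 1)) * ‖VV k b ρ t‖ₑ ^ q ≤
      (2 ^ q * (2 ^ q * ‖c‖ₑ ^ q)) * (ENNReal.ofReal (ρ ^ (-((k : ℝ) - 1) * (q - 2) / 2)) *
        ‖E1 (gA k b) ρ t‖ₑ ^ q) +
      ((2 ^ q * (2 ^ q * ‖c‖ₑ ^ q)) * (ENNReal.ofReal (ρ ^ (-((k : ℝ) - 1) * (q - 2) / 2)) *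
        ‖E1 (gA k b) (-ρ) t‖ₑ ^ q) +
      2 ^ q * (ENNReal.ofReal (ρ ^ (k - 1)) * ‖WW k c b ρ t‖ₑ ^ q)) := by
  have hρ0 : 0 < ρ := by linarith
  have hq0 : 0 ≤ q := by linarith
  have hk' : (2 : ℝ) ≤ k := by exact_mod_cast hk
  set X : ℝ≥0∞ := ‖E1 (gA k b) ρ t‖ₑ with hX
  set Y : ℝ≥0∞ := ‖E1 (gA k b) (-ρ) t‖ₑ with hY
  set Z : ℝ≥0∞ := ‖WW k c b ρ t‖ₑ with hZ
  set P : ℝ≥0∞ := ENNReal.ofReal (ρ ^ (-((k : ℝ) - 1) / 2)) with hP
  have h1 : ‖VV k b ρ t‖ₑ ≤ P * (‖c‖ₑ * (X + Y)) + Z := by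
    rw [VV_dec hk hA hb hρ0 t]
    refine (enorm_add_le _ _).trans ?_
    gcongr
    rw [enorm_smul]
    gcongr
    · rw [← ofReal_norm, Complex.norm_real, Real.norm_of_nonneg (Real.rpow_nonneg (by
        have := Real.pi_pos
        positivity) _)]
      apply ENNReal.ofReal_le_ofReal
      apply Real.rpow_le_rpow_of_nonpos hρ0 _ (by linarith)
      nlinarith [Real.pi_gt_three]
    · refine (enorm_add_le _ _).trans ?_
      rw [enorm_smul, enorm_smul, mul_add]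
      gcongr
      rw [← ofReal_norm, ← ofReal_norm, RCLike.norm_conj]
  have h2 : ENNReal.ofReal (ρ ^ (k - 1)) * P ^ q =
      ENNReal.ofReal (ρ ^ (-((k : ℝ) - 1) * (q - 2) / 2)) := by
    rw [hP, ENNReal.ofReal_rpow_of_nonneg (Real.rpow_nonneg hρ0.le _) hq0,
      ← ENNReal.ofReal_mul (by positivity)]
    congr 1
    rw [← Real.rpow_mul hρ0.le, ← Real.rpow_natCast, ← Real.rpow_add hρ0]
    congr 1
    rw [Nat.cast_sub (by omega)]
    push_cast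
    ring
  calc ENNReal.ofReal (ρ ^ (k - 1)) * ‖VV k b ρ t‖ₑ ^ q
      ≤ ENNReal.ofReal (ρ ^ (k - 1)) * (P * (‖c‖ₑ * (X + Y)) + Z) ^ q := by gcongr
    _ ≤ ENNReal.ofReal (ρ ^ (k - 1)) * (2 ^ q * ((P * (‖c‖ₑ * (X + Y))) ^ q + Z ^ q)) := by
        gcongr
        exact add_rpow_le _ _ q hq0
    _ = ENNReal.ofReal (ρ ^ (k - 1)) * (2 ^ q * (P ^ q * (‖c‖ₑ ^ q * (X + Y) ^ q) + Z ^ q)) := by
        rw [ENNReal.mul_rpow_of_nonneg _ _ hq0, ENNReal.mul_rpow_of_nonneg _ _ hq0]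
    _ ≤ ENNReal.ofReal (ρ ^ (k - 1)) *
        (2 ^ q * (P ^ q * (‖c‖ₑ ^ q * (2 ^ q * (X ^ q + Y ^ q))) + Z ^ q)) := by
        gcongr
        exact add_rpow_le _ _ q hq0
    _ = (2 ^ q * (2 ^ q * ‖c‖ₑ ^ q)) * ((ENNReal.ofReal (ρ ^ (k - 1)) * P ^ q) * X ^ q) +
        ((2 ^ q * (2 ^ q * ‖c‖ₑ ^ q)) * ((ENNReal.ofReal (ρ ^ (k - 1)) * P ^ q) * Y ^ q) +
        2 ^ q * (ENNReal.ofReal (ρ ^ (k - 1)) * Z ^ q)) := by ring
    _ = _ := by rw [h2]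

end

/-- the constants of the three parts, uniform in the Hilbert space -/
theorem prof (n k : ℕ) (hk : 2 ≤ k) (hkn : k ≤ n) (q : ℝ) (hq : 2 * ((n : ℝ) + 1) / n < q) :
    ∃ K : ℝ≥0, ∀ (H : Type) [NormedAddCommGroup H] [InnerProductSpace ℂ H] [CompleteSpace H]
      (b : ℝ → H), Adm b →
      ∫⁻ t, (∫⁻ ρ in Ioi (0 : ℝ), ENNReal.ofReal (ρ ^ (k - 1)) * ‖VV k b ρ t‖ₑ ^ q) ^
        ((n : ℝ) / k) ≤ K := by
  have hk2 : (2 : ℝ) ≤ k := by exact_mod_cast hk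
  have hkn' : (k : ℝ) ≤ n := by exact_mod_cast hkn
  have hk0 : (0 : ℝ) < k := by linarith
  have hn0 : (0 : ℝ) < n := by linarith
  have hq2 : 2 < n * (q - 2) := by
    rw [div_lt_iff₀ hn0] at hq
    linarith
  have hq0 : 2 < q := by
    by_contra h
    have : n * (q - 2) ≤ 0 := mul_nonpos_of_nonneg_of_nonpos hn0.le (by linarith)
    linarith
  obtain ⟨c, C, hA⟩ := exists_asym k hk
  have hC := hA.1
  obtain ⟨CQ, hCQ⟩ := zyg' (2 + n * (q - 2)) (by linarith)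
  obtain ⟨K1, hK1⟩ := weighted n k hk hkn q hq 2 1 CQ
  set s : ℝ := (n : ℝ) / k with hs
  have hs1 : 1 ≤ s := by
    rw [hs, le_div_iff₀ hk0]
    linarith
  have hs0 : 0 ≤ s := by linarith
  set L1 : ℝ≥0∞ := 2 ^ q * (2 ^ q * ‖c‖ₑ ^ q) with hL1
  have hL1f : L1 ≠ ∞ := by
    rw [hL1]
    apply ENNReal.mul_ne_top (ENNReal.rpow_ne_top_of_nonneg (by linarith) (by norm_num))
    apply ENNReal.mul_ne_top (ENNReal.rpow_ne_top_of_nonneg (by linarith) (by norm_num))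
    exact ENNReal.rpow_ne_top_of_nonneg (by linarith) enorm_ne_top
  -- the constants
  set P0 : ℝ≥0∞ := ENNReal.ofReal (Real.pi ^ (q - 2)) with hP0
  set R0 : ℝ≥0∞ := (P0 * ENNReal.ofReal (Real.pi ^ 2)) ^ (s - 1) * (P0 * ENNReal.ofReal (Real.pi ^ 2))
    with hR0
  set R2 : ℝ≥0∞ := ENNReal.ofReal ((2 * C) ^ q) ^ (s - 1) *
    ENNReal.ofReal ((2 * C) ^ (q - 2) * C ^ 2 * (2 / (((k : ℝ) + 1) * (q - 2)))) with hR2
  set T : ℝ≥0∞ := 2 ^ s * (R0 + 2 ^ s * (L1 ^ s * K1 + 2 ^ s * (L1 ^ s * K1 +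
    (2 ^ q) ^ s * R2))) with hT
  have h2s : (2 : ℝ≥0∞) ^ s ≠ ∞ := ENNReal.rpow_ne_top_of_nonneg hs0 (by norm_num)
  have hR0f : R0 ≠ ∞ := by
    rw [hR0]
    apply ENNReal.mul_ne_top
    · exact ENNReal.rpow_ne_top_of_nonneg (by linarith)
        (ENNReal.mul_ne_top ENNReal.ofReal_ne_top ENNReal.ofReal_ne_top)
    · exact ENNReal.mul_ne_top ENNReal.ofReal_ne_top ENNReal.ofReal_ne_top
  have hR2f : R2 ≠ ∞ := by
    rw [hR2]
    apply ENNReal.mul_ne_top _ ENNReal.ofReal_ne_top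
    exact ENNReal.rpow_ne_top_of_nonneg (by linarith) ENNReal.ofReal_ne_top
  have hL1s : L1 ^ s * K1 ≠ ∞ :=
    ENNReal.mul_ne_top (ENNReal.rpow_ne_top_of_nonneg hs0 hL1f) ENNReal.coe_ne_top
  have h2qs : ((2 : ℝ≥0∞) ^ q) ^ s ≠ ∞ :=
    ENNReal.rpow_ne_top_of_nonneg hs0 (ENNReal.rpow_ne_top_of_nonneg (by linarith) (by norm_num))
  have hTf : T ≠ ∞ := by
    rw [hT]
    refine ENNReal.mul_ne_top h2s (ENNReal.add_ne_top.2 ⟨hR0f, ENNReal.mul_ne_top h2s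
      (ENNReal.add_ne_top.2 ⟨hL1s, ENNReal.mul_ne_top h2s (ENNReal.add_ne_top.2 ⟨hL1s,
      ENNReal.mul_ne_top h2qs hR2f⟩)⟩)⟩)
  refine ⟨T.toNNReal, ?_⟩
  rw [ENNReal.coe_toNNReal hTf]
  intro H _ _ _ b hb
  have hE := E1_meas (gA_adm hk hb)
  -- measurability
  have mV : Measurable fun p : ℝ × ℝ => ENNReal.ofReal (p.1 ^ (k - 1)) * ‖VV k b p.1 p.2‖ₑ ^ q :=
    Measurable.mul (by fun_prop) ((VV_meas hb).enorm.pow_const q)
  have mW : Measurable fun p : ℝ × ℝ => ENNReal.ofReal (p.1 ^ (k - 1)) *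
      ‖WW k c b p.1 p.2‖ₑ ^ q :=
    Measurable.mul (by fun_prop) ((WW_meas hb).enorm.pow_const q)
  have mE1 : Measurable fun p : ℝ × ℝ => ‖E1 (gA k b) p.1 p.2‖ₑ := hE.enorm
  have mE2 : Measurable fun p : ℝ × ℝ => ‖E1 (gA k b) (-p.1) p.2‖ₑ := by
    have h2 := mE1.comp (by fun_prop : Measurable fun p : ℝ × ℝ => ((-p.1, p.2) : ℝ × ℝ))
    simp only [Function.comp_def] at h2
    exact h2
  set w : ℝ → ℝ≥0∞ := fun ρ => ENNReal.ofReal (ρ ^ (-((k : ℝ) - 1) * (q - 2) / 2)) with hw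
  have mw : Measurable w := by
    rw [hw]
    fun_prop
  set J0 : ℝ → ℝ≥0∞ := fun t => ∫⁻ ρ in Ioc (0 : ℝ) 1,
    ENNReal.ofReal (ρ ^ (k - 1)) * ‖VV k b ρ t‖ₑ ^ q with hJ0
  set Jp : ℝ → ℝ≥0∞ := fun t => ∫⁻ ρ in Ioi (1 : ℝ), w ρ * ‖E1 (gA k b) ρ t‖ₑ ^ q with hJp
  set Jm : ℝ → ℝ≥0∞ := fun t => ∫⁻ ρ in Ioi (1 : ℝ), w ρ * ‖E1 (gA k b) (-ρ) t‖ₑ ^ q with hJm
  set Je : ℝ → ℝ≥0∞ := fun t => ∫⁻ ρ in Ioi (1 : ℝ),
    ENNReal.ofReal (ρ ^ (k - 1)) * ‖WW k c b ρ t‖ₑ ^ q with hJe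
  have mJ0 : Measurable J0 := mV.lintegral_prod_left'
  have mJe : Measurable Je := mW.lintegral_prod_left'
  have mJp : Measurable Jp := by
    have h2 : Measurable fun p : ℝ × ℝ => w p.1 * ‖E1 (gA k b) p.1 p.2‖ₑ ^ q :=
      (mw.comp measurable_fst).mul (mE1.pow_const q)
    exact h2.lintegral_prod_left'
  have mJm : Measurable Jm := by
    have h2 : Measurable fun p : ℝ × ℝ => w p.1 * ‖E1 (gA k b) (-p.1) p.2‖ₑ ^ q :=
      (mw.comp measurable_fst).mul (mE2.pow_const q)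
    exact h2.lintegral_prod_left'
  -- the splitting
  have hsplit : ∀ t, (∫⁻ ρ in Ioi (0 : ℝ), ENNReal.ofReal (ρ ^ (k - 1)) * ‖VV k b ρ t‖ₑ ^ q) ≤
      J0 t + (L1 * Jp t + (L1 * Jm t + 2 ^ q * Je t)) := by
    intro t
    have hu : Ioi (0 : ℝ) = Ioc 0 1 ∪ Ioi 1 := (Ioc_union_Ioi_eq_Ioi zero_le_one).symm
    rw [hu]
    refine (lintegral_union_le _ _ _).trans ?_
    gcongr
    have m1 : Measurable fun ρ : ℝ => ‖E1 (gA k b) ρ t‖ₑ := by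
      have h2 := mE1.comp (by fun_prop : Measurable fun ρ : ℝ => ((ρ, t) : ℝ × ℝ))
      simp only [Function.comp_def] at h2
      exact h2
    have m2 : Measurable fun ρ : ℝ => ‖E1 (gA k b) (-ρ) t‖ₑ := by
      have h2 := mE2.comp (by fun_prop : Measurable fun ρ : ℝ => ((ρ, t) : ℝ × ℝ))
      simp only [Function.comp_def] at h2
      exact h2
    calc ∫⁻ ρ in Ioi (1 : ℝ), ENNReal.ofReal (ρ ^ (k - 1)) * ‖VV k b ρ t‖ₑ ^ q
        ≤ ∫⁻ ρ in Ioi (1 : ℝ), (L1 * (w ρ * ‖E1 (gA k b) ρ t‖ₑ ^ q) +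
          (L1 * (w ρ * ‖E1 (gA k b) (-ρ) t‖ₑ ^ q) +
          2 ^ q * (ENNReal.ofReal (ρ ^ (k - 1)) * ‖WW k c b ρ t‖ₑ ^ q))) :=
          setLIntegral_mono' measurableSet_Ioi fun ρ hρ => VV_pt hk hA hb q hq0 hρ t
      _ = L1 * Jp t + (L1 * Jm t + 2 ^ q * Je t) := by
          have n1 : Measurable fun ρ => L1 * (w ρ * ‖E1 (gA k b) ρ t‖ₑ ^ q) :=
            (mw.mul (m1.pow_const q)).const_mul _
          have n2 : Measurable fun ρ => L1 * (w ρ * ‖E1 (gA k b) (-ρ) t‖ₑ ^ q) :=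
            (mw.mul (m2.pow_const q)).const_mul _
          rw [lintegral_add_left n1, lintegral_add_left n2, lintegral_const_mul' _ _ hL1f,
            lintegral_const_mul' _ _ hL1f, lintegral_const_mul' _ _
              (ENNReal.rpow_ne_top_of_nonneg (by linarith) (by norm_num))]
  -- the four bounds
  have b0 : ∫⁻ t, J0 t ^ s ≤ R0 := by
    have h1 : ∀ t, J0 t ≤ P0 * ∫⁻ ρ in Ioc (0 : ℝ) 1, ‖VV k b ρ t‖ₑ ^ 2 := by
      intro t
      rw [hJ0]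
      simp only
      rw [← lintegral_const_mul' _ _ ENNReal.ofReal_ne_top]
      apply setLIntegral_mono' measurableSet_Ioc
      intro ρ hρ
      have h2 : ENNReal.ofReal (ρ ^ (k - 1)) ≤ 1 :=
        ENNReal.ofReal_le_one.2 (pow_le_one₀ hρ.1.le hρ.2)
      have h3 := VV_bd hk hb ρ t
      calc ENNReal.ofReal (ρ ^ (k - 1)) * ‖VV k b ρ t‖ₑ ^ q ≤ 1 * ‖VV k b ρ t‖ₑ ^ ((q - 2) + 2) := by
            rw [sub_add_cancel]
            gcongr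
        _ = ‖VV k b ρ t‖ₑ ^ (q - 2) * ‖VV k b ρ t‖ₑ ^ 2 := by
            rw [one_mul, ENNReal.rpow_add_of_nonneg _ _ (by linarith) two_pos.le]
            congr 1
            norm_cast
        _ ≤ P0 * ‖VV k b ρ t‖ₑ ^ 2 := by
            gcongr
            rw [hP0, ← ofReal_norm, ENNReal.ofReal_rpow_of_nonneg (norm_nonneg _) (by linarith)]
            gcongr
    have mX : Measurable fun p : ℝ × ℝ => ‖VV k b p.1 p.2‖ₑ ^ 2 := (VV_meas hb).enorm.pow_const 2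
    have h2 : ∀ t, J0 t ≤ P0 * ENNReal.ofReal (Real.pi ^ 2) := by
      intro t
      refine (h1 t).trans ?_
      gcongr
      apply lint_le
      intro ρ _
      rw [← ofReal_norm, ← ENNReal.ofReal_pow (norm_nonneg _)]
      gcongr
      exact VV_bd hk hb ρ t
    have h3 : ∫⁻ t, J0 t ≤ P0 * ENNReal.ofReal (Real.pi ^ 2) := by
      calc ∫⁻ t, J0 t ≤ ∫⁻ t, P0 * ∫⁻ ρ in Ioc (0 : ℝ) 1, ‖VV k b ρ t‖ₑ ^ 2 := lintegral_mono h1
        _ = P0 * ∫⁻ t, ∫⁻ ρ in Ioc (0 : ℝ) 1, ‖VV k b ρ t‖ₑ ^ 2 := by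
            rw [lintegral_const_mul' _ _ ENNReal.ofReal_ne_top]
        _ = P0 * ∫⁻ ρ in Ioc (0 : ℝ) 1, ∫⁻ t, ‖VV k b ρ t‖ₑ ^ 2 := by
            rw [lintegral_lintegral_swap]
            exact (mX.comp measurable_swap).aemeasurable
        _ ≤ _ := by
            gcongr
            apply lint_le
            intro ρ _
            exact VV_time hk hb ρ
    exact pow_le_of_bd volume J0 _ _ s hs1 mJ0 h2 h3
  have b1 : ∫⁻ t, Jp t ^ s ≤ K1 := by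
    apply hK1 (fun ρ t => ‖E1 (gA k b) ρ t‖ₑ) mE1
    · intro t
      exact E1_planch (gA_adm hk hb) t
    · intro ρ
      exact main_time hk hb ρ
    · exact hCQ H _ (gA_adm hk hb)
  have b2 : ∫⁻ t, Jm t ^ s ≤ K1 := by
    apply hK1 (fun ρ t => ‖E1 (gA k b) (-ρ) t‖ₑ) mE2
    · intro t
      rw [lintegral_neg_eq_self (fun ρ => ‖E1 (gA k b) ρ t‖ₑ ^ 2)]
      exact E1_planch (gA_adm hk hb) t
    · intro ρ
      exact main_time hk hb (-ρ)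
    · have h2 : ∀ t, ∫⁻ ρ, ‖E1 (gA k b) (-ρ) t‖ₑ ^ (2 + n * (q - 2)) =
          ∫⁻ ρ, ‖E1 (gA k b) ρ t‖ₑ ^ (2 + n * (q - 2)) := fun t =>
        lintegral_neg_eq_self (fun ρ => ‖E1 (gA k b) ρ t‖ₑ ^ (2 + n * (q - 2)))
      simp only [h2]
      exact hCQ H _ (gA_adm hk hb)
  have b3 : ∫⁻ t, Je t ^ s ≤ R2 :=
    pow_le_of_bd volume Je _ _ s hs1 mJe (fun t => Je_sup hk hA hb q hq0 t)
      (Je_int hk hA hb q hq0)
  calc ∫⁻ t, (∫⁻ ρ in Ioi (0 : ℝ), ENNReal.ofReal (ρ ^ (k - 1)) * ‖VV k b ρ t‖ₑ ^ q) ^ s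
      ≤ ∫⁻ t, 2 ^ s * (J0 t ^ s + 2 ^ s * (L1 ^ s * Jp t ^ s + 2 ^ s * (L1 ^ s * Jm t ^ s +
        (2 ^ q) ^ s * Je t ^ s))) := by
        apply lintegral_mono
        intro t
        simp only
        calc _ ≤ (J0 t + (L1 * Jp t + (L1 * Jm t + 2 ^ q * Je t))) ^ s := by
              gcongr
              exact hsplit t
          _ ≤ 2 ^ s * (J0 t ^ s + (L1 * Jp t + (L1 * Jm t + 2 ^ q * Je t)) ^ s) :=
              add_rpow_le _ _ s hs0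
          _ ≤ 2 ^ s * (J0 t ^ s + 2 ^ s * ((L1 * Jp t) ^ s +
              (L1 * Jm t + 2 ^ q * Je t) ^ s)) := by
              gcongr
              exact add_rpow_le _ _ s hs0
          _ ≤ 2 ^ s * (J0 t ^ s + 2 ^ s * ((L1 * Jp t) ^ s + 2 ^ s * ((L1 * Jm t) ^ s +
              (2 ^ q * Je t) ^ s))) := by
              gcongr
              exact add_rpow_le _ _ s hs0
          _ = _ := by
              rw [ENNReal.mul_rpow_of_nonneg L1 (Jp t) hs0,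
                ENNReal.mul_rpow_of_nonneg L1 (Jm t) hs0,
                ENNReal.mul_rpow_of_nonneg (2 ^ q) (Je t) hs0]
    _ = 2 ^ s * (∫⁻ t, J0 t ^ s + 2 ^ s * (L1 ^ s * Jp t ^ s + 2 ^ s * (L1 ^ s * Jm t ^ s +
        (2 ^ q) ^ s * Je t ^ s))) := by
        rw [lintegral_const_mul' _ _ h2s]
    _ = 2 ^ s * ((∫⁻ t, J0 t ^ s) + 2 ^ s * (L1 ^ s * (∫⁻ t, Jp t ^ s) + 2 ^ s * (L1 ^ s *
        (∫⁻ t, Jm t ^ s) + (2 ^ q) ^ s * ∫⁻ t, Je t ^ s))) := by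
        have hL1s' : L1 ^ s ≠ ∞ := ENNReal.rpow_ne_top_of_nonneg hs0 hL1f
        rw [lintegral_add_left (mJ0.pow_const s), lintegral_const_mul' _ _ h2s,
          lintegral_add_left ((mJp.pow_const s).const_mul _), lintegral_const_mul' _ _ hL1s',
          lintegral_const_mul' _ _ h2s, lintegral_add_left ((mJm.pow_const s).const_mul _),
          lintegral_const_mul' _ _ hL1s', lintegral_const_mul' _ _ h2qs]
    _ ≤ T := by
        rw [hT]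
        gcongr

end Pool.Agent.X146.RP
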