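import Mathlib
import Pool.Agent.X146.RP.H
import Pool.Agent.H438R2.BR.T7
set_option autoImplicit false
set_option linter.unusedSectionVars false
set_option linter.style.haveILetI false

/-! The extension of a radial function of several variables with values in a Hilbert space. -/

namespace Pool.Agent.X146.RP

open MeasureTheory Set Complex
open scoped ENNReal NNReal RealInnerProductSpace
open Pool.Agent.TH277.HT
open Pool.Agent.H438R2.BR (Phi Phi_le Phi_meas sphere_ft)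
open Pool.Agent.H789R2.FR (E sg)
open Pool.Agent.H438R2.BR.T7 (nu polar_map)

section
variable {H : Type} [NormedAddCommGroup H] [InnerProductSpace ℂ H] [CompleteSpace H]

/-- vector valued polar coordinates -/
theorem polar_intH {n : ℕ} (hn : 0 < n) (F : E n → H) (hF : Integrable F) :
    ∫ x, F x = ∫ r in Ioi (0 : ℝ), ((r ^ (n - 1) : ℝ) : ℂ) • ∫ w, F (r • w) ∂(sg n) := by
  have hm : Measurable (fun q : E n × ℝ => q.2 • q.1) := measurable_snd.smul measurable_fst
  have h1 : Integrable (fun q : E n × ℝ => F (q.2 • q.1)) ((sg n).prod (nu n)) := by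
    rw [← polar_map hn] at hF
    exact (integrable_map_measure hF.aestronglyMeasurable hm.aemeasurable).mp hF
  have h2 : ∫ x, F x = ∫ q, F (q.2 • q.1) ∂((sg n).prod (nu n)) := by
    conv_lhs => rw [← polar_map hn]
    rw [integral_map hm.aemeasurable]
    rw [polar_map hn]
    exact hF.aestronglyMeasurable
  rw [h2, integral_prod_symm _ h1]
  unfold nu
  rw [integral_withDensity_eq_integral_toReal_smul (by fun_prop) (by simp)]
  refine setIntegral_congr_fun measurableSet_Ioi fun r hr => ?_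
  simp only
  rw [ENNReal.toReal_ofReal (pow_nonneg (le_of_lt hr) _), Complex.coe_smul]

/-- a radial function in the unit ball -/
noncomputable def rad (b : ℝ → H) {k : ℕ} (ξ : E k) : H := (Iic (1 : ℝ)).indicator b ‖ξ‖

/-- the extension of a radial function -/
noncomputable def UU (k : ℕ) (b : ℝ → H) (x : E k) (t : ℝ) : H :=
  ∫ ξ : E k, ch (⟪ξ, x⟫ + ‖ξ‖ ^ 2 * t) • rad b ξ

lemma rad_meas {b : ℝ → H} (hb : Adm b) {k : ℕ} : StronglyMeasurable (rad b : E k → H) := by
  unfold rad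
  exact (hb.meas.indicator measurableSet_Iic).comp_measurable measurable_norm

lemma rad_bd {b : ℝ → H} (hb : Adm b) {k : ℕ} (ξ : E k) : ‖rad b ξ‖ ≤ 1 := by
  unfold rad
  by_cases h : ‖ξ‖ ∈ Iic (1 : ℝ)
  · rw [indicator_of_mem h]
    exact hb.bd _
  · rw [indicator_of_notMem h, norm_zero]
    exact zero_le_one

lemma rad_zero {b : ℝ → H} {k : ℕ} (ξ : E k) (h : 1 < ‖ξ‖) : rad b ξ = 0 := by
  unfold rad
  exact indicator_of_notMem (by simpa using h) _

lemma rad_int {b : ℝ → H} (hb : Adm b) {k : ℕ} (φ : E k → ℂ) (hφ : Measurable φ)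
    (h1 : ∀ ξ, ‖φ ξ‖ ≤ 1) : Integrable fun ξ : E k => φ ξ • rad b ξ := by
  have h2 : IntegrableOn (fun ξ : E k => φ ξ • rad b ξ) (Metric.closedBall 0 1) := by
    apply IntegrableOn.of_bound (C := 1) measure_closedBall_lt_top
    · exact (hφ.stronglyMeasurable.smul (rad_meas hb)).aestronglyMeasurable
    · refine ae_of_all _ fun ξ => ?_
      rw [norm_smul]
      exact mul_le_one₀ (h1 ξ) (norm_nonneg _) (rad_bd hb ξ)
  rwa [integrableOn_iff_integrable_of_support_subset] at h2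
  intro ξ hξ
  by_contra hc
  apply hξ
  simp only
  rw [rad_zero ξ, smul_zero]
  simpa using hc

lemma sphere_ch (k : ℕ) (hk : 2 ≤ k) (x : E k) (r : ℝ) (hr : 0 < r) :
    ∫ w, ch (⟪r • w, x⟫) ∂(sg k) =
      ((sg (k - 1)).real univ : ℂ) * Phi k (2 * Real.pi * r * ‖x‖) := by
  have h := sphere_ft k hk (-((2 * Real.pi * r) • x))
  have hn : ‖-((2 * Real.pi * r) • x)‖ = 2 * Real.pi * r * ‖x‖ := by
    rw [norm_neg, norm_smul, Real.norm_of_nonneg (by have := Real.pi_pos; positivity)]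
  rw [hn] at h
  rw [← h]
  apply integral_congr_ae
  refine ae_of_all _ fun w => ?_
  simp only
  unfold ch
  congr 1
  rw [inner_neg_left, real_inner_smul_left, real_inner_smul_left, real_inner_comm]
  push_cast
  ring

theorem UU_eq {k : ℕ} (hk : 2 ≤ k) {b : ℝ → H} (hb : Adm b) (x : E k) (t : ℝ) :
    UU k b x t = ((sg (k - 1)).real univ : ℂ) • VV k b ‖x‖ t := by
  have hi : Integrable fun ξ : E k => ch (⟪ξ, x⟫ + ‖ξ‖ ^ 2 * t) • rad b ξ := by
    apply rad_int hb (fun ξ : E k => ch (⟪ξ, x⟫ + ‖ξ‖ ^ 2 * t))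
    · exact ch_cont.measurable.comp (by fun_prop)
    · exact fun ξ => (ch_norm _).le
  unfold UU VV
  rw [polar_intH (by omega) _ hi, ← integral_smul]
  rw [← integral_indicator measurableSet_Ioi]
  apply integral_congr_ae
  refine ae_of_all _ fun r => ?_
  simp only
  unfold vA
  by_cases hr : r ∈ Ioi (0 : ℝ)
  · rw [indicator_of_mem hr]
    have hr0 : 0 < r := hr
    have h1 : ∀ᵐ w ∂(sg k), ch (⟪r • w, x⟫ + ‖r • w‖ ^ 2 * t) • rad b (r • w) =
        ch (⟪r • w, x⟫) • (ch (r ^ 2 * t) • (Iic (1 : ℝ)).indicator b r) := by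
      filter_upwards [Pool.Agent.H789R2.FR.sg_ae k] with w hw
      have h2 : ‖r • w‖ = r := by rw [norm_smul, hw, mul_one, Real.norm_of_nonneg hr0.le]
      unfold rad
      rw [h2, ch_add, smul_smul]
    rw [integral_congr_ae h1, integral_smul_const, sphere_ch k hk x r hr0]
    by_cases h3 : r ≤ 1
    · rw [indicator_of_mem (show r ∈ Iic (1 : ℝ) from h3),
        indicator_of_mem (show r ∈ Ioc (0 : ℝ) 1 from ⟨hr0, h3⟩)]
      simp only [smul_smul]
      congr 1
      ring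
    · rw [indicator_of_notMem (show r ∉ Iic (1 : ℝ) from h3),
        indicator_of_notMem (show r ∉ Ioc (0 : ℝ) 1 from fun h => h3 h.2)]
      simp
  · rw [indicator_of_notMem hr, indicator_of_notMem (show r ∉ Ioc (0 : ℝ) 1 from fun h => hr h.1)]
    simp

end

/-- The mixed norm bound for the extension of radial functions. -/
theorem blk (n k : ℕ) (hk : 2 ≤ k) (hkn : k ≤ n) (q : ℝ) (hq : 2 * ((n : ℝ) + 1) / n < q) :
    ∃ K : ℝ≥0, ∀ (H : Type) [NormedAddCommGroup H] [InnerProductSpace ℂ H] [CompleteSpace H]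
      (b : ℝ → H), Adm b →
      ∫⁻ t, (∫⁻ x : E k, ‖UU k b x t‖ₑ ^ q) ^ ((n : ℝ) / k) ≤ K := by
  have hk2 : (2 : ℝ) ≤ k := by exact_mod_cast hk
  have hkn' : (k : ℝ) ≤ n := by exact_mod_cast hkn
  have hk0 : (0 : ℝ) < k := by linarith
  have hn0 : (0 : ℝ) < n := by linarith
  have hq0 : 0 ≤ q := by
    refine le_trans ?_ hq.le
    positivity
  obtain ⟨K, hK⟩ := prof n k hk hkn q hq
  haveI := Pool.Agent.H789R2.FR.sg_finite k
  set s : ℝ := (n : ℝ) / k with hs
  have hs0 : 0 ≤ s := by positivity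
  set κ : ℝ≥0∞ := ‖((sg (k - 1)).real univ : ℂ)‖ₑ ^ q * sg k univ with hκ
  have hκf : κ ≠ ∞ := ENNReal.mul_ne_top (ENNReal.rpow_ne_top_of_nonneg hq0 enorm_ne_top)
    (measure_ne_top _ _)
  have hκs : κ ^ s ≠ ∞ := ENNReal.rpow_ne_top_of_nonneg hs0 hκf
  refine ⟨(κ ^ s * K).toNNReal, ?_⟩
  rw [ENNReal.coe_toNNReal (ENNReal.mul_ne_top hκs ENNReal.coe_ne_top)]
  intro H _ _ _ b hb
  have h1 : ∀ t, ∫⁻ x : E k, ‖UU k b x t‖ₑ ^ q =
      κ * ∫⁻ ρ in Ioi (0 : ℝ), ENNReal.ofReal (ρ ^ (k - 1)) * ‖VV k b ρ t‖ₑ ^ q := by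
    intro t
    have mV : Measurable fun ρ : ℝ => ‖VV k b ρ t‖ₑ ^ q := by
      have h2 := ((VV_meas (k := k) hb).enorm.pow_const q).comp
        (by fun_prop : Measurable fun ρ : ℝ => ((ρ, t) : ℝ × ℝ))
      simp only [Function.comp_def] at h2
      exact h2
    have h2 : ∀ x : E k, ‖UU k b x t‖ₑ ^ q =
        ‖((sg (k - 1)).real univ : ℂ)‖ₑ ^ q * ‖VV k b ‖x‖ t‖ₑ ^ q := by
      intro x
      rw [UU_eq hk hb, enorm_smul, ENNReal.mul_rpow_of_nonneg _ _ hq0]
    simp only [h2]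
    rw [lintegral_const_mul' _ _ (ENNReal.rpow_ne_top_of_nonneg hq0 enorm_ne_top),
      Pool.Agent.H789R2.FR.polar (by omega) (fun x : E k => ‖VV k b ‖x‖ t‖ₑ ^ q)
        (mV.comp measurable_norm)]
    have h3 : ∀ᵐ w ∂(sg k), ∫⁻ r in Ioi (0 : ℝ), ENNReal.ofReal (r ^ (k - 1)) *
        ‖VV k b ‖r • w‖ t‖ₑ ^ q =
        ∫⁻ ρ in Ioi (0 : ℝ), ENNReal.ofReal (ρ ^ (k - 1)) * ‖VV k b ρ t‖ₑ ^ q := by
      filter_upwards [Pool.Agent.H789R2.FR.sg_ae k] with w hw
      apply setLIntegral_congr_fun measurableSet_Ioi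
      intro r hr
      have hr0 : (0 : ℝ) < r := hr
      simp only
      rw [norm_smul, hw, mul_one, Real.norm_of_nonneg hr0.le]
    rw [lintegral_congr_ae h3, lintegral_const, hκ]
    ring
  simp only [h1, ENNReal.mul_rpow_of_nonneg _ _ hs0]
  rw [lintegral_const_mul' _ _ hκs]
  gcongr
  exact hK H b hb

end Pool.Agent.X146.RP
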