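import Mathlib
import Pool.Agent.TH277.HT.D
set_option autoImplicit false
set_option linter.unusedSectionVars false
set_option linter.style.haveILetI false

/-! Fubini's theorem for products and multilinear forms over finitely many spaces, and the grouping
of coordinates into blocks. -/

namespace Pool.Agent.X146.RP

open MeasureTheory Set Complex
open scoped ENNReal NNReal
open Pool.Agent.TH277.HT (tuple_meas)

lemma sa0 {n : ℕ} {X : Fin (n + 1) → Type} [∀ i, MeasurableSpace (X i)]
    (p : X 0 × (∀ j, X (Fin.succAbove 0 j))) :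
    (MeasurableEquiv.piFinSuccAbove X 0).symm p 0 = p.1 :=
  Fin.insertNth_apply_same (α := X) 0 p.1 p.2

lemma sa1 {n : ℕ} {X : Fin (n + 1) → Type} [∀ i, MeasurableSpace (X i)]
    (p : X 0 × (∀ j, X (Fin.succAbove 0 j))) (j : Fin n) :
    (MeasurableEquiv.piFinSuccAbove X 0).symm p (Fin.succ j) = p.2 j :=
  Fin.insertNth_apply_succAbove (α := X) 0 p.1 p.2 j

/-- Fubini for products over the factors. -/
lemma lint_pi' {n : ℕ} {X : Fin n → Type} [∀ i, MeasurableSpace (X i)]
    (μ : ∀ i, Measure (X i)) [∀ i, SigmaFinite (μ i)] (f : ∀ i, X i → ℝ≥0∞)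
    (hf : ∀ i, Measurable (f i)) :
    ∫⁻ x, ∏ i, f i (x i) ∂(Measure.pi μ) = ∏ i, ∫⁻ u, f i u ∂(μ i) := by
  induction n with
  | zero => simp
  | succ n ih =>
    have h1 := (measurePreserving_piFinSuccAbove μ 0).symm
    rw [← h1.lintegral_comp_emb (MeasurableEquiv.measurableEmbedding _)]
    have h2 : ∀ p : X 0 × (∀ j, X (Fin.succAbove 0 j)), ∏ i, f i ((MeasurableEquiv.piFinSuccAbove
        X 0).symm p i) = f 0 p.1 * ∏ i, f (Fin.succ i) (p.2 i) := by
      intro p
      rw [Fin.prod_univ_succ, sa0]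
      simp only [sa1]
    simp only [h2]
    have hm : Measurable fun r : (∀ j, X (Fin.succAbove 0 j)) => ∏ i, f (Fin.succ i) (r i) :=
      Finset.measurable_prod _ fun i _ => (hf _).comp (measurable_pi_apply i)
    rw [lintegral_prod_mul (hf 0).aemeasurable hm.aemeasurable, Fin.prod_univ_succ]
    congr 1
    exact ih (fun j => μ (Fin.succAbove 0 j)) (fun i => f (Fin.succ i)) fun i => hf _

variable {H : Type} [NormedAddCommGroup H] [InnerProductSpace ℂ H] [CompleteSpace H]

/-- Fubini for multilinear forms. -/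
lemma mult_int' {n : ℕ} {X : Fin n → Type} [∀ i, MeasurableSpace (X i)]
    (μ : ∀ i, Measure (X i)) [∀ i, SigmaFinite (μ i)]
    (M : ContinuousMultilinearMap ℂ (fun _ : Fin n => H) ℂ)
    (φ : ∀ i, X i → H) (hm : ∀ i, StronglyMeasurable (φ i)) (hi : ∀ i, Integrable (φ i) (μ i)) :
    ∫ ξ, M (fun j => φ j (ξ j)) ∂(Measure.pi μ) = M (fun j => ∫ u, φ j u ∂(μ j)) := by
  induction n with
  | zero =>
    have h1 : ∀ ξ : (∀ i, X i), M (fun j => φ j (ξ j)) = M (fun j => ∫ u, φ j u ∂(μ j)) := by
      intro ξ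
      congr 1
      ext j
      exact j.elim0
    simp only [h1]
    simp [measureReal_def]
  | succ n ih =>
    have h1 := (measurePreserving_piFinSuccAbove μ 0).symm
    have hint : Integrable (fun ξ : (∀ i, X i) => M (fun j => φ j (ξ j))) (Measure.pi μ) := by
      have h3 : Integrable (fun ξ : (∀ i, X i) => ‖M‖ * ∏ j, ‖φ j (ξ j)‖) (Measure.pi μ) := by
        apply Integrable.const_mul
        exact Integrable.fintype_prod_dep (f := fun j u => ‖φ j u‖) fun j => (hi j).norm
      refine h3.mono' ?_ (ae_of_all _ fun ξ => M.le_opNorm _)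
      apply StronglyMeasurable.aestronglyMeasurable
      apply M.cont.comp_stronglyMeasurable
      exact tuple_meas (fun (j : Fin (n + 1)) (ξ : ∀ i, X i) => φ j (ξ j)) fun j =>
        (hm j).comp_measurable (measurable_pi_apply j)
    rw [← h1.integral_comp']
    have hint2 := (h1.integrable_comp_emb (MeasurableEquiv.measurableEmbedding _)).2 hint
    have h2 : ∀ p : X 0 × (∀ j, X (Fin.succAbove 0 j)), M (fun j => φ j
        ((MeasurableEquiv.piFinSuccAbove X 0).symm p j)) =
          M.curryLeft (φ 0 p.1) (fun j => φ (Fin.succ j) (p.2 j)) := by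
      intro p
      rw [ContinuousMultilinearMap.curryLeft_apply]
      congr 1
      ext j
      refine Fin.cases ?_ (fun j => ?_) j
      · rw [sa0, Fin.cons_zero]
      · rw [sa1, Fin.cons_succ]
    have hint3 : Integrable (fun p : X 0 × (∀ j, X (Fin.succAbove 0 j)) =>
        M.curryLeft (φ 0 p.1) (fun j => φ (Fin.succ j) (p.2 j)))
        ((μ 0).prod (Measure.pi fun j => μ (Fin.succAbove 0 j))) := by
      refine hint2.congr (ae_of_all _ fun p => ?_)
      simp only [Function.comp]
      rw [h2 p]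
    simp only [h2]
    rw [integral_prod_symm _ hint3]
    have h4 : ∀ r : (∀ j, X (Fin.succAbove 0 j)),
        ∫ u, M.curryLeft (φ 0 u) (fun j => φ (Fin.succ j) (r j)) ∂(μ 0) =
        M.curryLeft (∫ u, φ 0 u ∂(μ 0)) (fun j => φ (Fin.succ j) (r j)) := by
      intro r
      exact ((ContinuousMultilinearMap.apply ℂ (fun _ : Fin n => H) ℂ
        (fun j => φ (Fin.succ j) (r j))).comp M.curryLeft).integral_comp_comm (hi 0)
    simp only [h4]
    rw [ih (fun j => μ (Fin.succAbove 0 j)) (M.curryLeft (∫ u, φ 0 u ∂(μ 0)))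
      (fun j => φ (Fin.succ j)) (fun i => hm _)
      fun i => hi _, ContinuousMultilinearMap.curryLeft_apply]
    congr 1
    ext j
    refine Fin.cases ?_ (fun j => ?_) j
    · rw [Fin.cons_zero]
    · rw [Fin.cons_succ]
      rfl

/-- the grouping of the coordinates -/
noncomputable def grp {n r : ℕ} {k : Fin r → ℕ} (e : (Σ j, Fin (k j)) ≃ Fin n) :
    (∀ j, Fin (k j) → ℝ) ≃ᵐ (Fin n → ℝ) :=
  (MeasurableEquiv.piCurry (fun (j : Fin r) (_ : Fin (k j)) => ℝ)).symm.trans
    (MeasurableEquiv.piCongrLeft (fun _ => ℝ) e)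

lemma grp_apply {n r : ℕ} {k : Fin r → ℕ} (e : (Σ j, Fin (k j)) ≃ Fin n)
    (η : ∀ j, Fin (k j) → ℝ) (j : Fin r) (i : Fin (k j)) : grp e η (e ⟨j, i⟩) = η j i := by
  unfold grp
  simp only [MeasurableEquiv.trans_apply]
  rw [MeasurableEquiv.coe_piCongrLeft, Equiv.piCongrLeft_apply_apply]
  rfl

lemma grp_mp {n r : ℕ} {k : Fin r → ℕ} (e : (Σ j, Fin (k j)) ≃ Fin n) :
    MeasurePreserving (grp e) := by
  unfold grp
  have h1 : MeasurePreserving (MeasurableEquiv.piCurry (fun (j : Fin r) (_ : Fin (k j)) => ℝ)).symm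
      (volume : Measure (∀ j, Fin (k j) → ℝ)) (volume : Measure ((p : Σ j, Fin (k j)) → ℝ)) := by
    refine ⟨MeasurableEquiv.measurable _, ?_⟩
    rw [volume_pi (ι := Σ j, Fin (k j))]
    symm
    apply Measure.pi_eq
    intro s hs
    rw [Measure.map_apply (MeasurableEquiv.measurable _) (MeasurableSet.univ_pi hs)]
    have h2 : (MeasurableEquiv.piCurry (fun (j : Fin r) (_ : Fin (k j)) => ℝ)).symm ⁻¹'
        (univ.pi s) = univ.pi fun j => univ.pi fun i => s ⟨j, i⟩ := by
      ext η
      simp only [mem_preimage, mem_pi, mem_univ, forall_const, Sigma.forall]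
      rfl
    rw [h2, volume_pi_pi]
    simp only [volume_pi_pi]
    rw [Fintype.prod_sigma]
  exact (volume_measurePreserving_piCongrLeft (fun _ => ℝ) e).comp h1

end Pool.Agent.X146.RP
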