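import Mathlib
import Pool.Agent.X146.RP.I
import Pool.Agent.X146.RP.J
set_option autoImplicit false
set_option linter.unusedSectionVars false
set_option linter.style.haveILetI false

/-! The extension of one block: an arbitrary function of one coordinate, or a radial function of
several coordinates. -/

namespace Pool.Agent.X146.RP

open MeasureTheory Set Complex WithLp
open scoped ENNReal NNReal RealInnerProductSpace
open Pool.Agent.TH277.HT
open Pool.Agent.H789R2.FR (E sg)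

/-- the factors: bounded by one, vanishing outside the cube, and radial about some point when there
are at least two coordinates -/
structure Blk {H : Type} [NormedAddCommGroup H] {k : ℕ} (F : (Fin k → ℝ) → H) : Prop where
  meas : StronglyMeasurable F
  bd : ∀ η, ‖F η‖ ≤ 1
  supp : ∀ η, η ∉ Icc (-1 : Fin k → ℝ) 1 → F η = 0
  radial : 2 ≤ k → ∃ c : Fin k → ℝ, ∀ η η' : Fin k → ℝ,
    ∑ i, (η i - c i) ^ 2 = ∑ i, (η' i - c i) ^ 2 → F η = F η'

/-- the extension of one block -/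
noncomputable def V {H : Type} [NormedAddCommGroup H] [InnerProductSpace ℂ H] {k : ℕ}
    (F : (Fin k → ℝ) → H) (x : Fin k → ℝ) (t : ℝ) : H :=
  ∫ η : Fin k → ℝ, ch (∑ i, η i * x i + (∑ i, η i ^ 2) * t) • F η

section
variable {H : Type} [NormedAddCommGroup H] [InnerProductSpace ℂ H] [CompleteSpace H]

lemma blk_int {k : ℕ} {F : (Fin k → ℝ) → H} (hF : Blk F) (φ : (Fin k → ℝ) → ℂ)
    (hφ : Measurable φ) (h1 : ∀ ξ, ‖φ ξ‖ ≤ 1) : Integrable fun ξ : Fin k → ℝ => φ ξ • F ξ := by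
  have h2 : IntegrableOn (fun ξ : Fin k → ℝ => φ ξ • F ξ) (Icc (-1) 1) := by
    apply IntegrableOn.of_bound (C := 1) isCompact_Icc.measure_lt_top
    · exact (hφ.stronglyMeasurable.smul hF.meas).aestronglyMeasurable
    · refine ae_of_all _ fun ξ => ?_
      rw [norm_smul]
      exact mul_le_one₀ (h1 ξ) (norm_nonneg _) (hF.bd ξ)
  rwa [integrableOn_iff_integrable_of_support_subset] at h2
  intro ξ hξ
  by_contra hc
  apply hξ
  simp only
  rw [hF.supp ξ hc, smul_zero]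

lemma V_meas {k : ℕ} {F : (Fin k → ℝ) → H} (hF : Blk F) :
    StronglyMeasurable fun p : (Fin k → ℝ) × ℝ => V F p.1 p.2 := by
  have h1 : StronglyMeasurable (Function.uncurry fun (y : (Fin k → ℝ) × ℝ) (ξ : Fin k → ℝ) =>
      ch (∑ j, ξ j * y.1 j + (∑ j, ξ j ^ 2) * y.2) • F ξ) := by
    refine StronglyMeasurable.smul (f := fun q : ((Fin k → ℝ) × ℝ) × (Fin k → ℝ) =>
      ch (∑ j, q.2 j * q.1.1 j + (∑ j, q.2 j ^ 2) * q.1.2))
      (g := fun q : ((Fin k → ℝ) × ℝ) × (Fin k → ℝ) => F q.2) ?_ ?_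
    · exact (ch_cont.comp (by fun_prop : Continuous fun q : ((Fin k → ℝ) × ℝ) × (Fin k → ℝ) =>
        (∑ j, q.2 j * q.1.1 j + (∑ j, q.2 j ^ 2) * q.1.2))).stronglyMeasurable
    · exact hF.meas.comp_measurable measurable_snd
  exact h1.integral_prod_right (ν := (volume : Measure (Fin k → ℝ)))

/-- blocks with one coordinate -/
lemma V_one {F : (Fin 1 → ℝ) → H} (hF : Blk F) (x : Fin 1 → ℝ) (t : ℝ) :
    V F x t = E1 (fun u => F fun _ => u) (x 0) t := by
  have hmp := volume_preserving_funUnique (Fin 1) ℝ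
  unfold V E1
  rw [← integral_indicator measurableSet_Icc, ← hmp.integral_comp']
  apply integral_congr_ae
  refine ae_of_all _ fun η => ?_
  simp only [MeasurableEquiv.funUnique_apply]
  have h0 : (default : Fin 1) = 0 := rfl
  have h1 : (fun _ : Fin 1 => η 0) = η := by
    ext i
    rw [Subsingleton.elim i 0]
  rw [h0]
  by_cases h : η 0 ∈ Icc (-1 : ℝ) 1
  · rw [indicator_of_mem h, h1]
    simp
  · rw [indicator_of_notMem h, hF.supp η, smul_zero]
    intro hc
    exact h ⟨hc.1 0, hc.2 0⟩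

/-- the profile of a radial block -/
noncomputable def bb {k : ℕ} (hk : 0 < k) (F : (Fin k → ℝ) → H) (c : Fin k → ℝ) (r : ℝ) : H :=
  F (Function.update c ⟨0, hk⟩ (c ⟨0, hk⟩ + r))

lemma sum_update {k : ℕ} (hk : 0 < k) (c : Fin k → ℝ) (r : ℝ) :
    ∑ i, (Function.update c ⟨0, hk⟩ (c ⟨0, hk⟩ + r) i - c i) ^ 2 = r ^ 2 := by
  rw [Finset.sum_eq_single ⟨0, hk⟩]
  · rw [Function.update_self]
    ring
  · intro i _ hi
    rw [Function.update_of_ne hi]
    ring
  · intro h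
    exact absurd (Finset.mem_univ _) h

lemma bb_adm {k : ℕ} (hk : 0 < k) {F : (Fin k → ℝ) → H} (hF : Blk F) (c : Fin k → ℝ) :
    Adm (bb hk F c) := by
  refine ⟨?_, fun r => hF.bd _⟩
  unfold bb
  apply hF.meas.comp_measurable
  rw [measurable_pi_iff]
  intro i
  by_cases h : i = ⟨0, hk⟩
  · subst h
    simp only [Function.update_self]
    fun_prop
  · simp only [Function.update_of_ne h]
    fun_prop

lemma bb_zero {k : ℕ} (hk : 0 < k) {F : (Fin k → ℝ) → H} (hF : Blk F) (c : Fin k → ℝ)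
    (hc : ∀ η η' : Fin k → ℝ, ∑ i, (η i - c i) ^ 2 = ∑ i, (η' i - c i) ^ 2 → F η = F η')
    {r : ℝ} (hr : 1 < r) : bb hk F c r = 0 := by
  unfold bb
  by_cases h : Function.update c ⟨0, hk⟩ (c ⟨0, hk⟩ + r) ∈ Icc (-1 : Fin k → ℝ) 1
  · rw [hc _ (Function.update c ⟨0, hk⟩ (c ⟨0, hk⟩ + (-r)))]
    · apply hF.supp
      intro h2
      have h3 := h.2 ⟨0, hk⟩
      have h4 := h2.1 ⟨0, hk⟩
      rw [Function.update_self] at h3 h4
      simp only [Pi.one_apply, Pi.neg_apply] at h3 h4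
      linarith
    · rw [sum_update, sum_update]
      ring
  · exact hF.supp _ h

lemma F_rad {k : ℕ} (hk : 0 < k) {F : (Fin k → ℝ) → H} (hF : Blk F) (c : Fin k → ℝ)
    (hc : ∀ η η' : Fin k → ℝ, ∑ i, (η i - c i) ^ 2 = ∑ i, (η' i - c i) ^ 2 → F η = F η')
    (ζ : Fin k → ℝ) : F (ζ + c) = rad (bb hk F c) (toLp 2 ζ : E k) := by
  have h1 : F (ζ + c) = bb hk F c ‖(toLp 2 ζ : E k)‖ := by
    unfold bb
    apply hc
    rw [sum_update, EuclideanSpace.norm_sq_eq]
    apply Finset.sum_congr rfl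
    intro i _
    simp
  rw [h1]
  unfold rad
  by_cases h : ‖(toLp 2 ζ : E k)‖ ∈ Iic (1 : ℝ)
  · rw [indicator_of_mem h]
  · rw [indicator_of_notMem h, bb_zero hk hF c hc (by simpa using h)]

/-- radial blocks -/
lemma V_rad {k : ℕ} (hk : 0 < k) {F : (Fin k → ℝ) → H} (hF : Blk F) (c : Fin k → ℝ)
    (hc : ∀ η η' : Fin k → ℝ, ∑ i, (η i - c i) ^ 2 = ∑ i, (η' i - c i) ^ 2 → F η = F η')
    (x : Fin k → ℝ) (t : ℝ) :
    V F x t = ch (∑ i, c i * x i + (∑ i, c i ^ 2) * t) •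
      UU k (bb hk F c) (toLp 2 (x + (2 * t) • c)) t := by
  unfold V UU
  rw [← integral_add_right_eq_self _ c, ← integral_smul]
  have hmp : MeasurePreserving (MeasurableEquiv.toLp 2 (Fin k → ℝ)) :=
    PiLp.volume_preserving_toLp (Fin k)
  rw [← hmp.integral_comp']
  apply integral_congr_ae
  refine ae_of_all _ fun ζ => ?_
  simp only
  rw [smul_smul, ← ch_add, F_rad hk hF c hc]
  have h1 : (MeasurableEquiv.toLp 2 (Fin k → ℝ)) ζ = toLp 2 ζ := rfl
  rw [h1]
  congr 2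
  rw [EuclideanSpace.norm_sq_eq]
  have h2 : (⟪(toLp 2 ζ : E k), (toLp 2 (x + (2 * t) • c) : E k)⟫ : ℝ) =
      ∑ i, ζ i * (x i + 2 * t * c i) := by
    rw [PiLp.inner_apply]
    apply Finset.sum_congr rfl
    intro i _
    simp
    ring
  rw [h2]
  simp only [Pi.add_apply, Real.norm_eq_abs, sq_abs]
  rw [Finset.sum_mul, Finset.sum_mul, Finset.sum_mul, ← Finset.sum_add_distrib,
    ← Finset.sum_add_distrib, ← Finset.sum_add_distrib, ← Finset.sum_add_distrib]
  apply Finset.sum_congr rfl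
  intro i _
  ring

end

/-- The mixed norm bound for one block. -/
theorem block (n k : ℕ) (hn : 2 ≤ n) (hk : 0 < k) (hkn : k ≤ n) (q : ℝ)
    (hq : 2 * ((n : ℝ) + 1) / n < q) :
    ∃ K : ℝ≥0, ∀ (H : Type) [NormedAddCommGroup H] [InnerProductSpace ℂ H] [CompleteSpace H]
      (F : (Fin k → ℝ) → H), Blk F →
      ∫⁻ t, (∫⁻ x, ‖V F x t‖ₑ ^ q) ^ ((n : ℝ) / k) ≤ K := by
  rcases Nat.lt_or_ge k 2 with h2 | h2
  · obtain rfl : k = 1 := by omega
    obtain ⟨K, hK⟩ := mix n hn q hq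
    refine ⟨K, ?_⟩
    intro H _ _ _ F hF
    have ha : Adm (fun u : ℝ => F fun _ => u) :=
      ⟨hF.meas.comp_measurable (by fun_prop), fun u => hF.bd _⟩
    have h3 : ∀ t, ∫⁻ x, ‖V F x t‖ₑ ^ q = ∫⁻ x : ℝ, ‖E1 (fun u => F fun _ => u) x t‖ₑ ^ q := by
      intro t
      rw [← (volume_preserving_funUnique (Fin 1) ℝ).lintegral_comp_emb
        (MeasurableEquiv.measurableEmbedding _)]
      apply lintegral_congr
      intro x
      rw [V_one hF]
      rfl
    simp only [h3, Nat.cast_one, div_one]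
    exact hK H _ ha
  · obtain ⟨K, hK⟩ := blk n k h2 hkn q hq
    refine ⟨K, ?_⟩
    intro H _ _ _ F hF
    obtain ⟨c, hc⟩ := hF.radial h2
    have h3 : ∀ t, ∫⁻ x, ‖V F x t‖ₑ ^ q = ∫⁻ x : E k, ‖UU k (bb hk F c) x t‖ₑ ^ q := by
      intro t
      have hmp : MeasurePreserving (MeasurableEquiv.toLp 2 (Fin k → ℝ)) :=
        PiLp.volume_preserving_toLp (Fin k)
      rw [← hmp.lintegral_comp_emb (MeasurableEquiv.measurableEmbedding _),
        ← lintegral_add_right_eq_self (fun x : Fin k → ℝ =>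
          ‖UU k (bb hk F c) ((MeasurableEquiv.toLp 2 (Fin k → ℝ)) x) t‖ₑ ^ q) ((2 * t) • c)]
      apply lintegral_congr
      intro x
      rw [V_rad hk hF c hc, enorm_smul, ch_enorm, one_mul]
      rfl
    simp only [h3]
    exact hK H _ (bb_adm hk hF c)

end Pool.Agent.X146.RP
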