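import Mathlib
import Pool.Agent.X146.RP.K
import Pool.Agent.TH277.HT.E
set_option autoImplicit false
set_option linter.unusedSectionVars false
set_option linter.style.haveILetI false

/-! The restriction estimate for block radial Hilbert tensors. -/

namespace Pool.Agent.X146.RP

open MeasureTheory Set Complex
open scoped ENNReal NNReal
open Pool.Agent.TH277.HT
open Pool.Agent.H789R2.FR (E sg)

section
variable {H : Type} [NormedAddCommGroup H] [InnerProductSpace ℂ H] [CompleteSpace H]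
variable {n r : ℕ} {k : Fin r → ℕ}

/-- the block radial tensor -/
noncomputable def ten (e : (Σ j, Fin (k j)) ≃ Fin n)
    (M : ContinuousMultilinearMap ℂ (fun _ : Fin r => H) ℂ) (F : ∀ j, (Fin (k j) → ℝ) → H)
    (ξ : Fin n → ℝ) : ℂ := M fun j => F j fun i => ξ (e ⟨j, i⟩)

lemma ten_grp (e : (Σ j, Fin (k j)) ≃ Fin n)
    (M : ContinuousMultilinearMap ℂ (fun _ : Fin r => H) ℂ) (F : ∀ j, (Fin (k j) → ℝ) → H)
    (η : ∀ j, Fin (k j) → ℝ) : ten e M F (grp e η) = M fun j => F j (η j) := by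
  unfold ten
  simp only [grp_apply]

lemma ten_meas (e : (Σ j, Fin (k j)) ≃ Fin n)
    (M : ContinuousMultilinearMap ℂ (fun _ : Fin r => H) ℂ) (F : ∀ j, (Fin (k j) → ℝ) → H)
    (hF : ∀ j, Blk (F j)) : StronglyMeasurable (ten e M F) := by
  unfold ten
  apply M.cont.comp_stronglyMeasurable
  exact tuple_meas (fun (j : Fin r) (ξ : Fin n → ℝ) => F j fun i => ξ (e ⟨j, i⟩)) fun j =>
    (hF j).meas.comp_measurable (by fun_prop)

lemma ten_zero (e : (Σ j, Fin (k j)) ≃ Fin n)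
    (M : ContinuousMultilinearMap ℂ (fun _ : Fin r => H) ℂ) (F : ∀ j, (Fin (k j) → ℝ) → H)
    (hF : ∀ j, Blk (F j)) (ξ : Fin n → ℝ) (hξ : ξ ∉ Icc (-1 : Fin n → ℝ) 1) : ten e M F ξ = 0 := by
  unfold ten
  have h1 : ∃ j, (fun i => ξ (e ⟨j, i⟩)) ∉ Icc (-1 : Fin (k j) → ℝ) 1 := by
    by_contra hc
    push Not at hc
    apply hξ
    constructor
    · intro i
      have h2 := (hc (e.symm i).1).1 (e.symm i).2
      simpa using h2
    · intro i
      have h2 := (hc (e.symm i).1).2 (e.symm i).2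
      simpa using h2
  obtain ⟨j, hj⟩ := h1
  exact M.map_coord_zero j ((hF j).supp _ hj)

lemma ch_sum' {ι : Type*} (s : Finset ι) (f : ι → ℝ) : ch (∑ j ∈ s, f j) = ∏ j ∈ s, ch (f j) :=
  ch_sum s f

/-- The extension operator on block tensors. -/
lemma EE_ten (e : (Σ j, Fin (k j)) ≃ Fin n)
    (M : ContinuousMultilinearMap ℂ (fun _ : Fin r => H) ℂ) (F : ∀ j, (Fin (k j) → ℝ) → H)
    (hF : ∀ j, Blk (F j)) (y : (Fin n → ℝ) × ℝ) :
    EE (ten e M F) y = M fun j => V (F j) (fun i => y.1 (e ⟨j, i⟩)) y.2 := by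
  unfold EE
  rw [← integral_indicator measurableSet_Icc]
  have h1 : (Icc (-1 : Fin n → ℝ) 1).indicator
      (fun ξ => ch (∑ j, ξ j * y.1 j + (∑ j, ξ j ^ 2) * y.2) * ten e M F ξ) =
      fun ξ => ch (∑ j, ξ j * y.1 j + (∑ j, ξ j ^ 2) * y.2) * ten e M F ξ := by
    ext ξ
    by_cases h : ξ ∈ Icc (-1 : Fin n → ℝ) 1
    · rw [indicator_of_mem h]
    · rw [indicator_of_notMem h, ten_zero e M F hF ξ h, mul_zero]
  rw [h1, ← (grp_mp e).integral_comp']
  have h2 : ∀ η : (∀ j, Fin (k j) → ℝ), ch (∑ i, grp e η i * y.1 i + (∑ i, grp e η i ^ 2) * y.2) *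
      ten e M F (grp e η) = M fun j => ch (∑ i, η j i * y.1 (e ⟨j, i⟩) + (∑ i, η j i ^ 2) * y.2) •
        F j (η j) := by
    intro η
    rw [ContinuousMultilinearMap.map_smul_univ, smul_eq_mul, ten_grp, ← ch_sum]
    congr 2
    rw [← e.sum_comp, ← e.sum_comp, Fintype.sum_sigma, Fintype.sum_sigma, Finset.sum_add_distrib,
      Finset.sum_mul]
    simp only [grp_apply]
  simp only [h2]
  have hm : ∀ j, StronglyMeasurable fun η : Fin (k j) → ℝ =>
      ch (∑ i, η i * y.1 (e ⟨j, i⟩) + (∑ i, η i ^ 2) * y.2) • F j η := by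
    intro j
    apply StronglyMeasurable.smul
    · exact (ch_cont.comp (by fun_prop : Continuous fun η : Fin (k j) → ℝ =>
        ∑ i, η i * y.1 (e ⟨j, i⟩) + (∑ i, η i ^ 2) * y.2)).stronglyMeasurable
    · exact (hF j).meas
  have hi : ∀ j, Integrable fun η : Fin (k j) → ℝ =>
      ch (∑ i, η i * y.1 (e ⟨j, i⟩) + (∑ i, η i ^ 2) * y.2) • F j η := by
    intro j
    apply blk_int (hF j) (fun η : Fin (k j) → ℝ =>
      ch (∑ i, η i * y.1 (e ⟨j, i⟩) + (∑ i, η i ^ 2) * y.2))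
    · exact ch_cont.measurable.comp (by fun_prop)
    · exact fun _ => (ch_norm _).le
  rw [volume_pi]
  exact mult_int' (fun _ => volume) M _ hm hi

end

/-- Block radial tensors. -/
theorem blocks (n : ℕ) (hn : 2 ≤ n) (q : ℝ) (hq : 2 * ((n : ℝ) + 1) / n < q) :
    ∃ C : ℝ≥0, ∀ (r : ℕ) (k : Fin r → ℕ) (e : (Σ j, Fin (k j)) ≃ Fin n), (∀ j, 0 < k j) →
      ∀ (H : Type) [NormedAddCommGroup H] [InnerProductSpace ℂ H] [CompleteSpace H]
        (M : ContinuousMultilinearMap ℂ (fun _ : Fin r => H) ℂ) (F : ∀ j, (Fin (k j) → ℝ) → H),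
        ‖M‖ ≤ 1 → (∀ j, Blk (F j)) → ∫⁻ y, ‖EE (ten e M F) y‖ₑ ^ q ≤ C := by
  have hn2 : (2 : ℝ) ≤ n := by exact_mod_cast hn
  have hn0 : (0 : ℝ) < n := by linarith
  have hq0 : 0 < q := lt_trans (by positivity) hq
  have h0 : ∀ m : ℕ, ∃ K : ℝ≥0, 0 < m → m ≤ n →
      ∀ (H : Type) [NormedAddCommGroup H] [InnerProductSpace ℂ H] [CompleteSpace H]
      (F : (Fin m → ℝ) → H), Blk F →
      ∫⁻ t, (∫⁻ x, ‖V F x t‖ₑ ^ q) ^ ((n : ℝ) / m) ≤ K := by
    intro m
    by_cases h : 0 < m ∧ m ≤ n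
    · obtain ⟨K, hK⟩ := block n m hn h.1 h.2 q hq
      exact ⟨K, fun _ _ => hK⟩
    · exact ⟨0, fun h1 h2 => absurd ⟨h1, h2⟩ h⟩
  choose K hK using h0
  set C : ℝ≥0 := ∑ m ∈ Finset.range (n + 1), K m with hC
  refine ⟨C, ?_⟩
  intro r k e hk H _ _ _ M F hM hF
  have hsum : ∑ j, k j = n := by
    have h1 := Fintype.card_congr e
    rw [Fintype.card_sigma, Fintype.card_fin] at h1
    simpa using h1
  have hkn : ∀ j, k j ≤ n := by
    intro j
    rw [← hsum]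
    exact Finset.single_le_sum (fun i _ => Nat.zero_le _) (Finset.mem_univ j)
  have hKC : ∀ j, (K (k j) : ℝ≥0∞) ≤ C := by
    intro j
    rw [ENNReal.coe_le_coe, hC]
    exact Finset.single_le_sum (f := K) (fun i _ => zero_le) (Finset.mem_range.2 (by
      have := hkn j
      omega))
  have h2 : ∀ y : (Fin n → ℝ) × ℝ, ‖EE (ten e M F) y‖ₑ ^ q ≤
      ∏ j, ‖V (F j) (fun i => y.1 (e ⟨j, i⟩)) y.2‖ₑ ^ q := by
    intro y
    rw [EE_ten e M F hF y, ENNReal.prod_rpow_of_nonneg hq0.le]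
    gcongr
    rw [← ofReal_norm]
    calc ENNReal.ofReal ‖M fun j => V (F j) (fun i => y.1 (e ⟨j, i⟩)) y.2‖
        ≤ ENNReal.ofReal (∏ j, ‖V (F j) (fun i => y.1 (e ⟨j, i⟩)) y.2‖) := by
          apply ENNReal.ofReal_le_ofReal
          refine (M.le_opNorm _).trans ?_
          have h3 : 0 ≤ ∏ j, ‖V (F j) (fun i => y.1 (e ⟨j, i⟩)) y.2‖ :=
            Finset.prod_nonneg fun j _ => norm_nonneg _
          calc ‖M‖ * ∏ j, ‖V (F j) (fun i => y.1 (e ⟨j, i⟩)) y.2‖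
              ≤ 1 * ∏ j, ‖V (F j) (fun i => y.1 (e ⟨j, i⟩)) y.2‖ := by gcongr
            _ = _ := one_mul _
      _ = ∏ j, ‖V (F j) (fun i => y.1 (e ⟨j, i⟩)) y.2‖ₑ := by
          rw [ENNReal.ofReal_prod_of_nonneg fun j _ => norm_nonneg _]
          apply Finset.prod_congr rfl
          intro j _
          rw [ofReal_norm]
  have hm : ∀ j, Measurable fun p : (Fin (k j) → ℝ) × ℝ => ‖V (F j) p.1 p.2‖ₑ ^ q := fun j =>
    (V_meas (hF j)).enorm.pow_const q
  have hA : ∀ j, Measurable fun t : ℝ => ∫⁻ x, ‖V (F j) x t‖ₑ ^ q := fun j =>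
    (hm j).lintegral_prod_left'
  have hprod : Measurable fun y : (Fin n → ℝ) × ℝ =>
      ∏ j, ‖V (F j) (fun i => y.1 (e ⟨j, i⟩)) y.2‖ₑ ^ q := by
    apply Finset.measurable_prod
    intro j _
    have h3 : Measurable fun y : (Fin n → ℝ) × ℝ =>
        (((fun i => y.1 (e ⟨j, i⟩)), y.2) : (Fin (k j) → ℝ) × ℝ) := by fun_prop
    have h5 := (hm j).comp h3
    simp only [Function.comp_def] at h5
    exact h5
  calc ∫⁻ y, ‖EE (ten e M F) y‖ₑ ^ q
      ≤ ∫⁻ y : (Fin n → ℝ) × ℝ, ∏ j, ‖V (F j) (fun i => y.1 (e ⟨j, i⟩)) y.2‖ₑ ^ q :=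
        lintegral_mono h2
    _ = ∫⁻ t : ℝ, ∫⁻ x : Fin n → ℝ, ∏ j, ‖V (F j) (fun i => x (e ⟨j, i⟩)) t‖ₑ ^ q := by
        rw [Measure.volume_eq_prod, lintegral_prod_symm _ hprod.aemeasurable]
    _ = ∫⁻ t : ℝ, ∏ j, ∫⁻ x, ‖V (F j) x t‖ₑ ^ q := by
        apply lintegral_congr
        intro t
        rw [← (grp_mp e).lintegral_comp_emb (MeasurableEquiv.measurableEmbedding _)]
        simp only [grp_apply]
        rw [volume_pi]
        refine lint_pi' (fun _ => volume) (fun j x => ‖V (F j) x t‖ₑ ^ q) fun j => ?_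
        have h3 := (hm j).comp (by fun_prop : Measurable fun x : Fin (k j) → ℝ => (x, t))
        simp only [Function.comp_def] at h3
        exact h3
    _ = ∫⁻ t : ℝ, ∏ j, ((∫⁻ x, ‖V (F j) x t‖ₑ ^ q) ^ ((n : ℝ) / k j)) ^ ((k j : ℝ) / n) := by
        apply lintegral_congr
        intro t
        apply Finset.prod_congr rfl
        intro j _
        have h3 : (0 : ℝ) < k j := by exact_mod_cast hk j
        rw [← ENNReal.rpow_mul, div_mul_div_cancel₀ h3.ne', div_self hn0.ne', ENNReal.rpow_one]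
    _ ≤ ∏ j, (∫⁻ t : ℝ, (∫⁻ x, ‖V (F j) x t‖ₑ ^ q) ^ ((n : ℝ) / k j)) ^ ((k j : ℝ) / n) := by
        apply ENNReal.lintegral_prod_norm_pow_le
        · intro j _
          exact ((hA j).pow_const _).aemeasurable
        · rw [← Finset.sum_div, ← Nat.cast_sum, hsum, div_self hn0.ne']
        · intro j _
          positivity
    _ ≤ ∏ j, (C : ℝ≥0∞) ^ ((k j : ℝ) / n) := by
        gcongr with j
        exact (hK (k j) (hk j) (hkn j) H (F j) (hF j)).trans (hKC j)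
    _ = C := by
        have h3 : ∀ j, (C : ℝ≥0∞) ^ ((k j : ℝ) / n) = ((C : ℝ≥0∞) ^ (1 / (n : ℝ))) ^ k j := by
          intro j
          rw [← ENNReal.rpow_natCast, ← ENNReal.rpow_mul]
          congr 1
          ring
        simp only [h3]
        rw [Finset.prod_pow_eq_pow_sum, hsum, ← ENNReal.rpow_natCast, ← ENNReal.rpow_mul,
          one_div_mul_cancel hn0.ne', ENNReal.rpow_one]

end Pool.Agent.X146.RP
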