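import Mathlib
import Pool.Agent.TH277.HT.G
set_option autoImplicit false
set_option linter.unusedSectionVars false

/-! Products with functions of bounded `2`-variation in one of two variables, for an abstract
class of functions. -/

namespace Pool.Agent.X146.RP

open MeasureTheory Set Complex Filter Topology
open scoped ENNReal NNReal
open Pool.Agent.TH277.HT

attribute [local irreducible] PP W E1 DD

/-- classes of bounded measurable functions -/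
structure Cls {n : ℕ} (S : ((Fin n → ℝ) → ℂ) → Prop) : Prop where
  meas : ∀ s, S s → StronglyMeasurable s
  le : ∀ s, S s → ∀ ξ, ‖s ξ‖ ≤ 1

/-- pairs of variables for a class -/
structure Pair {n : ℕ} (S : ((Fin n → ℝ) → ℂ) → Prop) (A : ℝ≥0∞) (ρ σ : (Fin n → ℝ) → ℝ) :
    Prop where
  m1 : Measurable ρ
  m2 : Measurable σ
  supp : ∀ s, S s → ∀ ξ, σ ξ ∉ Icc (-1 : ℝ) 1 → s ξ = 0
  one : ∀ s, S s → ∀ c : ℝ → ℂ, Measurable c → (∀ u, ‖c u‖ ≤ 1) → S (fun ξ => s ξ * c (ρ ξ))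
  pair : ∀ s, S s → ∀ N : ℕ, 0 < N → ∀ d ψ : Fin N → ℝ → ℂ, (∀ k, Measurable (d k)) →
    (∀ k, Measurable (ψ k)) → (∀ u, ∑ k, ‖d k u‖ ^ 2 ≤ 1) → (∀ u, ∑ k, ‖ψ k u‖ ^ 2 ≤ 1) →
    S (fun ξ => s ξ * ∑ k, d k (ρ ξ) * ψ k (σ ξ))
  cube : ∀ Φ : ℝ × ℝ → ℝ≥0∞, Measurable Φ → ∀ B : ℝ≥0∞,
    (∀ u, ∫⁻ v in Icc (-1 : ℝ) 1, Φ (u, v) ≤ B) →
    ∫⁻ ξ in Icc (-1 : Fin n → ℝ) 1 ∩ {ξ | σ ξ ∈ Icc (-1 : ℝ) 1}, Φ (ρ ξ, σ ξ) ≤ A * B

lemma I1_mulS {n : ℕ} {S : ((Fin n → ℝ) → ℂ) → Prop} (hS : Cls S) {s : (Fin n → ℝ) → ℂ} (hs : S s)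
    {σ : (Fin n → ℝ) → ℝ} (hσ : Measurable σ) (h0 : ∀ ξ, σ ξ ∉ Icc (-1 : ℝ) 1 → s ξ = 0)
    {t : (Fin n → ℝ) → ℂ} (ht : Measurable t) {B : ℝ≥0∞}
    (hB : ∫⁻ ξ in Icc (-1 : Fin n → ℝ) 1 ∩ {ξ | σ ξ ∈ Icc (-1 : ℝ) 1}, ‖t ξ‖ₑ ^ 2 ≤ B) :
    I1 (fun ξ => s ξ * t ξ) ≤ (I1 s) ^ (1 / 2 : ℝ) * B ^ (1 / 2 : ℝ) := by
  unfold I1
  have hsm := (hS.meas s hs).measurable
  have hT : MeasurableSet {ξ : Fin n → ℝ | σ ξ ∈ Icc (-1 : ℝ) 1} := hσ measurableSet_Icc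
  set D : Set (Fin n → ℝ) := Icc (-1 : Fin n → ℝ) 1 ∩ {ξ | σ ξ ∈ Icc (-1 : ℝ) 1} with hD
  have hDm : MeasurableSet D := measurableSet_Icc.inter hT
  calc ∫⁻ ξ in Icc (-1 : Fin n → ℝ) 1, ‖s ξ * t ξ‖ₑ
      = ∫⁻ ξ in D, ‖s ξ * t ξ‖ₑ := by
        rw [← lintegral_indicator measurableSet_Icc, ← lintegral_indicator hDm]
        apply lintegral_congr
        intro ξ
        by_cases h1 : ξ ∈ D
        · rw [indicator_of_mem h1, indicator_of_mem h1.1]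
        · rw [indicator_of_notMem h1]
          by_cases h2 : ξ ∈ Icc (-1 : Fin n → ℝ) 1
          · rw [indicator_of_mem h2, h0 ξ fun h3 => h1 ⟨h2, h3⟩, zero_mul, enorm_zero]
          · rw [indicator_of_notMem h2]
    _ ≤ ∫⁻ ξ in D, ‖s ξ‖ₑ ^ (1 / 2 : ℝ) * (‖t ξ‖ₑ ^ 2) ^ (1 / 2 : ℝ) := by
        apply lintegral_mono
        intro ξ
        simp only
        rw [enorm_mul, ← ENNReal.rpow_natCast ‖t ξ‖ₑ, ← ENNReal.rpow_mul]
        have h1 : ((2 : ℕ) : ℝ) * (1 / 2) = 1 := by norm_num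
        rw [h1, ENNReal.rpow_one]
        gcongr
        have h2 : ‖s ξ‖ₑ ≤ 1 := by
          rw [← ofReal_norm]
          exact ENNReal.ofReal_le_one.2 (hS.le s hs ξ)
        calc ‖s ξ‖ₑ = ‖s ξ‖ₑ ^ (1 : ℝ) := (ENNReal.rpow_one _).symm
          _ ≤ ‖s ξ‖ₑ ^ (1 / 2 : ℝ) := ENNReal.rpow_le_rpow_of_exponent_ge h2 (by norm_num)
    _ ≤ (∫⁻ ξ in D, ‖s ξ‖ₑ) ^ (1 / 2 : ℝ) * (∫⁻ ξ in D, ‖t ξ‖ₑ ^ 2) ^ (1 / 2 : ℝ) :=
        ENNReal.lintegral_mul_norm_pow_le hsm.enorm.aemeasurable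
          (ht.enorm.pow_const 2).aemeasurable (by norm_num) (by norm_num) (by norm_num)
    _ ≤ _ := by
        gcongr
        exact inter_subset_left

/-- The estimate for all products with functions of the class. -/
def GoodS {n : ℕ} (S : ((Fin n → ℝ) → ℂ) → Prop) (q : ℝ) (C : ℝ≥0∞) (δ : ℝ)
    (G : (Fin n → ℝ) → ℂ) : Prop :=
  ∀ s : (Fin n → ℝ) → ℂ, S s → eLpNorm' (EE fun ξ => s ξ * G ξ) q volume ≤ C * (I1 s) ^ δ

/-- One more factor. -/
theorem stepS (n : ℕ) (q : ℝ) (hq1 : 1 ≤ q) (C : ℝ≥0∞) (hC : C ≠ ⊤) (δ : ℝ) (hδ : 0 < δ)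
    (A : ℝ≥0∞) (hA : A ≠ ⊤) :
    ∃ C' : ℝ≥0∞, C' ≠ ⊤ ∧ ∀ S : ((Fin n → ℝ) → ℂ) → Prop, Cls S →
      ∀ G : (Fin n → ℝ) → ℂ, Measurable G → (∀ ξ, ‖G ξ‖ ≤ 1) →
      GoodS S q C δ G → ∀ ρ σ : (Fin n → ℝ) → ℝ, Pair S A ρ σ → ∀ g : ℝ × ℝ → ℂ, Measurable g →
        (∀ p, ‖g p‖ ≤ 1) → (∀ u, Var2 fun v => g (u, v)) →
        GoodS S q C' (δ / 2) fun ξ => g (ρ ξ, σ ξ) * G ξ := by
  set r : ℝ≥0∞ := ENNReal.ofReal ((1 / 2 : ℝ) ^ (δ / 2)) with hr
  have hr1 : r < 1 := by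
    rw [hr, ← ENNReal.ofReal_one]
    apply (ENNReal.ofReal_lt_ofReal_iff one_pos).2
    exact Real.rpow_lt_one (by norm_num) (by norm_num) (by linarith)
  set S0 : ℝ≥0∞ := (A * ENNReal.ofReal 2) ^ (δ / 2) with hS0
  have hStop : S0 ≠ ⊤ := by
    rw [hS0]
    apply ENNReal.rpow_ne_top_of_nonneg (by linarith)
    exact ENNReal.mul_ne_top hA ENNReal.ofReal_ne_top
  set C' : ℝ≥0∞ := C * (((2 : ℝ≥0∞) ^ n) ^ (δ / 2) + S0 * (1 - r)⁻¹) with hC'
  have hC't : C' ≠ ⊤ := by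
    rw [hC']
    apply ENNReal.mul_ne_top hC
    apply ENNReal.add_ne_top.2
    constructor
    · exact ENNReal.rpow_ne_top_of_nonneg (by linarith) (ENNReal.pow_ne_top (by norm_num))
    · apply ENNReal.mul_ne_top hStop
      rw [ENNReal.inv_ne_top]
      exact (tsub_pos_of_lt hr1).ne'
  refine ⟨C', hC't, ?_⟩
  intro S hSc G hGm hGb hG ρ σ hP g hg hgb hv s hs
  have hρ := hP.m1
  have hσ := hP.m2
  have hρσ : Measurable fun ξ : Fin n → ℝ => ((ρ ξ, σ ξ) : ℝ × ℝ) := hρ.prodMk hσ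
  have hq0 : 0 < q := by linarith
  -- the pieces
  set s0 : (Fin n → ℝ) → ℂ := fun ξ => s ξ * g (ρ ξ, -1) with hs0
  set sl : ℕ → (Fin n → ℝ) → ℂ := fun l ξ => s ξ * DD g l (ρ ξ) (σ ξ) with hsl
  have hs0S : S s0 := by
    apply hP.one s hs (fun u => g (u, -1))
    · exact hg.comp measurable_prodMk_right
    · exact fun u => hgb _
  have hslS : ∀ l, S (sl l) := by
    intro l
    have h1 : sl l = fun ξ => s ξ * ∑ k : Fin (2 ^ l), dd g l k (ρ ξ) * ps l k (σ ξ) := by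
      ext ξ
      simp only [hsl]
      unfold DD
      rfl
    rw [h1]
    exact hP.pair s hs _ (Nat.two_pow_pos l) (fun k => dd g l k) (fun k => ps l k)
      (fun k => dd_meas hg l k) (fun k => ps_meas l k) (fun u => dd_sum (hv u) l)
      (fun v => ps_sum l v)
  -- the bounds
  have hb0 : eLpNorm' (EE fun ξ => s0 ξ * G ξ) q volume ≤
      C * (((2 : ℝ≥0∞) ^ n) ^ (δ / 2)) * (I1 s) ^ (δ / 2) := by
    refine (hG s0 hs0S).trans ?_
    have h1 : I1 s0 ≤ I1 s := by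
      unfold I1
      apply lintegral_mono
      intro ξ
      simp only [hs0]
      rw [enorm_mul]
      have h2 : ‖g (ρ ξ, -1)‖ₑ ≤ 1 := by
        rw [← ofReal_norm]
        exact ENNReal.ofReal_le_one.2 (hgb _)
      calc ‖s ξ‖ₑ * ‖g (ρ ξ, -1)‖ₑ ≤ ‖s ξ‖ₑ * 1 := by gcongr
        _ = ‖s ξ‖ₑ := mul_one _
    calc C * I1 s0 ^ δ ≤ C * I1 s ^ δ := by gcongr
      _ = C * (I1 s ^ (δ / 2) * I1 s ^ (δ / 2)) := by
          rw [← ENNReal.rpow_add_of_nonneg _ _ (by linarith) (by linarith), add_halves]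
      _ ≤ C * (((2 : ℝ≥0∞) ^ n) ^ (δ / 2) * I1 s ^ (δ / 2)) := by
          gcongr
          exact I1_le s (hSc.le s hs)
      _ = _ := by ring
  have hbl : ∀ l, eLpNorm' (EE fun ξ => sl l ξ * G ξ) q volume ≤
      C * (S0 * r ^ l) * (I1 s) ^ (δ / 2) := by
    intro l
    refine (hG (sl l) (hslS l)).trans ?_
    have h1 : I1 (sl l) ≤ (I1 s) ^ (1 / 2 : ℝ) *
        (A * ENNReal.ofReal (2 / 2 ^ l)) ^ (1 / 2 : ℝ) := by
      refine I1_mulS hSc hs hσ (hP.supp s hs) (t := fun ξ => DD g l (ρ ξ) (σ ξ)) ?_ ?_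
      · have h5 := (DD_meas hg l).comp hρσ
        simp only [Function.comp_def] at h5
        exact h5
      · exact hP.cube (fun p => ‖DD g l p.1 p.2‖ₑ ^ 2) ((DD_meas hg l).enorm.pow_const 2) _
          fun u => DD_L2 hg (hv u) l
    calc C * I1 (sl l) ^ δ ≤ C * ((I1 s) ^ (1 / 2 : ℝ) *
        (A * ENNReal.ofReal (2 / 2 ^ l)) ^ (1 / 2 : ℝ)) ^ δ := by gcongr
      _ = C * (S0 * r ^ l) * (I1 s) ^ (δ / 2) := by
          rw [ENNReal.mul_rpow_of_nonneg _ _ hδ.le, ← ENNReal.rpow_mul, ← ENNReal.rpow_mul,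
            show (1 / 2 : ℝ) * δ = δ / 2 by ring]
          have h2 : (2 : ℝ) / 2 ^ l = 2 * (1 / 2) ^ l := by
            rw [one_div, inv_pow]
            rfl
          have h4 : A * (ENNReal.ofReal 2 * ENNReal.ofReal ((1 / 2 : ℝ) ^ l)) =
              (A * ENNReal.ofReal 2) * ENNReal.ofReal ((1 / 2 : ℝ) ^ l) := by ring
          rw [h2, ENNReal.ofReal_mul (by norm_num), h4,
            ENNReal.mul_rpow_of_nonneg _ _ (by linarith : 0 ≤ δ / 2)]
          have h3 : ENNReal.ofReal ((1 / 2 : ℝ) ^ l) ^ (δ / 2) = r ^ l := by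
            rw [hr, ENNReal.ofReal_rpow_of_nonneg (by positivity) (by linarith),
              ← ENNReal.ofReal_pow (by positivity)]
            congr 1
            rw [← Real.rpow_natCast, ← Real.rpow_mul (by norm_num), ← Real.rpow_natCast,
              ← Real.rpow_mul (by norm_num), mul_comm]
          rw [h3]
          ring
  -- the partial sums
  set fL : ℕ → (Fin n → ℝ) → ℂ := fun L ξ =>
    s ξ * ((g (ρ ξ, -1) + ∑ l ∈ Finset.range L, DD g l (ρ ξ) (σ ξ)) * G ξ) with hfL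
  have hslm : ∀ l, Measurable fun ξ => sl l ξ * G ξ := fun l =>
    (hSc.meas _ (hslS l)).measurable.mul hGm
  have hslb : ∀ l ξ, ‖sl l ξ * G ξ‖ ≤ 1 := by
    intro l ξ
    rw [norm_mul]
    calc ‖sl l ξ‖ * ‖G ξ‖ ≤ 1 * 1 := mul_le_mul (hSc.le _ (hslS l) ξ) (hGb ξ)
          (norm_nonneg _) zero_le_one
      _ = 1 := mul_one 1
  have hfLm : ∀ L, Measurable (fL L) ∧ ∃ A : ℝ, ∀ ξ, ‖fL L ξ‖ ≤ A := by
    intro L
    induction L with
    | zero =>
      have h1 : fL 0 = fun ξ => s0 ξ * G ξ := by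
        ext ξ
        simp only [hfL, hs0, Finset.range_zero, Finset.sum_empty, add_zero]
        ring
      rw [h1]
      refine ⟨(hSc.meas _ hs0S).measurable.mul hGm, 1, fun ξ => ?_⟩
      rw [norm_mul]
      calc ‖s0 ξ‖ * ‖G ξ‖ ≤ 1 * 1 := mul_le_mul (hSc.le _ hs0S ξ) (hGb ξ)
            (norm_nonneg _) zero_le_one
        _ = 1 := mul_one 1
    | succ L ih =>
      have h1 : fL (L + 1) = fun ξ => fL L ξ + sl L ξ * G ξ := by
        ext ξ
        simp only [hfL, hsl, Finset.sum_range_succ]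
        ring
      rw [h1]
      obtain ⟨h2, A, hA⟩ := ih
      refine ⟨h2.add (hslm L), A + 1, fun ξ => (norm_add_le _ _).trans ?_⟩
      exact add_le_add (hA ξ) (hslb L ξ)
  have hsum : ∀ L, eLpNorm' (EE (fL L)) q volume ≤
      C * (((2 : ℝ≥0∞) ^ n) ^ (δ / 2) + S0 * ∑ l ∈ Finset.range L, r ^ l) * (I1 s) ^ (δ / 2) := by
    intro L
    induction L with
    | zero =>
      have h1 : fL 0 = fun ξ => s0 ξ * G ξ := by
        ext ξ
        simp only [hfL, hs0, Finset.range_zero, Finset.sum_empty, add_zero]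
        ring
      rw [h1]
      simpa using hb0
    | succ L ih =>
      have h1 : fL (L + 1) = fun ξ => fL L ξ + sl L ξ * G ξ := by
        ext ξ
        simp only [hfL, hsl, Finset.sum_range_succ]
        ring
      obtain ⟨h2, A, hA⟩ := hfLm L
      rw [h1, EE_add h2 (hslm L) hA (hslb L)]
      refine (eLpNorm'_add_le (EE_meas h2.stronglyMeasurable).aestronglyMeasurable
        (EE_meas (hslm L).stronglyMeasurable).aestronglyMeasurable hq1).trans ?_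
      refine (add_le_add ih (hbl L)).trans (le_of_eq ?_)
      rw [Finset.sum_range_succ]
      ring
  have hunif : ∀ L, eLpNorm' (EE (fL L)) q volume ≤ C' * (I1 s) ^ (δ / 2) := by
    intro L
    refine (hsum L).trans ?_
    rw [hC']
    gcongr
    rw [← ENNReal.tsum_geometric]
    exact ENNReal.sum_le_tsum _
  -- the limit
  set f : (Fin n → ℝ) → ℂ := fun ξ => s ξ * (g (ρ ξ, σ ξ) * G ξ) with hf
  have hgm2 : Measurable fun ξ : Fin n → ℝ => g (ρ ξ, σ ξ) :=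
    hg.comp hρσ
  have hfm : Measurable f := (hSc.meas s hs).measurable.mul (hgm2.mul hGm)
  have hfb : ∀ ξ, ‖f ξ‖ ≤ 1 := by
    intro ξ
    simp only [hf]
    rw [norm_mul, norm_mul]
    calc ‖s ξ‖ * (‖g (ρ ξ, σ ξ)‖ * ‖G ξ‖) ≤ 1 * (1 * 1) := by
          gcongr
          · exact hSc.le s hs ξ
          · exact hgb _
          · exact hGb ξ
      _ = 1 := by norm_num
  have hdiff : ∀ L y, ‖EE f y - EE (fL L) y‖ₑ ≤
      (I1 s) ^ (1 / 2 : ℝ) * (A * ENNReal.ofReal (2 / 2 ^ L)) ^ (1 / 2 : ℝ) := by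
    intro L y
    obtain ⟨h2, A, hA⟩ := hfLm L
    have h3 : EE f y - EE (fL L) y = EE (fun ξ => f ξ + -(fL L ξ)) y := by
      have hneg : Measurable fun ξ => -(fL L ξ) := h2.neg
      rw [EE_add hfm hneg hfb (B := A) (fun ξ => by
        rw [norm_neg]
        exact hA ξ)]
      simp only [Pi.add_apply]
      rw [sub_eq_add_neg]
      congr 1
      unfold EE
      rw [← integral_neg]
      apply integral_congr_ae
      refine ae_of_all _ fun ξ => ?_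
      simp only
      ring
    rw [h3]
    refine (EE_le _ y).trans ?_
    have h4 : Measurable fun p : ℝ × ℝ =>
        g (p.1, p.2) - (g (p.1, -1) + ∑ l ∈ Finset.range L, DD g l p.1 p.2) := by
      apply Measurable.sub hg
      apply Measurable.add
      · exact hg.comp (by fun_prop : Measurable fun p : ℝ × ℝ => ((p.1, -1) : ℝ × ℝ))
      · exact Finset.measurable_sum _ fun l _ => DD_meas hg l
    have h45 := h4.comp hρσ
    simp only [Function.comp_def] at h45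
    have h5 := I1_mulS hSc hs hσ (hP.supp s hs) (t := fun ξ => g (ρ ξ, σ ξ) -
      (g (ρ ξ, -1) + ∑ l ∈ Finset.range L, DD g l (ρ ξ) (σ ξ))) h45
      (hP.cube (fun p => ‖g (p.1, p.2) -
        (g (p.1, -1) + ∑ l ∈ Finset.range L, DD g l p.1 p.2)‖ₑ ^ 2) (h4.enorm.pow_const 2) _
        fun u => rest_L2 hg (hv u) L)
    refine le_trans ?_ h5
    unfold I1
    apply lintegral_mono
    intro ξ
    simp only [hf, hfL]
    have h6 : s ξ * (g (ρ ξ, σ ξ) * G ξ) + -(s ξ * ((g (ρ ξ, -1) +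
        ∑ l ∈ Finset.range L, DD g l (ρ ξ) (σ ξ)) * G ξ)) = (s ξ * (g (ρ ξ, σ ξ) -
        (g (ρ ξ, -1) + ∑ l ∈ Finset.range L, DD g l (ρ ξ) (σ ξ)))) * G ξ := by ring
    rw [h6, enorm_mul]
    have h7 : ‖G ξ‖ₑ ≤ 1 := by
      rw [← ofReal_norm]
      exact ENNReal.ofReal_le_one.2 (hGb _)
    calc ‖s ξ * (g (ρ ξ, σ ξ) -
        (g (ρ ξ, -1) + ∑ l ∈ Finset.range L, DD g l (ρ ξ) (σ ξ)))‖ₑ * ‖G ξ‖ₑ ≤
        ‖s ξ * (g (ρ ξ, σ ξ) -
        (g (ρ ξ, -1) + ∑ l ∈ Finset.range L, DD g l (ρ ξ) (σ ξ)))‖ₑ * 1 := by gcongr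
      _ = _ := mul_one _
  have hI1 : I1 s ≠ ⊤ := ((I1_le s (hSc.le s hs)).trans_lt (ENNReal.pow_lt_top (by norm_num))).ne
  have hlim : ∀ y, Tendsto (fun L => EE (fL L) y) atTop (𝓝 (EE f y)) := by
    intro y
    rw [tendsto_iff_edist_tendsto_0]
    have h1 : Tendsto (fun L : ℕ => (I1 s) ^ (1 / 2 : ℝ) *
        (A * ENNReal.ofReal (2 / 2 ^ L)) ^ (1 / 2 : ℝ)) atTop (𝓝 0) := by
      have h2 : Tendsto (fun L : ℕ => ENNReal.ofReal (2 / 2 ^ L)) atTop (𝓝 0) := by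
        rw [← ENNReal.ofReal_zero]
        apply ENNReal.tendsto_ofReal
        have h3 : Tendsto (fun L : ℕ => (2 : ℝ) * (1 / 2) ^ L) atTop (𝓝 (2 * 0)) :=
          (tendsto_pow_atTop_nhds_zero_of_lt_one (by norm_num) (by norm_num)).const_mul 2
        rw [mul_zero] at h3
        refine h3.congr fun L => ?_
        rw [one_div, inv_pow]
        rfl
      have h3 : Tendsto (fun L : ℕ => A * ENNReal.ofReal (2 / 2 ^ L)) atTop (𝓝 0) := by
        have := ENNReal.Tendsto.const_mul (a := A) h2 (Or.inr hA)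
        rwa [mul_zero] at this
      have h4 : Tendsto (fun L : ℕ => (A * ENNReal.ofReal (2 / 2 ^ L)) ^ (1 / 2 : ℝ))
          atTop (𝓝 0) := by
        have := (ENNReal.continuous_rpow_const (y := (1 / 2 : ℝ))).tendsto 0
        rw [ENNReal.zero_rpow_of_pos (by norm_num)] at this
        exact this.comp h3
      have := ENNReal.Tendsto.const_mul (a := (I1 s) ^ (1 / 2 : ℝ)) h4
        (Or.inr (ENNReal.rpow_ne_top_of_nonneg (by norm_num) hI1))
      rwa [mul_zero] at this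
    refine tendsto_of_tendsto_of_tendsto_of_le_of_le tendsto_const_nhds h1 (fun _ => zero_le) ?_
    intro L
    simp only
    rw [edist_comm, edist_eq_enorm_sub]
    exact hdiff L y
  have hfatou : ∫⁻ y, ‖EE f y‖ₑ ^ q ≤ (C' * (I1 s) ^ (δ / 2)) ^ q := by
    have h1 : ∀ y, ‖EE f y‖ₑ ^ q = liminf (fun L => ‖EE (fL L) y‖ₑ ^ q) atTop := by
      intro y
      symm
      apply Tendsto.liminf_eq
      exact ((ENNReal.continuous_rpow_const (y := q)).tendsto _).comp (hlim y).enorm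
    simp only [h1]
    refine (lintegral_liminf_le fun L =>
      (EE_meas (hfLm L).1.stronglyMeasurable).enorm.pow_const q).trans ?_
    apply liminf_le_of_le
    · isBoundedDefault
    · intro b hb
      obtain ⟨L, hL⟩ := hb.exists
      refine hL.trans ?_
      have h2 := ENNReal.rpow_le_rpow (hunif L) hq0.le
      unfold eLpNorm' at h2
      rwa [← ENNReal.rpow_mul, one_div_mul_cancel hq0.ne', ENNReal.rpow_one] at h2
  have hgoal : (fun ξ => s ξ * (g (ρ ξ, σ ξ) * G ξ)) = f := rfl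
  show eLpNorm' (EE fun ξ => s ξ * (g (ρ ξ, σ ξ) * G ξ)) q volume ≤ _
  rw [hgoal]
  unfold eLpNorm'
  have h3 := ENNReal.rpow_le_rpow hfatou (by positivity : (0 : ℝ) ≤ 1 / q)
  rwa [← ENNReal.rpow_mul, mul_one_div_cancel hq0.ne', ENNReal.rpow_one] at h3

end Pool.Agent.X146.RP
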