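import Mathlib
import Pool.Agent.X146.RP.L
import Pool.Agent.X146.RP.M
set_option autoImplicit false
set_option linter.unusedSectionVars false
set_option linter.style.haveILetI false

/-! The class of block radial Hilbert tensors and its closure properties. -/

namespace Pool.Agent.X146.RP

open MeasureTheory Set Complex WithLp
open scoped ENNReal NNReal RealInnerProductSpace
open Pool.Agent.TH277.HT
open Pool.Agent.H789R2.FR (E sg)

/-- the variable of a block: the coordinate, or the distance to the centre -/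
noncomputable def rho {k : ℕ} (c η : Fin k → ℝ) : ℝ :=
  if h : k = 1 then η ⟨0, by omega⟩ else Real.sqrt (∑ i, (η i - c i) ^ 2)

lemma rho_meas {k : ℕ} (c : Fin k → ℝ) : Measurable (rho c) := by
  unfold rho
  by_cases h : k = 1
  · simp only [h, dite_true]
    exact measurable_pi_apply _
  · simp only [h, dite_false]
    fun_prop

/-- the factors: bounded by one, vanishing outside the cube, and radial about `c` when there
are at least two coordinates -/
structure BlkC {H : Type} [NormedAddCommGroup H] {k : ℕ} (c : Fin k → ℝ) (F : (Fin k → ℝ) → H) :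
    Prop where
  meas : StronglyMeasurable F
  bd : ∀ η, ‖F η‖ ≤ 1
  supp : ∀ η, η ∉ Icc (-1 : Fin k → ℝ) 1 → F η = 0
  radial : 2 ≤ k → ∀ η η' : Fin k → ℝ,
    ∑ i, (η i - c i) ^ 2 = ∑ i, (η' i - c i) ^ 2 → F η = F η'

section
variable {H : Type} [NormedAddCommGroup H] [InnerProductSpace ℂ H] [CompleteSpace H]

lemma BlkC.blk {k : ℕ} {c : Fin k → ℝ} {F : (Fin k → ℝ) → H} (h : BlkC c F) : Blk F :=
  ⟨h.meas, h.bd, h.supp, fun hk => ⟨c, h.radial hk⟩⟩

lemma BlkC.zero {k : ℕ} (hk : 0 < k) {c : Fin k → ℝ} {F : (Fin k → ℝ) → H} (h : BlkC c F)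
    (η : Fin k → ℝ) (hη : rho c η ∉ Icc (-1 : ℝ) 1) : F η = 0 := by
  unfold rho at hη
  by_cases h1 : k = 1
  · simp only [h1, dite_true] at hη
    apply h.supp
    intro h2
    exact hη ⟨h2.1 _, h2.2 _⟩
  · simp only [h1, dite_false] at hη
    have hc := h.radial (by omega)
    have h3 : 1 < Real.sqrt (∑ i, (η i - c i) ^ 2) := by
      by_contra h4
      exact hη ⟨by linarith [Real.sqrt_nonneg (∑ i, (η i - c i) ^ 2)], not_lt.1 h4⟩
    have h5 := F_rad hk h.blk c hc (η - c)
    rw [sub_add_cancel] at h5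
    rw [h5]
    apply rad_zero
    rw [EuclideanSpace.norm_eq]
    simpa using h3

lemma rho_eq {k : ℕ} (hk : 2 ≤ k) (c : Fin k → ℝ) {η η' : Fin k → ℝ}
    (h : ∑ i, (η i - c i) ^ 2 = ∑ i, (η' i - c i) ^ 2) : rho c η = rho c η' := by
  unfold rho
  have h1 : k ≠ 1 := by omega
  simp only [h1, dite_false, h]

variable {n r : ℕ} {k : Fin r → ℕ}

/-- the class -/
def SB (e : (Σ j, Fin (k j)) ≃ Fin n) (c : ∀ j, Fin (k j) → ℝ) (s : (Fin n → ℝ) → ℂ) : Prop :=
  ∃ (H : Type) (_ : NormedAddCommGroup H) (_ : InnerProductSpace ℂ H) (_ : CompleteSpace H)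
    (M : ContinuousMultilinearMap ℂ (fun _ : Fin r => H) ℂ) (F : ∀ j, (Fin (k j) → ℝ) → H),
    ‖M‖ ≤ 1 ∧ (∀ j, BlkC (c j) (F j)) ∧ ∀ ξ, s ξ = ten e M F ξ

/-- the variables -/
noncomputable def rr (e : (Σ j, Fin (k j)) ≃ Fin n) (c : ∀ j, Fin (k j) → ℝ) (j : Fin r)
    (ξ : Fin n → ℝ) : ℝ := rho (c j) fun i => ξ (e ⟨j, i⟩)

lemma rr_meas (e : (Σ j, Fin (k j)) ≃ Fin n) (c : ∀ j, Fin (k j) → ℝ) (j : Fin r) :
    Measurable (rr e c j) := by
  unfold rr
  have h := (rho_meas (c j)).comp (by fun_prop :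
    Measurable fun ξ : Fin n → ℝ => fun i => ξ (e ⟨j, i⟩))
  simp only [Function.comp_def] at h
  exact h

lemma SB_cls (e : (Σ j, Fin (k j)) ≃ Fin n) (c : ∀ j, Fin (k j) → ℝ) : Cls (SB e c) := by
  constructor
  · intro s hs
    obtain ⟨H, i1, i2, i3, M, F, hM, hF, h⟩ := hs
    have h1 : s = ten e M F := funext h
    rw [h1]
    exact ten_meas e M F fun j => (hF j).blk
  · intro s hs ξ
    obtain ⟨H, i1, i2, i3, M, F, hM, hF, h⟩ := hs
    rw [h ξ]
    unfold ten
    refine (M.le_opNorm _).trans ?_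
    calc ‖M‖ * ∏ j, ‖F j fun i => ξ (e ⟨j, i⟩)‖ ≤ 1 * ∏ _j : Fin r, (1 : ℝ) := by
          gcongr with j
          exact (hF j).bd _
      _ = 1 := by simp

lemma SB_supp (e : (Σ j, Fin (k j)) ≃ Fin n) (c : ∀ j, Fin (k j) → ℝ) (hk : ∀ j, 0 < k j)
    (j : Fin r) (s : (Fin n → ℝ) → ℂ) (hs : SB e c s) (ξ : Fin n → ℝ)
    (hξ : rr e c j ξ ∉ Icc (-1 : ℝ) 1) : s ξ = 0 := by
  obtain ⟨H, i1, i2, i3, M, F, hM, hF, h⟩ := hs
  rw [h ξ]
  unfold ten
  exact M.map_coord_zero j ((hF j).zero (hk j) _ hξ)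

lemma SB_one (e : (Σ j, Fin (k j)) ≃ Fin n) (c : ∀ j, Fin (k j) → ℝ) (i : Fin r)
    (s : (Fin n → ℝ) → ℂ) (hs : SB e c s) (f : ℝ → ℂ)
    (hf : Measurable f) (hb : ∀ u, ‖f u‖ ≤ 1) : SB e c (fun ξ => s ξ * f (rr e c i ξ)) := by
  obtain ⟨H, i1, i2, i3, M, F, hM, hF, h⟩ := hs
  refine ⟨H, i1, i2, i3, M, fun j η => (if j = i then f (rho (c j) η) else 1) • F j η, hM, ?_, ?_⟩
  · intro j
    constructor
    · apply StronglyMeasurable.smul _ (hF j).meas
      by_cases hj : j = i
      · simp only [hj, if_true]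
        exact (hf.comp (rho_meas _)).stronglyMeasurable
      · simp only [hj, if_false]
        exact stronglyMeasurable_const
    · intro u
      rw [norm_smul]
      have h1 : ‖(if j = i then f (rho (c j) u) else 1 : ℂ)‖ ≤ 1 := by
        by_cases hj : j = i
        · simp only [hj, if_true]
          exact hb _
        · simp only [hj, if_false, norm_one]
          exact le_refl _
      calc ‖(if j = i then f (rho (c j) u) else 1 : ℂ)‖ * ‖F j u‖ ≤ 1 * 1 :=
            mul_le_mul h1 ((hF j).bd u) (norm_nonneg _) zero_le_one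
        _ = 1 := _root_.mul_one 1
    · intro η hη
      show (if j = i then f (rho (c j) η) else 1) • F j η = 0
      rw [(hF j).supp η hη, smul_zero]
    · intro hk η η' hηη
      show (if j = i then f (rho (c j) η) else 1) • F j η =
        (if j = i then f (rho (c j) η') else 1) • F j η'
      rw [(hF j).radial hk η η' hηη, rho_eq hk (c j) hηη]
  · intro ξ
    show s ξ * f (rr e c i ξ) = _
    unfold ten rr
    rw [ContinuousMultilinearMap.map_smul_univ (f := M)
      (c := fun j => if j = i then f (rho (c j) fun i => ξ (e ⟨j, i⟩)) else 1)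
      (m := fun j => F j fun i => ξ (e ⟨j, i⟩)), h ξ, smul_eq_mul, mul_comm]
    congr 1
    rw [Finset.prod_ite_eq' Finset.univ i (fun j => f (rho (c j) fun i => ξ (e ⟨j, i⟩)))]
    simp

lemma SB_pair (e : (Σ j, Fin (k j)) ≃ Fin n) (c : ∀ j, Fin (k j) → ℝ) {i j : Fin r} (hij : i ≠ j)
    (s : (Fin n → ℝ) → ℂ) (hs : SB e c s)
    (N : ℕ) (hN : 0 < N) (d ψ : Fin N → ℝ → ℂ) (hd : ∀ k, Measurable (d k))
    (hψ : ∀ k, Measurable (ψ k)) (hd1 : ∀ u, ∑ k, ‖d k u‖ ^ 2 ≤ 1)
    (hψ1 : ∀ u, ∑ k, ‖ψ k u‖ ^ 2 ≤ 1) :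
    SB e c (fun ξ => s ξ * ∑ k, d k (rr e c i ξ) * ψ k (rr e c j ξ)) := by
  obtain ⟨H, i1, i2, i3, M, F, hM, hF, h⟩ := hs
  set k0 : Fin N := ⟨0, hN⟩ with hk0
  -- the index maps
  set κ : Fin r → Fin N → Fin N := fun m k => if m = i ∨ m = j then k else k0 with hκ
  set H' := PiLp 2 (fun _ : Fin N => H) with hH'
  set pr : Fin N → H' →L[ℂ] H := fun k => PiLp.proj 2 (fun _ : Fin N => H) k with hpr
  have hprn : ∀ (x : H') (k : Fin N), ‖pr k x‖ ≤ ‖x‖ := by
    intro x k
    exact PiLp.norm_apply_le x k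
  set M' : ContinuousMultilinearMap ℂ (fun _ : Fin r => H') ℂ :=
    ∑ k, M.compContinuousLinearMap fun m => pr (κ m k) with hM'
  have hM'a : ∀ X : Fin r → H', M' X = ∑ k, M fun m => pr (κ m k) (X m) := by
    intro X
    rw [hM', sum_apply]
    rfl
  -- the coefficients
  set cf : Fin r → Fin N → ℝ → ℂ := fun m k u =>
    if m = i then d k u else if m = j then ψ k u else if k = k0 then 1 else 0 with hcf
  have hcfm : ∀ m k, Measurable (cf m k) := by
    intro m k
    simp only [hcf]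
    by_cases h1 : m = i
    · simp only [h1, if_true]
      exact hd k
    · by_cases h2 : m = j
      · simp only [h2, hij.symm, if_true, if_false]
        exact hψ k
      · simp only [h1, h2, if_false]
        exact measurable_const
  have hcfb : ∀ m u, ∑ k, ‖cf m k u‖ ^ 2 ≤ 1 := by
    intro m u
    simp only [hcf]
    by_cases h1 : m = i
    · simp only [h1, if_true]
      exact hd1 u
    · by_cases h2 : m = j
      · simp only [h2, hij.symm, if_true, if_false]
        exact hψ1 u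
      · simp only [h1, h2, if_false]
        rw [Finset.sum_eq_single k0]
        · simp
        · intro k _ hk
          simp [hk]
        · intro hk
          exact absurd (Finset.mem_univ _) hk
  set F' : ∀ m : Fin r, (Fin (k m) → ℝ) → H' := fun m u =>
    WithLp.toLp 2 fun l => cf m l (rho (c m) u) • F m u with hF'
  have hpra : ∀ m l u, pr l (F' m u) = cf m l (rho (c m) u) • F m u := fun m l u => rfl
  refine ⟨H', inferInstance, inferInstance, inferInstance, M', F', ?_, ?_, ?_⟩
  · apply ContinuousMultilinearMap.opNorm_le_bound zero_le_one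
    intro X
    rw [hM'a, one_mul]
    have hsplit : ∀ f : Fin r → ℝ, ∏ m, f m =
        f i * (f j * ∏ m ∈ (Finset.univ.erase i).erase j, f m) := by
      intro f
      rw [← Finset.mul_prod_erase Finset.univ f (Finset.mem_univ i),
        ← Finset.mul_prod_erase (Finset.univ.erase i) f
          (Finset.mem_erase.2 ⟨hij.symm, Finset.mem_univ j⟩)]
    set P : ℝ := ∏ m ∈ (Finset.univ.erase i).erase j, ‖X m‖ with hP
    have hP0 : 0 ≤ P := Finset.prod_nonneg fun m _ => norm_nonneg _
    have hk : ∀ k : Fin N, ‖M fun m => pr (κ m k) (X m)‖ ≤ ‖X i k‖ * ‖X j k‖ * P := by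
      intro k
      refine (M.le_opNorm _).trans ?_
      calc ‖M‖ * ∏ m, ‖pr (κ m k) (X m)‖ ≤ 1 * ∏ m, ‖pr (κ m k) (X m)‖ := by
            gcongr
        _ = ∏ m, ‖pr (κ m k) (X m)‖ := one_mul _
        _ = ‖pr (κ i k) (X i)‖ * (‖pr (κ j k) (X j)‖ *
            ∏ m ∈ (Finset.univ.erase i).erase j, ‖pr (κ m k) (X m)‖) := hsplit _
        _ ≤ ‖X i k‖ * (‖X j k‖ * P) := by
            have e1 : κ i k = k := by simp [hκ]
            have e2 : κ j k = k := by simp [hκ]
            rw [e1, e2]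
            have e3 : ∏ m ∈ (Finset.univ.erase i).erase j, ‖pr (κ m k) (X m)‖ ≤ P := by
              rw [hP]
              gcongr with m
              exact hprn _ _
            have e4 : ∀ x : H', ‖pr k x‖ = ‖x k‖ := fun x => rfl
            rw [e4, e4]
            gcongr
        _ = ‖X i k‖ * ‖X j k‖ * P := by ring
    calc ‖∑ k, M fun m => pr (κ m k) (X m)‖ ≤ ∑ k, ‖M fun m => pr (κ m k) (X m)‖ :=
          norm_sum_le _ _
      _ ≤ ∑ k, ‖X i k‖ * ‖X j k‖ * P := Finset.sum_le_sum fun k _ => hk k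
      _ = (∑ k, ‖X i k‖ * ‖X j k‖) * P := by rw [Finset.sum_mul]
      _ ≤ (‖X i‖ * ‖X j‖) * P := by
          gcongr
          have hcs := Finset.sum_mul_sq_le_sq_mul_sq Finset.univ (fun k => ‖X i k‖)
            (fun k => ‖X j k‖)
          rw [← PiLp.norm_sq_eq_of_L2, ← PiLp.norm_sq_eq_of_L2, ← mul_pow] at hcs
          exact le_of_sq_le_sq hcs (by positivity)
      _ = ∏ m, ‖X m‖ := by rw [hsplit fun m => ‖X m‖]; ring
  · intro m
    constructor
    · have h1 : F' m = (fun x : Fin N → H => (WithLp.toLp 2 x : H')) ∘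
          fun u => (fun l => cf m l (rho (c m) u) • F m u) := rfl
      rw [h1]
      apply (PiLp.continuous_toLp 2 (fun _ : Fin N => H)).comp_stronglyMeasurable
      exact tuple_meas (fun (l : Fin N) (u : Fin (k m) → ℝ) => cf m l (rho (c m) u) • F m u)
        fun l => ((hcfm m l).comp (rho_meas (c m))).stronglyMeasurable.smul (hF m).meas
    · intro u
      have h1 : ‖F' m u‖ ^ 2 ≤ 1 ^ 2 := by
        rw [PiLp.norm_sq_eq_of_L2]
        calc ∑ l, ‖(F' m u) l‖ ^ 2 = ∑ l, ‖cf m l (rho (c m) u)‖ ^ 2 * ‖F m u‖ ^ 2 := by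
              apply Finset.sum_congr rfl
              intro l _
              have : (F' m u) l = cf m l (rho (c m) u) • F m u := rfl
              rw [this, norm_smul, mul_pow]
          _ = (∑ l, ‖cf m l (rho (c m) u)‖ ^ 2) * ‖F m u‖ ^ 2 := by rw [Finset.sum_mul]
          _ ≤ 1 * 1 ^ 2 := by
              gcongr
              · exact hcfb m _
              · exact (hF m).bd u
          _ = 1 ^ 2 := by norm_num
      exact le_of_sq_le_sq h1 zero_le_one
    · intro η hη
      have h1 : F' m η = WithLp.toLp 2 fun l => cf m l (rho (c m) η) • F m η := rfl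
      rw [h1, (hF m).supp η hη]
      simp only [smul_zero]
      rfl
    · intro hk η η' hηη
      have h1 : ∀ η, F' m η = WithLp.toLp 2 fun l => cf m l (rho (c m) η) • F m η := fun _ => rfl
      rw [h1, h1, (hF m).radial hk η η' hηη, rho_eq hk (c m) hηη]
  · intro ξ
    show s ξ * ∑ l, d l (rr e c i ξ) * ψ l (rr e c j ξ) = _
    unfold ten
    rw [hM'a, h ξ, Finset.mul_sum]
    apply Finset.sum_congr rfl
    intro l _
    simp only [hpra]
    rw [ContinuousMultilinearMap.map_smul_univ, smul_eq_mul, mul_comm]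
    unfold ten
    congr 1
    have hsplit : ∀ f : Fin r → ℂ, ∏ m, f m =
        f i * (f j * ∏ m ∈ (Finset.univ.erase i).erase j, f m) := by
      intro f
      rw [← Finset.mul_prod_erase Finset.univ f (Finset.mem_univ i),
        ← Finset.mul_prod_erase (Finset.univ.erase i) f
          (Finset.mem_erase.2 ⟨hij.symm, Finset.mem_univ j⟩)]
    rw [hsplit fun m => cf m (κ m l) (rho (c m) fun i => ξ (e ⟨m, i⟩))]
    have e1 : κ i l = l := by simp [hκ]
    have e2 : κ j l = l := by simp [hκ]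
    have e3 : ∏ m ∈ (Finset.univ.erase i).erase j,
        cf m (κ m l) (rho (c m) fun i => ξ (e ⟨m, i⟩)) = 1 := by
      apply Finset.prod_eq_one
      intro m hm
      have h1 : m ≠ j := (Finset.mem_erase.1 hm).1
      have h2 : m ≠ i := (Finset.mem_erase.1 (Finset.mem_erase.1 hm).2).1
      simp [hκ, hcf, h1, h2]
    rw [e1, e2, e3, _root_.mul_one]
    simp [hcf, hij.symm, rr]

end

end Pool.Agent.X146.RP
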