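import Mathlib
import Pool.Agent.X146.RP.N
set_option autoImplicit false
set_option linter.unusedSectionVars false
set_option linter.style.haveILetI false

/-! Integration of functions of two block variables. -/

namespace Pool.Agent.X146.RP

open MeasureTheory Set Complex WithLp
open scoped ENNReal NNReal RealInnerProductSpace
open Pool.Agent.TH277.HT
open Pool.Agent.H789R2.FR (E sg)

/-- the constant of a block -/
noncomputable def Ak (k : ℕ) : ℝ≥0∞ := 1 + sg k univ

lemma Ak_ne (k : ℕ) : Ak k ≠ ∞ := by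
  haveI := Pool.Agent.H789R2.FR.sg_finite k
  unfold Ak
  exact ENNReal.add_ne_top.2 ⟨ENNReal.one_ne_top, measure_ne_top _ _⟩

lemma inner_bd {k : ℕ} (hk : 0 < k) (c : Fin k → ℝ) (Φ : ℝ → ℝ≥0∞) (hΦ : Measurable Φ) (B : ℝ≥0∞)
    (hB : ∫⁻ v in Icc (-1 : ℝ) 1, Φ v ≤ B) :
    ∫⁻ x in Icc (-1 : Fin k → ℝ) 1 ∩ {x | rho c x ∈ Icc (-1 : ℝ) 1}, Φ (rho c x) ≤ Ak k * B := by
  have hDm : MeasurableSet (Icc (-1 : Fin k → ℝ) 1 ∩ {x | rho c x ∈ Icc (-1 : ℝ) 1}) :=
    measurableSet_Icc.inter ((rho_meas c) measurableSet_Icc)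
  have hB1 : ∫⁻ v in Icc (-1 : ℝ) 1, Φ v ≤ Ak k * B := by
    refine hB.trans ?_
    calc B = 1 * B := (one_mul B).symm
      _ ≤ Ak k * B := by
          gcongr
          unfold Ak
          exact le_self_add
  rcases Nat.lt_or_ge k 2 with h2 | h2
  · obtain rfl : k = 1 := by omega
    refine le_trans ?_ hB1
    have hmp := volume_preserving_funUnique (Fin 1) ℝ
    rw [← lintegral_indicator hDm, ← lintegral_indicator measurableSet_Icc,
      ← hmp.lintegral_comp_emb (MeasurableEquiv.measurableEmbedding _)]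
    apply lintegral_mono
    intro x
    have h3 : rho c x = x 0 := by
      unfold rho
      simp
    have h4 : (MeasurableEquiv.funUnique (Fin 1) ℝ) x = x 0 := rfl
    simp only [h4]
    by_cases h5 : x ∈ Icc (-1 : Fin 1 → ℝ) 1 ∩ {x | rho c x ∈ Icc (-1 : ℝ) 1}
    · rw [indicator_of_mem h5, h3, indicator_of_mem]
      have h6 := h5.2
      rw [mem_ofPred_eq, h3] at h6
      exact h6
    · rw [indicator_of_notMem h5]
      exact zero_le
  · haveI := Pool.Agent.H789R2.FR.sg_finite k
    have hI : Measurable ((Icc (-1 : ℝ) 1).indicator Φ) := hΦ.indicator measurableSet_Icc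
    have hmp : MeasurePreserving (MeasurableEquiv.toLp 2 (Fin k → ℝ)) :=
      PiLp.volume_preserving_toLp (Fin k)
    rw [← lintegral_indicator hDm]
    calc ∫⁻ x, (Icc (-1 : Fin k → ℝ) 1 ∩ {x | rho c x ∈ Icc (-1 : ℝ) 1}).indicator
          (fun x => Φ (rho c x)) x
        ≤ ∫⁻ x : Fin k → ℝ, (Icc (-1 : ℝ) 1).indicator Φ ‖(toLp 2 (x + -c) : E k)‖ := by
          apply lintegral_mono
          intro x
          have h3 : rho c x = ‖(toLp 2 (x + -c) : E k)‖ := by
            unfold rho
            have h1 : k ≠ 1 := by omega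
            simp only [h1, dite_false]
            rw [EuclideanSpace.norm_eq]
            congr 1
            apply Finset.sum_congr rfl
            intro i _
            simp
            ring
          by_cases h5 : x ∈ Icc (-1 : Fin k → ℝ) 1 ∩ {x | rho c x ∈ Icc (-1 : ℝ) 1}
          · rw [indicator_of_mem h5]
            show Φ (rho c x) ≤ (Icc (-1 : ℝ) 1).indicator Φ ‖(toLp 2 (x + -c) : E k)‖
            rw [← h3, indicator_of_mem]
            exact h5.2
          · rw [indicator_of_notMem h5]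
            exact zero_le
      _ = ∫⁻ x : Fin k → ℝ, (Icc (-1 : ℝ) 1).indicator Φ ‖(toLp 2 x : E k)‖ :=
          lintegral_add_right_eq_self
            (fun x : Fin k → ℝ => (Icc (-1 : ℝ) 1).indicator Φ ‖(toLp 2 x : E k)‖) (-c)
      _ = ∫⁻ x : E k, (Icc (-1 : ℝ) 1).indicator Φ ‖x‖ := by
          rw [← hmp.lintegral_comp_emb (MeasurableEquiv.measurableEmbedding _)]
          rfl
      _ = ∫⁻ w, (∫⁻ r in Ioi (0 : ℝ), ENNReal.ofReal (r ^ (k - 1)) *
          (Icc (-1 : ℝ) 1).indicator Φ ‖r • w‖) ∂(sg k) :=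
          Pool.Agent.H789R2.FR.polar hk (fun x : E k => (Icc (-1 : ℝ) 1).indicator Φ ‖x‖)
            (hI.comp measurable_norm)
      _ ≤ ∫⁻ _w, B ∂(sg k) := by
          apply lintegral_mono_ae
          filter_upwards [Pool.Agent.H789R2.FR.sg_ae k] with w hw
          refine le_trans ?_ hB
          rw [← lintegral_indicator measurableSet_Ioi, ← lintegral_indicator measurableSet_Icc]
          apply lintegral_mono
          intro r
          by_cases hr : r ∈ Ioi (0 : ℝ)
          · have hr0 : (0 : ℝ) < r := hr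
            rw [indicator_of_mem hr, norm_smul, hw, mul_one, Real.norm_of_nonneg hr0.le]
            by_cases hr1 : r ∈ Icc (-1 : ℝ) 1
            · rw [indicator_of_mem hr1]
              have h3 : ENNReal.ofReal (r ^ (k - 1)) ≤ 1 :=
                ENNReal.ofReal_le_one.2 (pow_le_one₀ hr0.le hr1.2)
              calc ENNReal.ofReal (r ^ (k - 1)) * Φ r ≤ 1 * Φ r := by gcongr
                _ = Φ r := one_mul _
            · rw [indicator_of_notMem hr1, mul_zero]
          · rw [indicator_of_notMem hr]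
            exact zero_le
      _ = sg k univ * B := by
          rw [lintegral_const, mul_comm]
      _ ≤ Ak k * B := by
          gcongr
          unfold Ak
          exact le_add_self

lemma sb0 {n : ℕ} {X : Fin (n + 1) → Type} [∀ i, MeasurableSpace (X i)] (j : Fin (n + 1))
    (p : X j × (∀ a, X (Fin.succAbove j a))) :
    (MeasurableEquiv.piFinSuccAbove X j).symm p j = p.1 :=
  Fin.insertNth_apply_same (α := X) j p.1 p.2

lemma sb1 {n : ℕ} {X : Fin (n + 1) → Type} [∀ i, MeasurableSpace (X i)] (j : Fin (n + 1))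
    (p : X j × (∀ a, X (Fin.succAbove j a))) (a : Fin n) :
    (MeasurableEquiv.piFinSuccAbove X j).symm p (Fin.succAbove j a) = p.2 a :=
  Fin.insertNth_apply_succAbove (α := X) j p.1 p.2 a

/-- Integration over the cube of a function of two block variables. -/
lemma SB_cube {n r : ℕ} {k : Fin r → ℕ} (e : (Σ j, Fin (k j)) ≃ Fin n) (c : ∀ j, Fin (k j) → ℝ)
    (hk : ∀ j, 0 < k j) {i j : Fin r} (hij : i ≠ j) (Φ : ℝ × ℝ → ℝ≥0∞) (hΦ : Measurable Φ)
    (B : ℝ≥0∞) (hB : ∀ u, ∫⁻ v in Icc (-1 : ℝ) 1, Φ (u, v) ≤ B) :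
    ∫⁻ ξ in Icc (-1 : Fin n → ℝ) 1 ∩ {ξ | rr e c j ξ ∈ Icc (-1 : ℝ) 1},
      Φ (rr e c i ξ, rr e c j ξ) ≤ 2 ^ n * Ak (k j) * B := by
  obtain ⟨m, rfl⟩ : ∃ m, r = m + 1 := ⟨r - 1, by have := i.2; omega⟩
  obtain ⟨i', rfl⟩ := Fin.exists_succAbove_eq hij
  have hsum : ∑ j, k j = n := by
    have h1 := Fintype.card_congr e
    rw [Fintype.card_sigma, Fintype.card_fin] at h1
    simpa using h1
  have h1 := (measurePreserving_piFinSuccAbove
    (fun a : Fin (m + 1) => (volume : Measure (Fin (k a) → ℝ))) j).symm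
  have hDm : MeasurableSet (Icc (-1 : Fin n → ℝ) 1 ∩ {ξ | rr e c j ξ ∈ Icc (-1 : ℝ) 1}) :=
    measurableSet_Icc.inter ((rr_meas e c j) measurableSet_Icc)
  rw [← lintegral_indicator hDm,
    ← (grp_mp e).lintegral_comp_emb (MeasurableEquiv.measurableEmbedding _), volume_pi,
    ← h1.lintegral_comp_emb (MeasurableEquiv.measurableEmbedding _)]
  set Dj : Set (Fin (k j) → ℝ) := Icc (-1 : Fin (k j) → ℝ) 1 ∩ {x | rho (c j) x ∈ Icc (-1 : ℝ) 1}
    with hDj
  have hDjm : MeasurableSet Dj := measurableSet_Icc.inter ((rho_meas (c j)) measurableSet_Icc)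
  set Cy : Set (∀ a : Fin m, Fin (k (j.succAbove a)) → ℝ) :=
    univ.pi fun a => Icc (-1 : Fin (k (j.succAbove a)) → ℝ) 1 with hCy
  have hCym : MeasurableSet Cy := MeasurableSet.univ_pi fun a => measurableSet_Icc
  have hrr : ∀ (a : Fin (m + 1)) (η : ∀ a, Fin (k a) → ℝ), rr e c a (grp e η) = rho (c a) (η a) := by
    intro a η
    unfold rr
    simp only [grp_apply]
  have h2 : ∀ p : (Fin (k j) → ℝ) × (∀ a : Fin m, Fin (k (j.succAbove a)) → ℝ),
      (Icc (-1 : Fin n → ℝ) 1 ∩ {ξ | rr e c j ξ ∈ Icc (-1 : ℝ) 1}).indicator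
      (fun ξ => Φ (rr e c (j.succAbove i') ξ, rr e c j ξ)) (grp e
        ((MeasurableEquiv.piFinSuccAbove (fun a : Fin (m + 1) => Fin (k a) → ℝ) j).symm p)) ≤
      (Dj ×ˢ Cy).indicator (fun p => Φ (rho (c (j.succAbove i')) (p.2 i'), rho (c j) p.1)) p := by
    intro p
    set η : ∀ a, Fin (k a) → ℝ :=
      (MeasurableEquiv.piFinSuccAbove (fun a : Fin (m + 1) => Fin (k a) → ℝ) j).symm p with hη
    have e1 : η j = p.1 := sb0 (X := fun a : Fin (m + 1) => Fin (k a) → ℝ) j p
    have e2 : ∀ a, η (j.succAbove a) = p.2 a := fun a =>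
      sb1 (X := fun a : Fin (m + 1) => Fin (k a) → ℝ) j p a
    by_cases hc : grp e η ∈ Icc (-1 : Fin n → ℝ) 1 ∩ {ξ | rr e c j ξ ∈ Icc (-1 : ℝ) 1}
    · have hin : ∀ a, η a ∈ Icc (-1 : Fin (k a) → ℝ) 1 := by
        intro a
        constructor
        · intro b
          have := hc.1.1 (e ⟨a, b⟩)
          rw [grp_apply] at this
          exact this
        · intro b
          have := hc.1.2 (e ⟨a, b⟩)
          rw [grp_apply] at this
          exact this
      have h3 := hc.2
      rw [mem_ofPred_eq, hrr] at h3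
      rw [indicator_of_mem hc, hrr, hrr, indicator_of_mem, e1, e2]
      refine ⟨⟨?_, ?_⟩, ?_⟩
      · rw [← e1]
        exact hin j
      · rw [mem_ofPred_eq, ← e1]
        exact h3
      · intro a _
        rw [← e2]
        exact hin _
    · rw [indicator_of_notMem hc]
      exact zero_le
  refine (lintegral_mono h2).trans ?_
  have hm2 : Measurable fun p : (Fin (k j) → ℝ) × (∀ a : Fin m, Fin (k (j.succAbove a)) → ℝ) =>
      (Dj ×ˢ Cy).indicator (fun p => Φ (rho (c (j.succAbove i')) (p.2 i'), rho (c j) p.1)) p := by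
    apply Measurable.indicator _ (hDjm.prod hCym)
    have g1 : Measurable fun p : (Fin (k j) → ℝ) × (∀ a : Fin m, Fin (k (j.succAbove a)) → ℝ) =>
        rho (c (j.succAbove i')) (p.2 i') := by
      have := (rho_meas (c (j.succAbove i'))).comp
        (((measurable_pi_apply i').comp measurable_snd) : Measurable
        fun p : (Fin (k j) → ℝ) × (∀ a : Fin m, Fin (k (j.succAbove a)) → ℝ) => p.2 i')
      simp only [Function.comp_def] at this
      exact this
    have g2 : Measurable fun p : (Fin (k j) → ℝ) × (∀ a : Fin m, Fin (k (j.succAbove a)) → ℝ) =>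
        rho (c j) p.1 := (rho_meas (c j)).comp measurable_fst
    have g3 := hΦ.comp (g1.prodMk g2)
    simp only [Function.comp_def] at g3
    exact g3
  rw [lintegral_prod_symm _ hm2.aemeasurable]
  calc ∫⁻ y, ∫⁻ x, (Dj ×ˢ Cy).indicator
        (fun p => Φ (rho (c (j.succAbove i')) (p.2 i'), rho (c j) p.1)) (x, y)
        ∂volume ∂(Measure.pi fun a : Fin m => (volume : Measure (Fin (k (j.succAbove a)) → ℝ)))
      ≤ ∫⁻ y, Cy.indicator (fun _ => Ak (k j) * B) y
        ∂(Measure.pi fun a : Fin m => (volume : Measure (Fin (k (j.succAbove a)) → ℝ))) := by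
        apply lintegral_mono
        intro y
        simp only
        by_cases h5 : y ∈ Cy
        · rw [indicator_of_mem h5]
          have h6 : ∀ x, (Dj ×ˢ Cy).indicator
              (fun p => Φ (rho (c (j.succAbove i')) (p.2 i'), rho (c j) p.1)) (x, y) =
              Dj.indicator (fun x => Φ (rho (c (j.succAbove i')) (y i'), rho (c j) x)) x := by
            intro x
            by_cases h7 : x ∈ Dj
            · rw [indicator_of_mem h7, indicator_of_mem (mk_mem_prod h7 h5)]
            · rw [indicator_of_notMem h7, indicator_of_notMem fun h8 => h7 h8.1]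
          simp only [h6]
          rw [lintegral_indicator hDjm]
          exact inner_bd (hk j) (c j) (fun v => Φ (rho (c (j.succAbove i')) (y i'), v))
            (hΦ.comp measurable_prodMk_left) B (hB _)
        · rw [indicator_of_notMem h5]
          have h6 : ∀ x, (Dj ×ˢ Cy).indicator
              (fun p => Φ (rho (c (j.succAbove i')) (p.2 i'), rho (c j) p.1)) (x, y) = 0 :=
            fun x => indicator_of_notMem (fun h8 => h5 h8.2) _
          simp only [h6]
          simp
    _ = Ak (k j) * B * ∏ a : Fin m, (2 : ℝ≥0∞) ^ (k (j.succAbove a)) := by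
        rw [lintegral_indicator hCym, setLIntegral_const, hCy, Measure.pi_pi]
        simp only [cube_vol]
    _ ≤ Ak (k j) * B * 2 ^ n := by
        gcongr
        rw [Finset.prod_pow_eq_pow_sum]
        apply pow_le_pow_right₀ (by norm_num)
        rw [← hsum, Fin.sum_univ_succAbove k j]
        omega
    _ = 2 ^ n * Ak (k j) * B := by ring

end Pool.Agent.X146.RP
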