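import Mathlib
import Pool.Agent.X146.RP.O
set_option autoImplicit false
set_option linter.unusedSectionVars false
set_option linter.style.haveILetI false

/-! The main estimate for block radial tensors times functions of bounded `2`-variation. -/

namespace Pool.Agent.X146.RP

open MeasureTheory Set Complex Filter Topology
open scoped ENNReal NNReal
open Pool.Agent.TH277.HT

attribute [local irreducible] PP W E1 DD

/-- the constant for all blocks -/
noncomputable def AA (n : ℕ) : ℝ≥0∞ := 2 ^ n * ∑ m ∈ Finset.range (n + 1), Ak m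

lemma AA_ne (n : ℕ) : AA n ≠ ∞ := by
  unfold AA
  apply ENNReal.mul_ne_top (ENNReal.pow_ne_top (by norm_num))
  exact ENNReal.sum_ne_top.2 fun m _ => Ak_ne m

lemma SB_Pair {n r : ℕ} {k : Fin r → ℕ} (e : (Σ j, Fin (k j)) ≃ Fin n) (c : ∀ j, Fin (k j) → ℝ)
    (hk : ∀ j, 0 < k j) {i j : Fin r} (hij : i ≠ j) :
    Pair (SB e c) (AA n) (rr e c i) (rr e c j) := by
  refine ⟨rr_meas e c i, rr_meas e c j, SB_supp e c hk j, fun s hs f hf hb => SB_one e c i s hs f hf hb,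
    fun s hs N hN d ψ hd hψ hd1 hψ1 => SB_pair e c hij s hs N hN d ψ hd hψ hd1 hψ1, ?_⟩
  intro Φ hΦ B hB
  refine (SB_cube e c hk hij Φ hΦ B hB).trans ?_
  unfold AA
  gcongr
  have hsum : ∑ j, k j = n := by
    have h1 := Fintype.card_congr e
    rw [Fintype.card_sigma, Fintype.card_fin] at h1
    simpa using h1
  have hkn : k j ≤ n := by
    rw [← hsum]
    exact Finset.single_le_sum (fun i _ => Nat.zero_le _) (Finset.mem_univ j)
  exact Finset.single_le_sum (f := Ak) (fun i _ => zero_le) (Finset.mem_range.2 (by omega))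

lemma goodS_one (n : ℕ) (hn : 2 ≤ n) (q : ℝ) (hq : 2 * ((n : ℝ) + 1) / n < q) :
    ∃ C : ℝ≥0∞, C ≠ ⊤ ∧ ∃ δ : ℝ, 0 < δ ∧ ∀ (r : ℕ) (k : Fin r → ℕ)
      (e : (Σ j, Fin (k j)) ≃ Fin n) (c : ∀ j, Fin (k j) → ℝ), (∀ j, 0 < k j) →
      GoodS (SB e c) q C δ fun _ => 1 := by
  set q1 : ℝ := (q + 2 * ((n : ℝ) + 1) / n) / 2 with hq1
  have hn2 : (2 : ℝ) ≤ n := by exact_mod_cast hn
  have hn0 : (0 : ℝ) < n := by linarith
  have hc0 : 0 < 2 * ((n : ℝ) + 1) / n := by positivity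
  have hq0 : 0 < q := by linarith
  have h1 : 2 * ((n : ℝ) + 1) / n < q1 := by rw [hq1]; linarith
  have h2 : q1 < q := by rw [hq1]; linarith
  obtain ⟨C, hC⟩ := blocks n hn q1 h1
  refine ⟨(C : ℝ≥0∞) ^ (1 / q), ENNReal.rpow_ne_top_of_nonneg (by positivity) ENNReal.coe_ne_top,
    (q - q1) * (1 / q), by
      have : 0 < q - q1 := by linarith
      positivity, ?_⟩
  intro r k e c hk s hs
  have hSc := SB_cls e c
  simp only [mul_one]
  show eLpNorm' (EE s) q volume ≤ _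
  have hm := (EE_meas (hSc.meas s hs)).enorm
  have hb : ∫⁻ y, ‖EE s y‖ₑ ^ q1 ≤ C := by
    obtain ⟨H, i1, i2, i3, M, F, hM, hF, h⟩ := hs
    have h5 : s = ten e M F := funext h
    rw [h5]
    exact hC r k e hk H M F hM fun j => (hF j).blk
  have h3 : ∫⁻ y, ‖EE s y‖ₑ ^ q ≤ (I1 s) ^ (q - q1) * C := by
    calc ∫⁻ y, ‖EE s y‖ₑ ^ q ≤ ∫⁻ y, (I1 s) ^ (q - q1) * ‖EE s y‖ₑ ^ q1 := by
          apply lintegral_mono
          intro y
          simp only
          have h4 : ‖EE s y‖ₑ ^ q = ‖EE s y‖ₑ ^ (q - q1) * ‖EE s y‖ₑ ^ q1 := by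
            rw [← ENNReal.rpow_add_of_nonneg _ _ (by linarith) (by linarith)]
            congr 1
            ring
          rw [h4]
          gcongr
          exact EE_le s y
      _ = (I1 s) ^ (q - q1) * ∫⁻ y, ‖EE s y‖ₑ ^ q1 := lintegral_const_mul _ (hm.pow_const q1)
      _ ≤ (I1 s) ^ (q - q1) * C := by gcongr
  have h5 := ENNReal.rpow_le_rpow h3 (by positivity : (0 : ℝ) ≤ 1 / q)
  rw [ENNReal.mul_rpow_of_nonneg _ _ (by positivity), ← ENNReal.rpow_mul, mul_comm] at h5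
  unfold eLpNorm'
  exact h5

theorem goodS_all (n : ℕ) (hn : 2 ≤ n) (q : ℝ) (hq : 2 * ((n : ℝ) + 1) / n < q) (N : ℕ) :
    ∃ C : ℝ≥0∞, C ≠ ⊤ ∧ ∃ δ : ℝ, 0 < δ ∧ ∀ (r : ℕ) (k : Fin r → ℕ)
      (e : (Σ j, Fin (k j)) ≃ Fin n) (c : ∀ j, Fin (k j) → ℝ), (∀ j, 0 < k j) →
      ∀ (i j : Fin N → Fin r) (g : Fin N → ℝ × ℝ → ℂ),
      (∀ p, i p ≠ j p) → (∀ p, Measurable (g p)) → (∀ p x, ‖g p x‖ ≤ 1) →
      (∀ p u, Var2 fun v => g p (u, v)) →
      GoodS (SB e c) q C δ fun ξ => ∏ p, g p (rr e c (i p) ξ, rr e c (j p) ξ) := by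
  have hn2 : (2 : ℝ) ≤ n := by exact_mod_cast hn
  have hn0 : (0 : ℝ) < n := by linarith
  have hq1 : 1 ≤ q := by
    have : 2 ≤ 2 * ((n : ℝ) + 1) / n := by
      rw [le_div_iff₀ hn0]
      linarith
    linarith
  induction N with
  | zero =>
    obtain ⟨C, hC, δ, hδ, h⟩ := goodS_one n hn q hq
    refine ⟨C, hC, δ, hδ, ?_⟩
    intro r k e c hk i j g _ _ _ _
    simp only [Finset.univ_eq_empty, Finset.prod_empty]
    exact h r k e c hk
  | succ N ih =>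
    obtain ⟨C, hC, δ, hδ, h⟩ := ih
    obtain ⟨C', hC', h'⟩ := stepS n q hq1 C hC δ hδ (AA n) (AA_ne n)
    refine ⟨C', hC', δ / 2, by positivity, ?_⟩
    intro r k e c hk i j g hij hg hgb hv
    simp only [Fin.prod_univ_succ]
    apply h' (SB e c) (SB_cls e c)
      (fun ξ => ∏ p : Fin N, g p.succ (rr e c (i p.succ) ξ, rr e c (j p.succ) ξ))
    · apply Finset.measurable_prod
      intro p _
      have h5 := (hg p.succ).comp ((rr_meas e c (i p.succ)).prodMk (rr_meas e c (j p.succ)))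
      simp only [Function.comp_def] at h5
      exact h5
    · intro ξ
      rw [norm_prod]
      apply Finset.prod_le_one
      · intro p _
        exact norm_nonneg _
      · intro p _
        exact hgb _ _
    · exact h r k e c hk (fun p => i p.succ) (fun p => j p.succ) (fun p => g p.succ)
        (fun p => hij _) (fun p => hg _) (fun p => hgb _) fun p => hv _
    · exact SB_Pair e c hk (hij 0)
    · exact hg 0
    · exact hgb 0
    · exact hv 0

theorem mainS (n : ℕ) (hn : 2 ≤ n) (q : ℝ) (hq : 2 * ((n : ℝ) + 1) / n < q) (N : ℕ) :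
    ∃ C : ℝ≥0, ∀ (r : ℕ) (k : Fin r → ℕ)
      (e : (Σ j, Fin (k j)) ≃ Fin n) (c : ∀ j, Fin (k j) → ℝ), (∀ j, 0 < k j) →
      ∀ (i j : Fin N → Fin r) (g : Fin N → ℝ × ℝ → ℂ),
      (∀ p, i p ≠ j p) → (∀ p, Measurable (g p)) → (∀ p x, ‖g p x‖ ≤ 1) →
      (∀ p u, Var2 fun v => g p (u, v)) → ∀ s : (Fin n → ℝ) → ℂ, SB e c s →
      ∫⁻ y, ‖EE (fun ξ => s ξ * ∏ p, g p (rr e c (i p) ξ, rr e c (j p) ξ)) y‖ₑ ^ q ≤ C := by
  have hn2 : (2 : ℝ) ≤ n := by exact_mod_cast hn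
  have hn0 : (0 : ℝ) < n := by linarith
  have hc0 : 0 < 2 * ((n : ℝ) + 1) / n := by positivity
  have hq0 : 0 < q := by linarith
  obtain ⟨C, hC, δ, hδ, h⟩ := goodS_all n hn q hq N
  set K : ℝ≥0∞ := (C * ((2 : ℝ≥0∞) ^ n) ^ δ) ^ q with hK
  have hKt : K ≠ ⊤ := by
    rw [hK]
    apply ENNReal.rpow_ne_top_of_nonneg hq0.le
    apply ENNReal.mul_ne_top hC
    exact ENNReal.rpow_ne_top_of_nonneg hδ.le (ENNReal.pow_ne_top (by norm_num))
  refine ⟨K.toNNReal, ?_⟩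
  intro r k e c hk i j g hij hg hgb hv s hs
  rw [ENNReal.coe_toNNReal hKt]
  have h1 := h r k e c hk i j g hij hg hgb hv s hs
  have h2 : eLpNorm' (EE fun ξ => s ξ * ∏ p, g p (rr e c (i p) ξ, rr e c (j p) ξ)) q volume ≤
      C * ((2 : ℝ≥0∞) ^ n) ^ δ := by
    refine h1.trans ?_
    gcongr
    exact I1_le s ((SB_cls e c).le s hs)
  have h3 := ENNReal.rpow_le_rpow h2 hq0.le
  unfold eLpNorm' at h3
  rw [← ENNReal.rpow_mul, one_div_mul_cancel hq0.ne', ENNReal.rpow_one] at h3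
  exact h3

end Pool.Agent.X146.RP
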