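import Mathlib
import Pool.Agent.TH277.HT.K
set_option autoImplicit false
set_option linter.unusedSectionVars false

/-! The endpoint: the `L⁴` norm of the extension operator of the parabola on time slabs grows like
a logarithm, for functions with values in a Hilbert space. -/

namespace Pool.Agent.X146.RP

open MeasureTheory Set Complex
open scoped ENNReal NNReal
open Pool.Agent.TH277.HT

variable {H : Type} [NormedAddCommGroup H] [InnerProductSpace ℂ H] [CompleteSpace H]

/-- the fourth power at a fixed time -/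
lemma four_fix {a : ℝ → H} (ha : Adm a) (t : ℝ) :
    ∫⁻ x : ℝ, ‖E1 a x t‖ₑ ^ 4 = ∫⁻ α : ℝ, ‖PP a α t‖ₑ ^ 2 := by
  have h1 := planch1 (fun α => PP a α t)
    (int_of_supp (PPt_meas ha t) 2 2 (fun α => PP_le ha α t) (fun α h => PP_zero h t))
    (L2_of_supp (PPt_meas ha t) 2 2 (fun α => PP_le ha α t) (fun α h => PP_zero h t))
  rw [← h1]
  apply lintegral_congr
  intro x
  have h2 : (∫ u : ℝ, ch (u * x) • PP a u t) = ((‖E1 a x t‖ ^ 2 : ℝ) : ℂ) := by
    rw [E1_sq ha x t]
    apply integral_congr_ae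
    refine ae_of_all _ fun u => ?_
    rfl
  rw [h2, ← ofReal_norm, ← ofReal_norm, Complex.norm_real, Real.norm_of_nonneg (by positivity),
    ← ENNReal.ofReal_pow (norm_nonneg _), ← ENNReal.ofReal_pow (by positivity)]
  congr 1
  ring

lemma inv_int (R : ℝ) (hR : 1 ≤ R) :
    ∫⁻ α in Ioc (1 / R) 2, ENNReal.ofReal (|α|⁻¹) = ENNReal.ofReal (Real.log (2 * R)) := by
  have hR0 : 0 < R := by linarith
  have h0 : (0 : ℝ) < 1 / R := by positivity
  have h1 : 1 / R ≤ 2 := by
    rw [div_le_iff₀ hR0]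
    linarith
  have h2 : ∫ α in (1 / R)..2, α⁻¹ = Real.log (2 * R) := by
    rw [integral_inv_of_pos h0 two_pos]
    congr 1
    field_simp
  rw [intervalIntegral.integral_of_le h1] at h2
  rw [← h2, ofReal_integral_eq_lintegral_ofReal]
  · apply setLIntegral_congr_fun measurableSet_Ioc
    intro α hα
    simp only
    rw [abs_of_pos (h0.trans hα.1)]
  · refine (intervalIntegrable_iff_integrableOn_Ioc_of_le h1).1 ?_
    apply intervalIntegral.intervalIntegrable_inv
    · intro x hx
      rw [uIcc_of_le h1] at hx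
      exact (h0.trans_le hx.1).ne'
    · exact continuousOn_id
  · refine (ae_restrict_iff' measurableSet_Ioc).2 (ae_of_all _ fun α hα => ?_)
    exact inv_nonneg.2 (h0.le.trans hα.1.le)

/-- the `L⁴` norm on a slab -/
theorem four_slab {a : ℝ → H} (ha : Adm a) (R : ℝ) (hR : 1 ≤ R) :
    ∫⁻ t in Icc (-R) R, ∫⁻ x : ℝ, ‖E1 a x t‖ₑ ^ 4 ≤
      ENNReal.ofReal (16 + 2 * Real.log (2 * R)) := by
  have hR0 : 0 < R := by linarith
  have hm : Measurable fun p : ℝ × ℝ => ‖PP a p.1 p.2‖ₑ ^ 2 :=
    (PP_meas ha).measurable.enorm.pow_const 2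
  simp only [four_fix ha]
  rw [lintegral_lintegral_swap]
  swap
  · exact (hm.comp measurable_swap).aemeasurable
  -- the inner bounds
  have h1 : ∀ α : ℝ, ∫⁻ t in Icc (-R) R, ‖PP a α t‖ₑ ^ 2 ≤ ENNReal.ofReal (8 * R) := by
    intro α
    calc ∫⁻ t in Icc (-R) R, ‖PP a α t‖ₑ ^ 2 ≤ ∫⁻ _t in Icc (-R) R, ENNReal.ofReal 4 := by
          apply lintegral_mono
          intro t
          simp only
          rw [← ofReal_norm, ← ENNReal.ofReal_pow (norm_nonneg _)]
          apply ENNReal.ofReal_le_ofReal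
          have := PP_le ha α t
          nlinarith [norm_nonneg (PP a α t)]
      _ = ENNReal.ofReal (8 * R) := by
          rw [setLIntegral_const, Real.volume_Icc, ← ENNReal.ofReal_mul (by norm_num)]
          congr 1
          ring
  have h2 : ∀ α : ℝ, α ≠ 0 → ∫⁻ t in Icc (-R) R, ‖PP a α t‖ₑ ^ 2 ≤ ENNReal.ofReal (|α|⁻¹) :=
    fun α hα => (setLIntegral_le_lintegral _ _).trans (PP_time ha hα)
  have h3 : ∀ α : ℝ, 2 < |α| → ∫⁻ t in Icc (-R) R, ‖PP a α t‖ₑ ^ 2 = 0 := by
    intro α hα
    simp [PP_zero hα]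
  set F : ℝ → ℝ≥0∞ := fun α => ∫⁻ t in Icc (-R) R, ‖PP a α t‖ₑ ^ 2 with hF
  have hsub : (univ : Set ℝ) ⊆ Icc (-(1 / R)) (1 / R) ∪ (Ioc (1 / R) 2 ∪
      (Ico (-2) (-(1 / R)) ∪ {α | 2 < |α|})) := by
    intro α _
    by_cases a1 : |α| ≤ 1 / R
    · left
      exact abs_le.1 a1
    · right
      push Not at a1
      by_cases a2 : 2 < |α|
      · right
        right
        exact a2
      · push Not at a2
        rcases le_or_gt 0 α with a3 | a3
        · left
          rw [abs_of_nonneg a3] at a1 a2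
          exact ⟨a1, a2⟩
        · right
          left
          rw [abs_of_neg a3] at a1 a2
          exact ⟨by linarith, by linarith⟩
  have hB : ∫⁻ α in Icc (-(1 / R)) (1 / R), F α ≤ ENNReal.ofReal 16 := by
    calc ∫⁻ α in Icc (-(1 / R)) (1 / R), F α ≤ ∫⁻ _α in Icc (-(1 / R)) (1 / R),
          ENNReal.ofReal (8 * R) := lintegral_mono fun α => h1 α
      _ = ENNReal.ofReal 16 := by
          rw [setLIntegral_const, Real.volume_Icc, ← ENNReal.ofReal_mul (by positivity)]
          congr 1
          field_simp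
          ring
  have hC : ∫⁻ α in Ioc (1 / R) 2, F α ≤ ENNReal.ofReal (Real.log (2 * R)) := by
    rw [← inv_int R hR]
    apply setLIntegral_mono' measurableSet_Ioc
    intro α hα
    have : (0 : ℝ) < 1 / R := by positivity
    exact h2 α (this.trans hα.1).ne'
  have hD : ∫⁻ α in Ico (-2) (-(1 / R)), F α ≤ ENNReal.ofReal (Real.log (2 * R)) := by
    rw [← inv_int R hR]
    have e1 : ∫⁻ α in Ico (-2) (-(1 / R)), F α ≤
        ∫⁻ α in Ico (-2) (-(1 / R)), ENNReal.ofReal (|α|⁻¹) := by
      apply setLIntegral_mono' measurableSet_Ico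
      intro α hα
      have : (0 : ℝ) < 1 / R := by positivity
      have h9 : α < 0 := by
        have := hα.2
        linarith
      exact h2 α h9.ne
    refine e1.trans (le_of_eq ?_)
    rw [← lintegral_indicator measurableSet_Ico, ← lintegral_indicator measurableSet_Ioc,
      ← lintegral_neg_eq_self]
    apply lintegral_congr
    intro α
    by_cases h : α ∈ Ioc (1 / R) 2
    · rw [indicator_of_mem h, indicator_of_mem (show -α ∈ Ico (-2) (-(1 / R)) from
        ⟨by linarith [h.2], by linarith [h.1]⟩), abs_neg]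
    · rw [indicator_of_notMem h, indicator_of_notMem]
      intro h'
      exact h ⟨by linarith [h'.2], by linarith [h'.1]⟩
  have hE : ∫⁻ α in {α : ℝ | 2 < |α|}, F α = 0 := by
    have hms : MeasurableSet {α : ℝ | 2 < |α|} :=
      measurableSet_lt measurable_const (by fun_prop)
    rw [setLIntegral_congr_fun hms (g := fun _ => 0) (fun α hα => h3 α hα)]
    simp
  have hlog : 0 ≤ Real.log (2 * R) := Real.log_nonneg (by linarith)
  calc ∫⁻ α, F α = ∫⁻ α in univ, F α := (setLIntegral_univ _).symm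
    _ ≤ ∫⁻ α in Icc (-(1 / R)) (1 / R) ∪ (Ioc (1 / R) 2 ∪
      (Ico (-2) (-(1 / R)) ∪ {α | 2 < |α|})), F α := lintegral_mono_set hsub
    _ ≤ ENNReal.ofReal 16 + (ENNReal.ofReal (Real.log (2 * R)) +
        (ENNReal.ofReal (Real.log (2 * R)) + 0)) := by
        refine (lintegral_union_le _ _ _).trans (add_le_add hB ?_)
        refine (lintegral_union_le _ _ _).trans (add_le_add hC ?_)
        exact (lintegral_union_le _ _ _).trans (add_le_add hD hE.le)
    _ = ENNReal.ofReal (16 + 2 * Real.log (2 * R)) := by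
        rw [add_zero, ← ENNReal.ofReal_add hlog hlog, ← ENNReal.ofReal_add (by norm_num)
          (by positivity)]
        congr 1
        ring

end Pool.Agent.X146.RP
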