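import Mathlib
import Pool.Agent.X146.RP.A
import Pool.Agent.Y183.PP.C
set_option autoImplicit false
set_option linter.unusedSectionVars false

/-! The endpoint: upper bound for Hilbert tensors and lower bound for the constant function. -/

namespace Pool.Agent.X146.RP

open MeasureTheory Set Complex
open scoped ENNReal NNReal
open Pool.Agent.TH277.HT

variable {H : Type} [NormedAddCommGroup H] [InnerProductSpace ℂ H] [CompleteSpace H]

/-- Hölder's inequality at a fixed time -/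
lemma mix_fix (n : ℕ) (hn : 1 ≤ n) {a : ℝ → H} (ha : Adm a) (t : ℝ) :
    (∫⁻ x : ℝ, ‖E1 a x t‖ₑ ^ (2 * ((n : ℝ) + 1) / n)) ^ (n : ℝ) ≤
      2 ^ (n - 1) * ∫⁻ x : ℝ, ‖E1 a x t‖ₑ ^ 4 := by
  have hn2 : (1 : ℝ) ≤ n := by exact_mod_cast hn
  have hn0 : (0 : ℝ) < n := by linarith
  set q : ℝ := 2 * ((n : ℝ) + 1) / n with hq
  set w : ℝ := 1 / n with hw
  have hw0 : 0 < w := by positivity
  have hw1 : w ≤ 1 := by
    rw [hw, div_le_one hn0]
    linarith
  have hm : Measurable fun x : ℝ => ‖E1 a x t‖ₑ := (E1t_meas ha t).enorm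
  have hnw : w * n = 1 := by
    rw [hw]
    field_simp
  have h2 : ∀ x : ℝ, ‖E1 a x t‖ₑ ^ q =
      (‖E1 a x t‖ₑ ^ 2) ^ (1 - w) * (‖E1 a x t‖ₑ ^ 4) ^ w := by
    intro x
    rw [← ENNReal.rpow_natCast, ← ENNReal.rpow_natCast, ← ENNReal.rpow_mul, ← ENNReal.rpow_mul,
      ← ENNReal.rpow_add_of_nonneg _ _ (by
        have : 0 ≤ 1 - w := by linarith
        positivity) (by positivity)]
    congr 1
    rw [hq, hw]
    push_cast
    field_simp
    ring
  have h3 : ∫⁻ x : ℝ, ‖E1 a x t‖ₑ ^ q ≤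
      (∫⁻ x : ℝ, ‖E1 a x t‖ₑ ^ 2) ^ (1 - w) * (∫⁻ x : ℝ, ‖E1 a x t‖ₑ ^ 4) ^ w := by
    simp only [h2]
    exact ENNReal.lintegral_mul_norm_pow_le (hm.pow_const 2).aemeasurable
      (hm.pow_const 4).aemeasurable (by linarith) hw0.le (by ring)
  calc (∫⁻ x : ℝ, ‖E1 a x t‖ₑ ^ q) ^ (n : ℝ)
      ≤ ((2 : ℝ≥0∞) ^ (1 - w) * (∫⁻ x : ℝ, ‖E1 a x t‖ₑ ^ 4) ^ w) ^ (n : ℝ) := by
        gcongr
        refine h3.trans ?_
        gcongr
        exact E1_planch ha t
    _ = 2 ^ (n - 1) * ∫⁻ x : ℝ, ‖E1 a x t‖ₑ ^ 4 := by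
        rw [ENNReal.mul_rpow_of_nonneg _ _ hn0.le, ← ENNReal.rpow_mul, ← ENNReal.rpow_mul, hnw,
          ENNReal.rpow_one, sub_mul, hnw, one_mul, ← ENNReal.rpow_natCast]
        congr 2
        rw [Nat.cast_sub (by omega), Nat.cast_one]

/-- **The endpoint estimate for Hilbert tensors.** -/
theorem upper (n : ℕ) (hn : 1 ≤ n) (R : ℝ) (hR : 1 ≤ R) (s : (Fin n → ℝ) → ℂ) (hs : Sch n s) :
    ∫⁻ y in {y : (Fin n → ℝ) × ℝ | |y.2| ≤ R}, ‖EE s y‖ₑ ^ (2 * ((n : ℝ) + 1) / n) ≤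
      2 ^ (n - 1) * ENNReal.ofReal (16 + 2 * Real.log (2 * R)) := by
  have hn1 : (1 : ℝ) ≤ n := by exact_mod_cast hn
  have hn0 : (0 : ℝ) < n := by linarith
  set q : ℝ := 2 * ((n : ℝ) + 1) / n with hq
  have hq0 : 0 < q := by positivity
  set C : ℝ≥0∞ := 2 ^ (n - 1) * ENNReal.ofReal (16 + 2 * Real.log (2 * R)) with hC
  obtain ⟨H, _, _, _, M, a, hM, ha, h⟩ := hs
  have h1 : s = fun ξ => M (fun j => a j (ξ j)) := funext h
  rw [h1]
  have h2 : ∀ y : (Fin n → ℝ) × ℝ, ‖EE (fun ξ => M (fun j => a j (ξ j))) y‖ₑ ^ q ≤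
      ∏ j, ‖E1 (a j) (y.1 j) y.2‖ₑ ^ q := by
    intro y
    rw [EE_mult M a ha y, ENNReal.prod_rpow_of_nonneg hq0.le]
    gcongr
    rw [← ofReal_norm]
    calc ENNReal.ofReal ‖M fun j => E1 (a j) (y.1 j) y.2‖
        ≤ ENNReal.ofReal (∏ j, ‖E1 (a j) (y.1 j) y.2‖) := by
          apply ENNReal.ofReal_le_ofReal
          refine (M.le_opNorm _).trans ?_
          have h3 : 0 ≤ ∏ j, ‖E1 (a j) (y.1 j) y.2‖ := Finset.prod_nonneg fun j _ => norm_nonneg _
          calc ‖M‖ * ∏ j, ‖E1 (a j) (y.1 j) y.2‖ ≤ 1 * ∏ j, ‖E1 (a j) (y.1 j) y.2‖ := by gcongr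
            _ = _ := one_mul _
      _ = ∏ j, ‖E1 (a j) (y.1 j) y.2‖ₑ := by
          rw [ENNReal.ofReal_prod_of_nonneg fun j _ => norm_nonneg _]
          apply Finset.prod_congr rfl
          intro j _
          rw [ofReal_norm]
  have hm : ∀ j, Measurable fun p : ℝ × ℝ => ‖E1 (a j) p.1 p.2‖ₑ ^ q := fun j =>
    (E1_meas (ha j)).enorm.pow_const q
  have hA : ∀ j, Measurable fun t : ℝ => ∫⁻ x : ℝ, ‖E1 (a j) x t‖ₑ ^ q := fun j =>
    (hm j).lintegral_prod_left'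
  have hprod : Measurable fun y : (Fin n → ℝ) × ℝ => ∏ j, ‖E1 (a j) (y.1 j) y.2‖ₑ ^ q := by
    apply Finset.measurable_prod
    intro j _
    have h3 : Measurable fun y : (Fin n → ℝ) × ℝ => ((y.1 j, y.2) : ℝ × ℝ) := by fun_prop
    have h5 := (hm j).comp h3
    simp only [Function.comp_def] at h5
    exact h5
  have hset : {y : (Fin n → ℝ) × ℝ | |y.2| ≤ R} = univ ×ˢ Icc (-R) R := by
    ext y
    simp only [mem_ofPred_eq, mem_prod, mem_univ, true_and, mem_Icc, abs_le]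
  have hfour : ∀ j, ∫⁻ t in Icc (-R) R, (∫⁻ x : ℝ, ‖E1 (a j) x t‖ₑ ^ q) ^ (n : ℝ) ≤ C := by
    intro j
    calc ∫⁻ t in Icc (-R) R, (∫⁻ x : ℝ, ‖E1 (a j) x t‖ₑ ^ q) ^ (n : ℝ)
        ≤ ∫⁻ t in Icc (-R) R, 2 ^ (n - 1) * ∫⁻ x : ℝ, ‖E1 (a j) x t‖ₑ ^ 4 :=
          lintegral_mono fun t => mix_fix n hn (ha j) t
      _ = 2 ^ (n - 1) * ∫⁻ t in Icc (-R) R, ∫⁻ x : ℝ, ‖E1 (a j) x t‖ₑ ^ 4 := by
          rw [lintegral_const_mul' _ _ (ENNReal.pow_ne_top (by norm_num))]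
      _ ≤ C := by
          rw [hC]
          gcongr
          exact four_slab (ha j) R hR
  rw [hset, Measure.volume_eq_prod, ← Measure.prod_restrict, Measure.restrict_univ]
  calc ∫⁻ y, ‖EE (fun ξ => M (fun j => a j (ξ j))) y‖ₑ ^ q
        ∂((volume : Measure (Fin n → ℝ)).prod (volume.restrict (Icc (-R) R)))
      ≤ ∫⁻ y : (Fin n → ℝ) × ℝ, ∏ j, ‖E1 (a j) (y.1 j) y.2‖ₑ ^ q
        ∂((volume : Measure (Fin n → ℝ)).prod (volume.restrict (Icc (-R) R))) := lintegral_mono h2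
    _ = ∫⁻ t in Icc (-R) R, ∫⁻ x : Fin n → ℝ, ∏ j, ‖E1 (a j) (x j) t‖ₑ ^ q := by
        rw [lintegral_prod_symm _ hprod.aemeasurable]
    _ = ∫⁻ t in Icc (-R) R, ∏ j, ∫⁻ x : ℝ, ‖E1 (a j) x t‖ₑ ^ q := by
        apply lintegral_congr
        intro t
        exact lint_pi (fun j x => ‖E1 (a j) x t‖ₑ ^ q) fun j =>
          (E1t_meas (ha j) t).enorm.pow_const q
    _ = ∫⁻ t in Icc (-R) R, ∏ j, ((∫⁻ x : ℝ, ‖E1 (a j) x t‖ₑ ^ q) ^ (n : ℝ)) ^ (1 / (n : ℝ)) := by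
        apply lintegral_congr
        intro t
        apply Finset.prod_congr rfl
        intro j _
        rw [← ENNReal.rpow_mul, mul_one_div_cancel hn0.ne', ENNReal.rpow_one]
    _ ≤ ∏ j, (∫⁻ t in Icc (-R) R, (∫⁻ x : ℝ, ‖E1 (a j) x t‖ₑ ^ q) ^ (n : ℝ)) ^ (1 / (n : ℝ)) := by
        apply ENNReal.lintegral_prod_norm_pow_le
        · intro j _
          exact ((hA j).pow_const _).aemeasurable
        · rw [Finset.sum_const, Finset.card_univ, Fintype.card_fin, nsmul_eq_mul,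
            mul_one_div_cancel hn0.ne']
        · intro j _
          positivity
    _ ≤ ∏ _j : Fin n, C ^ (1 / (n : ℝ)) := by
        gcongr with j
        exact hfour j
    _ = C := by
        rw [Finset.prod_const, Finset.card_univ, Fintype.card_fin, ← ENNReal.rpow_natCast,
          ← ENNReal.rpow_mul, one_div_mul_cancel hn0.ne', ENNReal.rpow_one]

/-! ### The constant function -/

/-- the constant function one -/
def one1 : ℝ → ℂ := fun _ => 1

lemma one1_adm : Adm one1 := ⟨stronglyMeasurable_const, fun _ => by simp [one1]⟩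

/-- the bound away from the light cone -/
lemma tail_pt (x t : ℝ) (ht : 0 ≤ t) (hx : 4 * t ≤ |x|) (hx0 : 0 < |x|) :
    ‖E1 one1 x t‖ ≤ 1 / |x| := by
  have h1 : E1 one1 x t = ∫ u in (-1 : ℝ)..1,
      cexp (((2 * Real.pi * (u * x + u ^ 2 * t) : ℝ) : ℂ) * I) := by
    unfold E1 one1
    rw [intervalIntegral.integral_of_le (by norm_num), integral_Icc_eq_integral_Ioc]
    apply integral_congr_ae
    refine ae_of_all _ fun u => ?_
    simp only [ch, smul_eq_mul, mul_one]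
    congr 1
    push_cast
    ring
  rw [h1]
  have hd1 : ∀ u : ℝ, HasDerivAt (fun u : ℝ => 2 * Real.pi * (u * x + u ^ 2 * t))
      (2 * Real.pi * (x + 2 * u * t)) u := by
    intro u
    have h2 : HasDerivAt (fun u : ℝ => u * x + u ^ 2 * t) (1 * x + (2 * u) * t) u := by
      have h3 : HasDerivAt (fun u : ℝ => u ^ 2) (2 * u) u := by
        simpa using hasDerivAt_pow 2 u
      exact ((hasDerivAt_id u).mul_const x).add (h3.mul_const t)
    have h4 := h2.const_mul (2 * Real.pi)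
    rwa [one_mul] at h4
  have hd2 : ∀ u : ℝ, HasDerivAt (fun u : ℝ => 2 * Real.pi * (x + 2 * u * t))
      (2 * Real.pi * (2 * t)) u := by
    intro u
    have h2 : HasDerivAt (fun u : ℝ => x + 2 * u * t) (0 + (2 * 1) * t) u := by
      exact (hasDerivAt_const u x).add (((hasDerivAt_id u).const_mul 2).mul_const t)
    have h4 := h2.const_mul (2 * Real.pi)
    rwa [zero_add, mul_one] at h4
  have h5 := Pool.Agent.Y183.PP.vdc (fun u => 2 * Real.pi * (u * x + u ^ 2 * t))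
    (fun u => 2 * Real.pi * (x + 2 * u * t)) (fun _ => 2 * Real.pi * (2 * t)) hd1 hd2
    continuous_const (-1) 1 (by norm_num) (Real.pi * |x|) (by positivity) (by
      intro u hu
      rw [abs_mul, abs_of_pos (by positivity : 0 < 2 * Real.pi)]
      have h6 : |2 * u * t| ≤ 2 * t := by
        rw [abs_mul, abs_mul, abs_of_pos two_pos, abs_of_nonneg ht]
        have : |u| ≤ 1 := abs_le.2 hu
        nlinarith
      have h7 : |x| ≤ |x + 2 * u * t| + |2 * u * t| := by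
        calc |x| = |(x + 2 * u * t) - 2 * u * t| := by ring_nf
          _ ≤ _ := abs_sub _ _
      have h8 : |x| / 2 ≤ |x + 2 * u * t| := by linarith
      nlinarith [Real.pi_pos]) (Or.inl fun _ _ => by positivity)
  refine h5.trans ?_
  rw [div_le_div_iff₀ (by positivity) hx0]
  nlinarith [Real.pi_gt_three]

/-- Plancherel for the constant function -/
lemma one_planch (t : ℝ) : ∫⁻ x : ℝ, ‖E1 one1 x t‖ₑ ^ 2 = 2 := by
  set φ : ℝ → ℂ := fun u => ch (u ^ 2 * t) • tr one1 u with hφ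
  have hm : StronglyMeasurable φ := by
    refine StronglyMeasurable.smul (f := fun u : ℝ => ch (u ^ 2 * t)) (g := tr one1) ?_ ?_
    · have h2 : Continuous fun u : ℝ => ch (u ^ 2 * t) := ch_cont.comp (by fun_prop)
      exact h2.stronglyMeasurable
    · exact tr_meas one1_adm
  have hn : ∀ u, ‖φ u‖ = ‖tr one1 u‖ := by
    intro u
    rw [hφ]
    simp only
    rw [norm_smul, ch_norm, one_mul]
  have hb : ∀ u, ‖φ u‖ ≤ 1 := fun u => by
    rw [hn]
    exact tr_bd one1_adm u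
  have h0 : ∀ u, 1 < |u| → φ u = 0 := by
    intro u hu
    rw [hφ]
    simp only
    rw [tr_zero one1 (fun h => absurd (abs_le.2 h) (not_le.2 hu)), smul_zero]
  have h1 := planch1 φ (int_of_supp hm 1 1 hb h0) (L2_of_supp hm 1 1 hb h0)
  have h2 : ∀ x, E1 one1 x t = ∫ u, ch (u * x) • φ u := by
    intro x
    rw [E1_eq]
    apply integral_congr_ae
    refine ae_of_all _ fun u => ?_
    simp only [hφ]
    rw [smul_smul, ← ch_add]
  simp only [h2]
  rw [h1]
  have h3 : ∀ u, ‖φ u‖ₑ ^ 2 = (Icc (-1 : ℝ) 1).indicator (fun _ => (1 : ℝ≥0∞)) u := by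
    intro u
    rw [← ofReal_norm, hn]
    by_cases h : u ∈ Icc (-1 : ℝ) 1
    · rw [indicator_of_mem h]
      simp [tr, one1, indicator_of_mem h]
    · rw [indicator_of_notMem h, tr_zero _ h]
      simp
  simp only [h3]
  rw [lintegral_indicator measurableSet_Icc, setLIntegral_one, Real.volume_Icc]
  norm_num

end Pool.Agent.X146.RP
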