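import Mathlib
import Pool.Agent.X146.RP.B
set_option autoImplicit false
set_option linter.unusedSectionVars false

/-! The endpoint: the lower bound for the constant function. -/

namespace Pool.Agent.X146.RP

open MeasureTheory Set Complex
open scoped ENNReal NNReal
open Pool.Agent.TH277.HT

/-- the mass in the light cone -/
lemma mass (t : ℝ) (ht : 1 ≤ t) : 1 ≤ ∫⁻ x in Icc (-(4 * t)) (4 * t), ‖E1 one1 x t‖ₑ ^ 2 := by
  have h1 : ∫⁻ x in (Icc (-(4 * t)) (4 * t))ᶜ, ‖E1 one1 x t‖ₑ ^ 2 ≤ 1 := by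
    have hsub : (Icc (-(4 * t)) (4 * t))ᶜ ⊆ far (4 * t) := by
      intro x hx
      show 4 * t < |x|
      by_contra h
      push Not at h
      exact hx (abs_le.1 h)
    calc ∫⁻ x in (Icc (-(4 * t)) (4 * t))ᶜ, ‖E1 one1 x t‖ₑ ^ 2
        ≤ ∫⁻ x in far (4 * t), ‖E1 one1 x t‖ₑ ^ 2 := lintegral_mono_set hsub
      _ ≤ ∫⁻ x in far (4 * t), ENNReal.ofReal (|x| ^ (-(1 + (1 : ℝ)))) := by
          apply setLIntegral_mono' (far_meas _)
          intro x hx
          have hx2 : 4 * t < |x| := hx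
          have hx0 : 0 < |x| := by linarith
          have h2 := tail_pt x t (by linarith) hx2.le hx0
          rw [← ofReal_norm, ← ENNReal.ofReal_pow (norm_nonneg _)]
          apply ENNReal.ofReal_le_ofReal
          have h3 : |x| ^ (-(1 + (1 : ℝ))) = (1 / |x|) ^ 2 := by
            rw [show -(1 + (1 : ℝ)) = -((2 : ℕ) : ℝ) by norm_num, Real.rpow_neg hx0.le,
              Real.rpow_natCast, one_div, inv_pow]
          rw [h3]
          gcongr
      _ ≤ 2 * ENNReal.ofReal ((4 * t) ^ (-(1 : ℝ)) / 1) := far_int one_pos (by linarith)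
      _ ≤ 1 := by
          rw [Real.rpow_neg_one, div_one, ← ENNReal.ofReal_ofNat 2, ← ENNReal.ofReal_mul (by norm_num)]
          apply ENNReal.ofReal_le_one.2
          rw [← div_eq_mul_inv, div_le_one (by linarith)]
          linarith
  have h2 := lintegral_add_compl (μ := volume) (fun x => ‖E1 one1 x t‖ₑ ^ 2)
    (measurableSet_Icc : MeasurableSet (Icc (-(4 * t)) (4 * t)))
  rw [one_planch] at h2
  have h3 : (1 : ℝ≥0∞) + 1 ≤ (∫⁻ x in Icc (-(4 * t)) (4 * t), ‖E1 one1 x t‖ₑ ^ 2) + 1 := by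
    rw [one_add_one_eq_two, ← h2]
    gcongr
  exact (ENNReal.add_le_add_iff_right ENNReal.one_ne_top).1 h3

/-- the lower bound at a fixed time -/
lemma low_fix (n : ℕ) (hn : 1 ≤ n) (t : ℝ) (ht : 1 ≤ t) :
    ENNReal.ofReal (1 / (8 * t)) ≤
      (∫⁻ x in Icc (-(4 * t)) (4 * t), ‖E1 one1 x t‖ₑ ^ (2 * ((n : ℝ) + 1) / n)) ^ (n : ℝ) := by
  have hn1 : (1 : ℝ) ≤ n := by exact_mod_cast hn
  have hn0 : (0 : ℝ) < n := by linarith
  set q : ℝ := 2 * ((n : ℝ) + 1) / n with hq
  set I : ℝ≥0∞ := ∫⁻ x in Icc (-(4 * t)) (4 * t), ‖E1 one1 x t‖ₑ ^ q with hI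
  set w : ℝ := n / (n + 1) with hw
  have hw0 : 0 < w := by positivity
  have hw1 : w ≤ 1 := by
    rw [hw, div_le_one (by linarith)]
    linarith
  have hm : Measurable fun x : ℝ => ‖E1 one1 x t‖ₑ := (E1t_meas one1_adm t).enorm
  have h1 : ∀ x : ℝ, ‖E1 one1 x t‖ₑ ^ 2 = (1 : ℝ≥0∞) ^ (1 - w) * (‖E1 one1 x t‖ₑ ^ q) ^ w := by
    intro x
    rw [ENNReal.one_rpow, one_mul, ← ENNReal.rpow_mul, ← ENNReal.rpow_natCast]
    congr 1
    rw [hq, hw]
    push_cast
    field_simp
  have h2 : ∫⁻ x in Icc (-(4 * t)) (4 * t), ‖E1 one1 x t‖ₑ ^ 2 ≤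
      (∫⁻ _x in Icc (-(4 * t)) (4 * t), (1 : ℝ≥0∞)) ^ (1 - w) * I ^ w := by
    simp only [h1]
    exact ENNReal.lintegral_mul_norm_pow_le aemeasurable_const
      (hm.pow_const q).aemeasurable (by linarith) hw0.le (by ring)
  rw [setLIntegral_one, Real.volume_Icc, show 4 * t - -(4 * t) = 8 * t by ring] at h2
  have h3 : 1 ≤ ENNReal.ofReal (8 * t) * I ^ (n : ℝ) := by
    have h4 := (mass t ht).trans h2
    have h5 : (1 : ℝ≥0∞) ^ ((n : ℝ) + 1) ≤
        (ENNReal.ofReal (8 * t) ^ (1 - w) * I ^ w) ^ ((n : ℝ) + 1) := by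
      gcongr
    rw [ENNReal.one_rpow, ENNReal.mul_rpow_of_nonneg _ _ (by positivity), ← ENNReal.rpow_mul,
      ← ENNReal.rpow_mul] at h5
    have e1 : (1 - w) * ((n : ℝ) + 1) = 1 := by
      rw [hw]
      field_simp
      ring
    have e2 : w * ((n : ℝ) + 1) = n := by
      rw [hw]
      field_simp
    rwa [e1, e2, ENNReal.rpow_one] at h5
  rw [one_div, ENNReal.ofReal_inv_of_pos (by linarith)]
  have h6 : ENNReal.ofReal (8 * t) ≠ 0 := (ENNReal.ofReal_pos.2 (by linarith)).ne'
  rw [ENNReal.inv_le_iff_le_mul (fun _ => h6) (fun h => absurd h ENNReal.ofReal_ne_top)]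
  exact h3

/-- the constant function one on the cube -/
lemma EE_one (n : ℕ) (y : (Fin n → ℝ) × ℝ) :
    EE (fun _ => 1) y = ∏ j, E1 one1 (y.1 j) y.2 := by
  have h1 := EE_mult (ContinuousMultilinearMap.mkPiAlgebra ℂ (Fin n) ℂ) (fun _ => one1)
    (fun _ => one1_adm) y
  simp only [ContinuousMultilinearMap.mkPiAlgebra_apply] at h1
  rw [← h1]
  congr 1
  ext ξ
  simp [one1]

/-- **The lower bound for the constant function.** -/
theorem lower (n : ℕ) (hn : 1 ≤ n) (R : ℝ) (hR : 4 ≤ R) :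
    ENNReal.ofReal (Real.log (R / 4) / 8) ≤
      ∫⁻ y in {y : (Fin n → ℝ) × ℝ | (∀ j, |y.1 j| ≤ R) ∧ |y.2| ≤ R},
        ‖EE (fun _ => 1) y‖ₑ ^ (2 * ((n : ℝ) + 1) / n) := by
  have hn1 : (1 : ℝ) ≤ n := by exact_mod_cast hn
  have hn0 : (0 : ℝ) < n := by linarith
  set q : ℝ := 2 * ((n : ℝ) + 1) / n with hq
  have hq0 : 0 < q := by positivity
  set F : (Fin n → ℝ) × ℝ → ℝ≥0∞ := fun y => ‖EE (fun _ => 1) y‖ₑ ^ q with hF
  have hF1 : ∀ x t, F (x, t) = ∏ j, ‖E1 one1 (x j) t‖ₑ ^ q := by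
    intro x t
    rw [hF]
    simp only
    rw [EE_one, ENNReal.prod_rpow_of_nonneg hq0.le]
    congr 1
    simp only
    rw [← ofReal_norm, norm_prod, ENNReal.ofReal_prod_of_nonneg fun j _ => norm_nonneg _]
    apply Finset.prod_congr rfl
    intro j _
    rw [ofReal_norm]
  have hFm : Measurable F := by
    have h1 : F = fun y => ∏ j, ‖E1 one1 (y.1 j) y.2‖ₑ ^ q := by
      ext y
      exact hF1 y.1 y.2
    rw [h1]
    apply Finset.measurable_prod
    intro j _
    have h3 : Measurable fun y : (Fin n → ℝ) × ℝ => ((y.1 j, y.2) : ℝ × ℝ) := by fun_prop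
    have h4 : Measurable fun p : ℝ × ℝ => ‖E1 one1 p.1 p.2‖ₑ ^ q :=
      (E1_meas one1_adm).enorm.pow_const q
    have h5 := h4.comp h3
    simp only [Function.comp_def] at h5
    exact h5
  set B : Set ((Fin n → ℝ) × ℝ) := (Icc (fun _ => -R) (fun _ => R)) ×ˢ Icc 1 (R / 4) with hB
  have hsub : B ⊆ {y : (Fin n → ℝ) × ℝ | (∀ j, |y.1 j| ≤ R) ∧ |y.2| ≤ R} := by
    rintro ⟨x, t⟩ ⟨hx, ht⟩
    refine ⟨fun j => abs_le.2 ⟨hx.1 j, hx.2 j⟩, ?_⟩
    simp only at ht ⊢
    rw [abs_of_nonneg (by linarith [ht.1])]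
    linarith [ht.2]
  have hfix : ∀ t ∈ Icc 1 (R / 4), ENNReal.ofReal (1 / (8 * t)) ≤
      ∫⁻ x in Icc (fun _ : Fin n => -R) (fun _ => R), F (x, t) := by
    intro t ht
    have hsub2 : Icc (fun _ : Fin n => -(4 * t)) (fun _ => 4 * t) ⊆
        Icc (fun _ : Fin n => -R) (fun _ => R) := by
      apply Icc_subset_Icc
      · intro j
        simp only
        linarith [ht.2]
      · intro j
        simp only
        linarith [ht.2]
    refine le_trans ?_ (lintegral_mono_set hsub2)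
    have h1 : ∫⁻ x in Icc (fun _ : Fin n => -(4 * t)) (fun _ => 4 * t), F (x, t) =
        ∏ _j : Fin n, ∫⁻ x in Icc (-(4 * t)) (4 * t), ‖E1 one1 x t‖ₑ ^ q := by
      rw [← lintegral_indicator measurableSet_Icc]
      have h2 : ∀ x : Fin n → ℝ, (Icc (fun _ : Fin n => -(4 * t)) (fun _ => 4 * t)).indicator
          (fun x => F (x, t)) x =
          ∏ j, (Icc (-(4 * t)) (4 * t)).indicator (fun u => ‖E1 one1 u t‖ₑ ^ q) (x j) := by
        intro x
        by_cases hx : x ∈ Icc (fun _ : Fin n => -(4 * t)) (fun _ => 4 * t)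
        · rw [indicator_of_mem hx, hF1]
          apply Finset.prod_congr rfl
          intro j _
          rw [indicator_of_mem (show x j ∈ Icc (-(4 * t)) (4 * t) from ⟨hx.1 j, hx.2 j⟩)]
        · rw [indicator_of_notMem hx]
          symm
          by_contra hne
          apply hx
          have h3 := Finset.prod_ne_zero_iff.1 hne
          have h4 : ∀ j, x j ∈ Icc (-(4 * t)) (4 * t) := by
            intro j
            by_contra hc
            exact h3 j (Finset.mem_univ j) (indicator_of_notMem hc _)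
          exact ⟨fun j => (h4 j).1, fun j => (h4 j).2⟩
      simp only [h2]
      rw [lint_pi _ (fun _ => ((E1t_meas one1_adm t).enorm.pow_const q).indicator
        measurableSet_Icc)]
      apply Finset.prod_congr rfl
      intro j _
      rw [lintegral_indicator measurableSet_Icc]
    rw [h1, Finset.prod_const, Finset.card_univ, Fintype.card_fin, ← ENNReal.rpow_natCast]
    exact low_fix n hn t ht.1
  calc ENNReal.ofReal (Real.log (R / 4) / 8)
      = ∫⁻ t in Icc 1 (R / 4), ENNReal.ofReal (1 / (8 * t)) := by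
        have hR4 : (1 : ℝ) ≤ R / 4 := by linarith
        have h1 : ∫ t in (1 : ℝ)..(R / 4), 1 / (8 * t) = Real.log (R / 4) / 8 := by
          have h2 : ∀ t : ℝ, 1 / (8 * t) = (1 / 8) * t⁻¹ := by
            intro t
            rw [one_div, mul_inv]
            norm_num
          simp only [h2]
          rw [intervalIntegral.integral_const_mul, integral_inv_of_pos one_pos (by linarith),
            div_one]
          ring
        rw [← h1, intervalIntegral.integral_of_le hR4, ← integral_Icc_eq_integral_Ioc,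
          ofReal_integral_eq_lintegral_ofReal]
        · apply ContinuousOn.integrableOn_Icc
          apply ContinuousOn.div continuousOn_const (by fun_prop)
          intro t ht
          have := ht.1
          positivity
        · refine (ae_restrict_iff' measurableSet_Icc).2 (ae_of_all _ fun t ht => ?_)
          have := ht.1
          simp only [Pi.zero_apply]
          positivity
    _ ≤ ∫⁻ t in Icc 1 (R / 4), ∫⁻ x in Icc (fun _ : Fin n => -R) (fun _ => R), F (x, t) :=
        setLIntegral_mono' measurableSet_Icc hfix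
    _ = ∫⁻ y in B, F y := by
        rw [hB, Measure.volume_eq_prod, ← Measure.prod_restrict,
          lintegral_prod_symm _ hFm.aemeasurable]
    _ ≤ _ := lintegral_mono_set hsub

end Pool.Agent.X146.RP
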