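import Mathlib
import Pool.Agent.X146.RP.H
import Pool.Agent.W771.MB
set_option autoImplicit false
set_option linter.unusedSectionVars false
set_option linter.style.haveILetI false

/-! Functions of several free variables and one radius: the operator in the free variables. -/

namespace Pool.Agent.X146.RP

open MeasureTheory Set Complex
open scoped ENNReal NNReal
open Pool.Agent.TH277.HT
open Pool.Agent.H438R2.BR (Phi Phi_le Phi_meas)
open Pool.Agent.W771.MD (qe em em_norm em_enorm em_cont em_meas planchM)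

variable {m : ℕ}

/-- families of functions of the radius -/
structure Fam (b : (Fin m → ℝ) → ℝ → ℂ) : Prop where
  meas : Measurable (Function.uncurry b)
  bd : ∀ v r, ‖b v r‖ ≤ 1
  supp : ∀ v, v ∉ Icc (-1 : Fin m → ℝ) 1 → ∀ r, b v r = 0

lemma Fam.adm {b : (Fin m → ℝ) → ℝ → ℂ} (hb : Fam b) (v : Fin m → ℝ) : Adm (b v) :=
  ⟨(hb.meas.comp measurable_prodMk_left).stronglyMeasurable, hb.bd v⟩

/-- functions to which the operator is applied -/
structure QF (Q : (Fin m → ℝ) → ℝ → ℝ → ℂ) : Prop where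
  meas : Measurable fun p : (Fin m → ℝ) × (ℝ × ℝ) => Q p.1 p.2.1 p.2.2
  supp : ∀ v, v ∉ Icc (-1 : Fin m → ℝ) 1 → ∀ ρ t, Q v ρ t = 0

/-- the operator in the free variables -/
noncomputable def TT (Q : (Fin m → ℝ) → ℝ → ℝ → ℂ) (x : Fin m → ℝ) (ρ t : ℝ) : ℂ :=
  ∫ v, Q v ρ t * em x t v

lemma QF.slice {Q : (Fin m → ℝ) → ℝ → ℝ → ℂ} (hQ : QF Q) (ρ t : ℝ) :
    Measurable fun v => Q v ρ t := by
  have h := hQ.meas.comp (by fun_prop : Measurable fun v : Fin m → ℝ => (v, (ρ, t)))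
  simp only [Function.comp_def] at h
  exact h

lemma TT_meas {Q : (Fin m → ℝ) → ℝ → ℝ → ℂ} (hQ : QF Q) :
    Measurable fun p : (Fin m → ℝ) × (ℝ × ℝ) => TT Q p.1 p.2.1 p.2.2 := by
  unfold TT
  apply StronglyMeasurable.measurable
  apply StronglyMeasurable.integral_prod_right'
    (f := fun z : ((Fin m → ℝ) × (ℝ × ℝ)) × (Fin m → ℝ) =>
      Q z.2 z.1.2.1 z.1.2.2 * em z.1.1 z.1.2.2 z.2)
  apply Measurable.stronglyMeasurable
  apply Measurable.mul
  · have h := hQ.meas.comp (by fun_prop : Measurable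
      fun z : ((Fin m → ℝ) × (ℝ × ℝ)) × (Fin m → ℝ) => (z.2, (z.1.2.1, z.1.2.2)))
    simp only [Function.comp_def] at h
    exact h
  · have h := em_cont.measurable.comp (by fun_prop : Measurable
      fun z : ((Fin m → ℝ) × (ℝ × ℝ)) × (Fin m → ℝ) => ((z.1.1, z.1.2.2), z.2))
    simp only [Function.comp_def] at h
    exact h

lemma QF.int {Q : (Fin m → ℝ) → ℝ → ℝ → ℂ} (hQ : QF Q) {ρ t A : ℝ}
    (hA : ∀ v, ‖Q v ρ t‖ ≤ A) : Integrable fun v => Q v ρ t := by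
  have h2 : IntegrableOn (fun v => Q v ρ t) (Icc (-1 : Fin m → ℝ) 1) := by
    apply IntegrableOn.of_bound (C := A) isCompact_Icc.measure_lt_top
    · exact (hQ.slice ρ t).aestronglyMeasurable
    · exact ae_of_all _ hA
  rwa [integrableOn_iff_integrable_of_support_subset] at h2
  intro v hv
  by_contra hc
  exact hv (hQ.supp v hc ρ t)

lemma QF.lint {Q : (Fin m → ℝ) → ℝ → ℝ → ℂ} (hQ : QF Q) (ρ t : ℝ) :
    ∫⁻ v, ‖Q v ρ t‖ₑ ^ 2 = ∫⁻ v in Icc (-1 : Fin m → ℝ) 1, ‖Q v ρ t‖ₑ ^ 2 := by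
  rw [← lintegral_indicator measurableSet_Icc]
  apply lintegral_congr
  intro v
  by_cases h : v ∈ Icc (-1 : Fin m → ℝ) 1
  · rw [indicator_of_mem h]
  · rw [indicator_of_notMem h, hQ.supp v h, enorm_zero]
    norm_num

lemma QF.L2 {Q : (Fin m → ℝ) → ℝ → ℝ → ℂ} (hQ : QF Q) {ρ t A : ℝ}
    (hA : ∀ v, ‖Q v ρ t‖ ≤ A) : MemLp (fun v => Q v ρ t) 2 := by
  have hA0 : 0 ≤ A := (norm_nonneg _).trans (hA 0)
  have h1 := hQ.int hA
  rw [memLp_two_iff_integrable_sq_norm h1.1]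
  have h2 : IntegrableOn (fun v => ‖Q v ρ t‖ ^ 2) (Icc (-1 : Fin m → ℝ) 1) := by
    refine IntegrableOn.of_bound (C := A ^ 2) isCompact_Icc.measure_lt_top
      ((hQ.slice ρ t).norm.pow_const 2).aestronglyMeasurable (ae_of_all _ fun v => ?_)
    rw [Real.norm_of_nonneg (by positivity)]
    gcongr
    exact hA v
  rwa [integrableOn_iff_integrable_of_support_subset] at h2
  intro v hv
  by_contra hc
  apply hv
  simp only
  rw [hQ.supp v hc ρ t, norm_zero]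
  norm_num

/-- Plancherel in the free variables -/
lemma TT_planch {Q : (Fin m → ℝ) → ℝ → ℝ → ℂ} (hQ : QF Q) {ρ t A : ℝ}
    (hA : ∀ v, ‖Q v ρ t‖ ≤ A) :
    ∫⁻ x, ‖TT Q x ρ t‖ₑ ^ 2 = ∫⁻ v in Icc (-1 : Fin m → ℝ) 1, ‖Q v ρ t‖ₑ ^ 2 := by
  unfold TT
  rw [planchM _ (hQ.int hA) (hQ.L2 hA) t, hQ.lint]

lemma TT_sup {Q : (Fin m → ℝ) → ℝ → ℝ → ℂ} (hQ : QF Q) {ρ t A : ℝ}
    (hA : ∀ v, ‖Q v ρ t‖ ≤ A) (x : Fin m → ℝ) : ‖TT Q x ρ t‖ ≤ 2 ^ m * A := by
  have h1 : TT Q x ρ t = ∫ v in Icc (-1 : Fin m → ℝ) 1, Q v ρ t * em x t v := by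
    unfold TT
    rw [← integral_indicator measurableSet_Icc]
    apply integral_congr_ae
    refine ae_of_all _ fun v => ?_
    simp only
    by_cases h : v ∈ Icc (-1 : Fin m → ℝ) 1
    · rw [indicator_of_mem h]
    · rw [indicator_of_notMem h, hQ.supp v h, zero_mul]
  rw [h1]
  calc ‖∫ v in Icc (-1 : Fin m → ℝ) 1, Q v ρ t * em x t v‖
      ≤ A * (volume (Icc (-1 : Fin m → ℝ) 1)).toReal := by
        apply norm_setIntegral_le_of_norm_le_const isCompact_Icc.measure_lt_top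
        intro v _
        rw [norm_mul, em_norm, mul_one]
        exact hA v
    _ = 2 ^ m * A := by
        rw [Real.volume_Icc_pi]
        simp only [Pi.one_apply, Pi.neg_apply, Finset.prod_const, Finset.card_univ,
          Fintype.card_fin]
        rw [← ENNReal.ofReal_pow (by norm_num), ENNReal.toReal_ofReal (by norm_num)]
        norm_num
        ring

/-- the mixed bound for a fixed radius -/
lemma TT_Lq {Q : (Fin m → ℝ) → ℝ → ℝ → ℂ} (hQ : QF Q) {ρ A : ℝ} {B : ℝ≥0∞}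
    (hA : ∀ v t, ‖Q v ρ t‖ ≤ A) (hB : ∀ v, ∫⁻ t, ‖Q v ρ t‖ₑ ^ 2 ≤ B) (q : ℝ) (hq : 2 ≤ q) :
    ∫⁻ t, ∫⁻ x, ‖TT Q x ρ t‖ₑ ^ q ≤ ENNReal.ofReal ((2 ^ m * A) ^ (q - 2)) * (2 ^ m * B) := by
  have hA0 : 0 ≤ A := (norm_nonneg _).trans (hA 0 0)
  have h1 : ∀ t, ∫⁻ x, ‖TT Q x ρ t‖ₑ ^ q ≤ ENNReal.ofReal ((2 ^ m * A) ^ (q - 2)) *
      ∫⁻ v in Icc (-1 : Fin m → ℝ) 1, ‖Q v ρ t‖ₑ ^ 2 := by
    intro t
    rw [← TT_planch hQ (fun v => hA v t), ← lintegral_const_mul' _ _ ENNReal.ofReal_ne_top]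
    apply lintegral_mono
    intro x
    simp only
    calc ‖TT Q x ρ t‖ₑ ^ q = ‖TT Q x ρ t‖ₑ ^ ((q - 2) + 2) := by rw [sub_add_cancel]
      _ = ‖TT Q x ρ t‖ₑ ^ (q - 2) * ‖TT Q x ρ t‖ₑ ^ 2 := by
          rw [ENNReal.rpow_add_of_nonneg _ _ (by linarith) two_pos.le]
          congr 1
          norm_cast
      _ ≤ _ := by
          gcongr
          rw [← ofReal_norm, ENNReal.ofReal_rpow_of_nonneg (norm_nonneg _) (by linarith)]
          gcongr
          exact TT_sup hQ (fun v => hA v t) x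
  have hm : Measurable fun p : ℝ × (Fin m → ℝ) => ‖Q p.2 ρ p.1‖ₑ ^ 2 := by
    have h := hQ.meas.comp (by fun_prop : Measurable fun p : ℝ × (Fin m → ℝ) => (p.2, (ρ, p.1)))
    simp only [Function.comp_def] at h
    exact h.enorm.pow_const 2
  calc ∫⁻ t, ∫⁻ x, ‖TT Q x ρ t‖ₑ ^ q
      ≤ ∫⁻ t, ENNReal.ofReal ((2 ^ m * A) ^ (q - 2)) *
        ∫⁻ v in Icc (-1 : Fin m → ℝ) 1, ‖Q v ρ t‖ₑ ^ 2 := lintegral_mono h1
    _ = ENNReal.ofReal ((2 ^ m * A) ^ (q - 2)) *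
        ∫⁻ t, ∫⁻ v in Icc (-1 : Fin m → ℝ) 1, ‖Q v ρ t‖ₑ ^ 2 := by
        rw [lintegral_const_mul' _ _ ENNReal.ofReal_ne_top]
    _ = ENNReal.ofReal ((2 ^ m * A) ^ (q - 2)) *
        ∫⁻ v in Icc (-1 : Fin m → ℝ) 1, ∫⁻ t, ‖Q v ρ t‖ₑ ^ 2 := by
        rw [lintegral_lintegral_swap hm.aemeasurable]
    _ ≤ ENNReal.ofReal ((2 ^ m * A) ^ (q - 2)) *
        ∫⁻ _v in Icc (-1 : Fin m → ℝ) 1, B := by
        gcongr with v
        exact hB v
    _ = _ := by
        rw [setLIntegral_const, Real.volume_Icc_pi]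
        congr 1
        simp only [Pi.one_apply, Pi.neg_apply, Finset.prod_const, Finset.card_univ,
          Fintype.card_fin]
        rw [mul_comm]
        congr 2
        norm_num

/-- joint measurability of the amplitudes -/
lemma vA_meas' {k : ℕ} {b : (Fin m → ℝ) → ℝ → ℂ} (hb : Fam b) :
    Measurable fun p : ((Fin m → ℝ) × (ℝ × ℝ)) × ℝ => vA k (b p.1.1) p.1.2.1 p.2 := by
  have h1 : (fun p : ((Fin m → ℝ) × (ℝ × ℝ)) × ℝ => vA k (b p.1.1) p.1.2.1 p.2) =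
      (Prod.snd ⁻¹' Ioc (0 : ℝ) 1).indicator (fun p : ((Fin m → ℝ) × (ℝ × ℝ)) × ℝ =>
        (((p.2 ^ (k - 1) : ℝ) : ℂ) * Phi k (2 * Real.pi * p.2 * p.1.2.1)) *
          Function.uncurry b (p.1.1, p.2)) := by
    ext p
    simp only [vA]
    by_cases h : p.2 ∈ Ioc (0 : ℝ) 1
    · rw [indicator_of_mem h, indicator_of_mem (by exact h)]
      rfl
    · rw [indicator_of_notMem h, indicator_of_notMem (by exact h)]
  rw [h1]
  apply Measurable.indicator _ (measurable_snd measurableSet_Ioc)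
  apply Measurable.mul
  · apply Measurable.mul
    · exact Complex.measurable_ofReal.comp (by fun_prop)
    · exact (Phi_meas k).comp (by fun_prop)
  · exact hb.meas.comp (by fun_prop)

lemma eA_meas' {k : ℕ} {c : ℂ} {b : (Fin m → ℝ) → ℝ → ℂ} (hb : Fam b) :
    Measurable fun p : ((Fin m → ℝ) × (ℝ × ℝ)) × ℝ => eA k c (b p.1.1) p.1.2.1 p.2 := by
  have h1 : (fun p : ((Fin m → ℝ) × (ℝ × ℝ)) × ℝ => eA k c (b p.1.1) p.1.2.1 p.2) =
      (Prod.snd ⁻¹' Ioc (0 : ℝ) 1).indicator (fun p : ((Fin m → ℝ) × (ℝ × ℝ)) × ℝ =>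
        (((p.2 ^ (k - 1) : ℝ) : ℂ) * er k c (2 * Real.pi * p.2 * p.1.2.1)) *
          Function.uncurry b (p.1.1, p.2)) := by
    ext p
    simp only [eA]
    by_cases h : p.2 ∈ Ioc (0 : ℝ) 1
    · rw [indicator_of_mem h, indicator_of_mem (by exact h)]
      rfl
    · rw [indicator_of_notMem h, indicator_of_notMem (by exact h)]
  rw [h1]
  apply Measurable.indicator _ (measurable_snd measurableSet_Ioc)
  apply Measurable.mul
  · apply Measurable.mul
    · exact Complex.measurable_ofReal.comp (by fun_prop)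
    · exact (er_meas k c).comp (by fun_prop)
  · exact hb.meas.comp (by fun_prop)

lemma gA_meas' {k : ℕ} {b : (Fin m → ℝ) → ℝ → ℂ} (hb : Fam b) :
    Measurable fun p : (Fin m → ℝ) × ℝ => gA k (b p.1) p.2 := by
  have h1 : (fun p : (Fin m → ℝ) × ℝ => gA k (b p.1) p.2) =
      (Prod.snd ⁻¹' Ioc (0 : ℝ) 1).indicator (fun p : (Fin m → ℝ) × ℝ =>
        ((p.2 ^ (((k : ℝ) - 1) / 2) : ℝ) : ℂ) * Function.uncurry b p) := by
    ext p
    simp only [gA]
    by_cases h : p.2 ∈ Ioc (0 : ℝ) 1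
    · rw [indicator_of_mem h, indicator_of_mem (by exact h)]
      rfl
    · rw [indicator_of_notMem h, indicator_of_notMem (by exact h)]
  rw [h1]
  apply Measurable.indicator _ (measurable_snd measurableSet_Ioc)
  apply Measurable.mul
  · exact Complex.measurable_ofReal.comp (by fun_prop)
  · exact hb.meas

lemma int_meas' {A : ((Fin m → ℝ) × (ℝ × ℝ)) → ℝ → ℂ}
    (hA : Measurable fun p : ((Fin m → ℝ) × (ℝ × ℝ)) × ℝ => A p.1 p.2) :
    Measurable fun p : (Fin m → ℝ) × (ℝ × ℝ) => ∫ r, ch (r ^ 2 * p.2.2) • A p r := by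
  apply StronglyMeasurable.measurable
  apply StronglyMeasurable.integral_prod_right'
    (f := fun z : ((Fin m → ℝ) × (ℝ × ℝ)) × ℝ => ch (z.2 ^ 2 * z.1.2.2) • A z.1 z.2)
  apply Measurable.stronglyMeasurable
  simp only [smul_eq_mul]
  apply Measurable.mul _ hA
  exact ch_cont.measurable.comp (by fun_prop)

lemma vA_zero {k : ℕ} {b : ℝ → ℂ} (h : ∀ r, b r = 0) (ρ r : ℝ) : vA k b ρ r = 0 := by
  unfold vA
  by_cases hr : r ∈ Ioc (0 : ℝ) 1
  · rw [indicator_of_mem hr, h r, smul_zero]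
  · rw [indicator_of_notMem hr]

lemma eA_zero {k : ℕ} {c : ℂ} {b : ℝ → ℂ} (h : ∀ r, b r = 0) (ρ r : ℝ) : eA k c b ρ r = 0 := by
  unfold eA
  by_cases hr : r ∈ Ioc (0 : ℝ) 1
  · rw [indicator_of_mem hr, h r, smul_zero]
  · rw [indicator_of_notMem hr]

lemma gA_zero {k : ℕ} {b : ℝ → ℂ} (h : ∀ r, b r = 0) (r : ℝ) : gA k b r = 0 := by
  unfold gA
  by_cases hr : r ∈ Ioc (0 : ℝ) 1
  · rw [indicator_of_mem hr, h r, smul_zero]
  · rw [indicator_of_notMem hr]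

lemma VV_QF {k : ℕ} {b : (Fin m → ℝ) → ℝ → ℂ} (hb : Fam b) :
    QF fun v ρ t => VV k (b v) ρ t := by
  refine ⟨?_, ?_⟩
  · unfold VV
    exact int_meas' (A := fun p r => vA k (b p.1) p.2.1 r) (vA_meas' hb)
  · intro v hv ρ t
    unfold VV
    apply integral_eq_zero_of_ae
    refine ae_of_all _ fun r => ?_
    simp only [vA_zero (hb.supp v hv), smul_zero]
    rfl

lemma WW_QF {k : ℕ} {c : ℂ} {b : (Fin m → ℝ) → ℝ → ℂ} (hb : Fam b) :
    QF fun v ρ t => WW k c (b v) ρ t := by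
  refine ⟨?_, ?_⟩
  · unfold WW
    exact int_meas' (A := fun p r => eA k c (b p.1) p.2.1 r) (eA_meas' hb)
  · intro v hv ρ t
    unfold WW
    apply integral_eq_zero_of_ae
    refine ae_of_all _ fun r => ?_
    simp only [eA_zero (hb.supp v hv), smul_zero]
    rfl

lemma gA_QF {k : ℕ} {b : (Fin m → ℝ) → ℝ → ℂ} (hb : Fam b) (σ : ℝ) :
    QF fun v ρ t => E1 (gA k (b v)) (σ * ρ) t := by
  refine ⟨?_, ?_⟩
  · unfold E1
    apply StronglyMeasurable.measurable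
    apply StronglyMeasurable.integral_prod_right'
      (f := fun z : ((Fin m → ℝ) × (ℝ × ℝ)) × ℝ =>
        ch (z.2 * (σ * z.1.2.1) + z.2 ^ 2 * z.1.2.2) • gA k (b z.1.1) z.2)
    apply Measurable.stronglyMeasurable
    simp only [smul_eq_mul]
    apply Measurable.mul
    · exact ch_cont.measurable.comp (by fun_prop)
    · have h := (gA_meas' (k := k) hb).comp (by fun_prop : Measurable
        fun z : ((Fin m → ℝ) × (ℝ × ℝ)) × ℝ => (z.1.1, z.2))
      simp only [Function.comp_def] at h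
      exact h
  · intro v hv ρ t
    unfold E1
    apply integral_eq_zero_of_ae
    refine ae_of_all _ fun r => ?_
    simp only [gA_zero (hb.supp v hv), smul_zero]
    rfl

end Pool.Agent.X146.RP
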