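import Mathlib
import Pool.Agent.X146.RP.Q
set_option autoImplicit false
set_option linter.unusedSectionVars false
set_option linter.style.haveILetI false

/-! The mixed estimate for functions of several free variables and one radius. -/

namespace Pool.Agent.X146.RP

open MeasureTheory Set Complex
open scoped ENNReal NNReal
open Pool.Agent.TH277.HT
open Pool.Agent.H438R2.BR (Phi Phi_le Phi_meas)
open Pool.Agent.W771.MD (qe em em_norm em_enorm em_cont em_meas planchM)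

/-- the pointwise bound -/
lemma alg_pt {k : ℕ} (hk : 2 ≤ k) (c : ℂ) (q : ℝ) (hq : 2 < q) {ρ : ℝ}
    (hρ1 : 1 < ρ) (v x y z : ℂ) (h : v = (((2 * Real.pi * ρ) ^ (-((k : ℝ) - 1) / 2) : ℝ) : ℂ) •
      (c • x + (starRingEnd ℂ) c • y) + z) :
    ENNReal.ofReal (ρ ^ (k - 1)) * ‖v‖ₑ ^ q ≤
      (2 ^ q * (2 ^ q * ‖c‖ₑ ^ q)) * (ENNReal.ofReal (ρ ^ (-((k : ℝ) - 1) * (q - 2) / 2)) *
        ‖x‖ₑ ^ q) +
      ((2 ^ q * (2 ^ q * ‖c‖ₑ ^ q)) * (ENNReal.ofReal (ρ ^ (-((k : ℝ) - 1) * (q - 2) / 2)) *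
        ‖y‖ₑ ^ q) +
      2 ^ q * (ENNReal.ofReal (ρ ^ (k - 1)) * ‖z‖ₑ ^ q)) := by
  have hρ0 : 0 < ρ := by linarith
  have hq0 : 0 ≤ q := by linarith
  have hk' : (2 : ℝ) ≤ k := by exact_mod_cast hk
  set X : ℝ≥0∞ := ‖x‖ₑ with hX
  set Y : ℝ≥0∞ := ‖y‖ₑ with hY
  set Z : ℝ≥0∞ := ‖z‖ₑ with hZ
  set P : ℝ≥0∞ := ENNReal.ofReal (ρ ^ (-((k : ℝ) - 1) / 2)) with hP
  have h1 : ‖v‖ₑ ≤ P * (‖c‖ₑ * (X + Y)) + Z := by
    rw [h]
    refine (enorm_add_le _ _).trans ?_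
    gcongr
    rw [enorm_smul]
    gcongr
    · rw [← ofReal_norm, Complex.norm_real, Real.norm_of_nonneg (Real.rpow_nonneg (by
        have := Real.pi_pos
        positivity) _)]
      apply ENNReal.ofReal_le_ofReal
      apply Real.rpow_le_rpow_of_nonpos hρ0 _ (by linarith)
      nlinarith [Real.pi_gt_three]
    · refine (enorm_add_le _ _).trans ?_
      rw [enorm_smul, enorm_smul, mul_add]
      gcongr
      rw [← ofReal_norm, ← ofReal_norm, RCLike.norm_conj]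
  have h2 : ENNReal.ofReal (ρ ^ (k - 1)) * P ^ q =
      ENNReal.ofReal (ρ ^ (-((k : ℝ) - 1) * (q - 2) / 2)) := by
    rw [hP, ENNReal.ofReal_rpow_of_nonneg (Real.rpow_nonneg hρ0.le _) hq0,
      ← ENNReal.ofReal_mul (by positivity)]
    congr 1
    rw [← Real.rpow_mul hρ0.le, ← Real.rpow_natCast, ← Real.rpow_add hρ0]
    congr 1
    rw [Nat.cast_sub (by omega)]
    push_cast
    ring
  calc ENNReal.ofReal (ρ ^ (k - 1)) * ‖v‖ₑ ^ q
      ≤ ENNReal.ofReal (ρ ^ (k - 1)) * (P * (‖c‖ₑ * (X + Y)) + Z) ^ q := by gcongr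
    _ ≤ ENNReal.ofReal (ρ ^ (k - 1)) * (2 ^ q * ((P * (‖c‖ₑ * (X + Y))) ^ q + Z ^ q)) := by
        gcongr
        exact add_rpow_le _ _ q hq0
    _ = ENNReal.ofReal (ρ ^ (k - 1)) * (2 ^ q * (P ^ q * (‖c‖ₑ ^ q * (X + Y) ^ q) + Z ^ q)) := by
        rw [ENNReal.mul_rpow_of_nonneg _ _ hq0, ENNReal.mul_rpow_of_nonneg _ _ hq0]
    _ ≤ ENNReal.ofReal (ρ ^ (k - 1)) *
        (2 ^ q * (P ^ q * (‖c‖ₑ ^ q * (2 ^ q * (X ^ q + Y ^ q))) + Z ^ q)) := by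
        gcongr
        exact add_rpow_le _ _ q hq0
    _ = (2 ^ q * (2 ^ q * ‖c‖ₑ ^ q)) * ((ENNReal.ofReal (ρ ^ (k - 1)) * P ^ q) * X ^ q) +
        ((2 ^ q * (2 ^ q * ‖c‖ₑ ^ q)) * ((ENNReal.ofReal (ρ ^ (k - 1)) * P ^ q) * Y ^ q) +
        2 ^ q * (ENNReal.ofReal (ρ ^ (k - 1)) * Z ^ q)) := by ring
    _ = _ := by rw [h2]

variable {m : ℕ}

/-- the decomposition of the integrated profile -/
lemma TV_dec {k : ℕ} {c : ℂ} {C : ℝ} (hk : 2 ≤ k) (hA : Asym k c C) {b : (Fin m → ℝ) → ℝ → ℂ}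
    (hb : Fam b) {ρ : ℝ} (hρ : 0 < ρ) (x : Fin m → ℝ) (t : ℝ) :
    TT (fun v ρ t => VV k (b v) ρ t) x ρ t =
      (((2 * Real.pi * ρ) ^ (-((k : ℝ) - 1) / 2) : ℝ) : ℂ) •
      (c • TT (fun v ρ t => E1 (gA k (b v)) (1 * ρ) t) x ρ t +
        (starRingEnd ℂ) c • TT (fun v ρ t => E1 (gA k (b v)) (-1 * ρ) t) x ρ t) +
      TT (fun v ρ t => WW k c (b v) ρ t) x ρ t := by
  have hem : Measurable (em x t) := em_meas x t
  have hi : ∀ Q : (Fin m → ℝ) → ℝ → ℝ → ℂ, QF Q → ∀ A : ℝ, (∀ v, ‖Q v ρ t‖ ≤ A) →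
      Integrable fun v => Q v ρ t * em x t v := by
    intro Q hQ A hA
    refine (hQ.int hA).mono ((hQ.slice ρ t).mul hem).aestronglyMeasurable (ae_of_all _ fun v => ?_)
    rw [norm_mul, em_norm, mul_one]
  have i1 := hi _ (gA_QF (k := k) hb 1) 2 fun v => E1_le (gA_adm hk (hb.adm v)) _ _
  have i2 := hi _ (gA_QF (k := k) hb (-1)) 2 fun v => E1_le (gA_adm hk (hb.adm v)) _ _
  have i3 := hi _ (WW_QF (k := k) (c := c) hb) _ fun v => WW_bd hk hA (hb.adm v) hρ t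
  unfold TT
  have e1 : ∫ v, VV k (b v) ρ t * em x t v =
      ∫ v, ((((2 * Real.pi * ρ) ^ (-((k : ℝ) - 1) / 2) : ℝ) : ℂ) •
        (c • (E1 (gA k (b v)) (1 * ρ) t * em x t v) +
          (starRingEnd ℂ) c • (E1 (gA k (b v)) (-1 * ρ) t * em x t v)) +
        WW k c (b v) ρ t * em x t v) := by
    apply integral_congr_ae
    refine ae_of_all _ fun v => ?_
    simp only
    rw [VV_dec hk hA (hb.adm v) hρ t, one_mul, neg_one_mul]
    simp only [smul_eq_mul]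
    ring
  have j1 : Integrable fun v => c • (E1 (gA k (b v)) (1 * ρ) t * em x t v) := i1.smul c
  have j2 : Integrable fun v => (starRingEnd ℂ) c • (E1 (gA k (b v)) (-1 * ρ) t * em x t v) :=
    i2.smul ((starRingEnd ℂ) c)
  have j3 : Integrable fun v => (((2 * Real.pi * ρ) ^ (-((k : ℝ) - 1) / 2) : ℝ) : ℂ) •
        (c • (E1 (gA k (b v)) (1 * ρ) t * em x t v) +
          (starRingEnd ℂ) c • (E1 (gA k (b v)) (-1 * ρ) t * em x t v)) :=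
    (j1.add j2).smul (((2 * Real.pi * ρ) ^ (-((k : ℝ) - 1) / 2) : ℝ) : ℂ)
  rw [e1, integral_add j3 i3, integral_smul, integral_add j1 j2, integral_smul, integral_smul]

/-- Hölder's inequality between the mass and the high norm -/
lemma holder_w {Z : Type*} [MeasurableSpace Z] (ν : Measure Z) [SFinite ν] (q p₀ β : ℝ)
    (hq : 2 < q) (hqp : q < p₀) (hβ : (p₀ - q) / (p₀ - 2) < β) (B A₀ : ℝ≥0∞)
    (F : ℝ → Z → ℝ≥0∞) (hF : Measurable (Function.uncurry F)) (h2 : ∀ ρ, ∫⁻ z, F ρ z ^ 2 ∂ν ≤ B)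
    (h3 : ∫⁻ ρ, ∫⁻ z, F ρ z ^ p₀ ∂ν ≤ A₀) :
    ∫⁻ ρ in Ioi (1 : ℝ), ENNReal.ofReal (ρ ^ (-β)) * ∫⁻ z, F ρ z ^ q ∂ν ≤
      B ^ ((p₀ - q) / (p₀ - 2)) * (ENNReal.ofReal (1 / (β / ((p₀ - q) / (p₀ - 2)) - 1)) ^
        ((p₀ - q) / (p₀ - 2)) * A₀ ^ (1 - (p₀ - q) / (p₀ - 2))) := by
  set θ : ℝ := (p₀ - q) / (p₀ - 2) with hθ
  have hp2 : 0 < p₀ - 2 := by linarith
  have hθ0 : 0 < θ := div_pos (by linarith) hp2
  have hθ1 : θ < 1 := by
    rw [hθ, div_lt_one hp2]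
    linarith
  have hθq : 2 * θ + p₀ * (1 - θ) = q := by
    rw [hθ]
    field_simp
    ring
  have hFm : ∀ ρ, Measurable (F ρ) := fun ρ => hF.comp measurable_prodMk_left
  have hG : Measurable fun ρ => ∫⁻ z, F ρ z ^ p₀ ∂ν := (hF.pow_const p₀).lintegral_prod_right'
  have hp : ∀ ρ, ∫⁻ z, F ρ z ^ q ∂ν ≤ B ^ θ * (∫⁻ z, F ρ z ^ p₀ ∂ν) ^ (1 - θ) := by
    intro ρ
    calc ∫⁻ z, F ρ z ^ q ∂ν = ∫⁻ z, (F ρ z ^ 2) ^ θ * (F ρ z ^ p₀) ^ (1 - θ) ∂ν := by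
          apply lintegral_congr
          intro z
          rw [← ENNReal.rpow_natCast, ← ENNReal.rpow_mul, ← ENNReal.rpow_mul,
            ← ENNReal.rpow_add_of_nonneg _ _ (by positivity)
              (mul_nonneg (by linarith) (by linarith))]
          congr 1
          push_cast
          exact hθq.symm
      _ ≤ (∫⁻ z, F ρ z ^ 2 ∂ν) ^ θ * (∫⁻ z, F ρ z ^ p₀ ∂ν) ^ (1 - θ) :=
          ENNReal.lintegral_mul_norm_pow_le ((hFm ρ).pow_const 2).aemeasurable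
            ((hFm ρ).pow_const p₀).aemeasurable hθ0.le (by linarith) (by ring)
      _ ≤ _ := by
          gcongr
          exact h2 ρ
  calc ∫⁻ ρ in Ioi (1 : ℝ), ENNReal.ofReal (ρ ^ (-β)) * ∫⁻ z, F ρ z ^ q ∂ν
      ≤ ∫⁻ ρ in Ioi (1 : ℝ), ENNReal.ofReal (ρ ^ (-β)) *
          (B ^ θ * (∫⁻ z, F ρ z ^ p₀ ∂ν) ^ (1 - θ)) := by
        apply lintegral_mono
        intro ρ
        simp only
        gcongr
        exact hp ρ
    _ = ∫⁻ ρ in Ioi (1 : ℝ), B ^ θ * (ENNReal.ofReal (ρ ^ (-β / θ)) ^ θ *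
          (∫⁻ z, F ρ z ^ p₀ ∂ν) ^ (1 - θ)) := by
        apply setLIntegral_congr_fun measurableSet_Ioi
        intro ρ hρ
        have hρ0 : (0 : ℝ) < ρ := lt_trans one_pos hρ
        simp only
        rw [ENNReal.ofReal_rpow_of_nonneg (Real.rpow_nonneg hρ0.le _) hθ0.le,
          ← Real.rpow_mul hρ0.le, div_mul_cancel₀ _ hθ0.ne']
        ring
    _ ≤ B ^ θ * ∫⁻ ρ in Ioi (1 : ℝ), ENNReal.ofReal (ρ ^ (-β / θ)) ^ θ *
          (∫⁻ z, F ρ z ^ p₀ ∂ν) ^ (1 - θ) := by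
        have hmm : Measurable fun ρ => ENNReal.ofReal (ρ ^ (-β / θ)) ^ θ *
          (∫⁻ z, F ρ z ^ p₀ ∂ν) ^ (1 - θ) :=
          ((by fun_prop : Measurable fun ρ : ℝ => ENNReal.ofReal (ρ ^ (-β / θ))).pow_const θ).mul
            (hG.pow_const _)
        rw [lintegral_const_mul _ hmm]
    _ ≤ B ^ θ * ((∫⁻ ρ in Ioi (1 : ℝ), ENNReal.ofReal (ρ ^ (-β / θ))) ^ θ *
          (∫⁻ ρ in Ioi (1 : ℝ), ∫⁻ z, F ρ z ^ p₀ ∂ν) ^ (1 - θ)) := by
        gcongr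
        exact ENNReal.lintegral_mul_norm_pow_le (by fun_prop) hG.aemeasurable hθ0.le (by linarith)
          (by ring)
    _ ≤ B ^ θ * (ENNReal.ofReal (1 / (β / θ - 1)) ^ θ * A₀ ^ (1 - θ)) := by
        gcongr
        · rw [Ioi_rpow]
          · apply ENNReal.ofReal_le_ofReal
            apply le_of_eq
            have h9 : -β / θ + 1 = -(β / θ - 1) := by ring
            rw [h9, neg_div, one_div, one_div, inv_neg, neg_neg]
          · rw [neg_div]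
            have : 1 < β / θ := by
              rw [lt_div_iff₀ hθ0]
              linarith
            linarith
        · exact le_trans (setLIntegral_le_lintegral _ _) h3

/-- the norm over all times and positions of the free variables -/
noncomputable def hh (Q : (Fin m → ℝ) → ℝ → ℝ → ℂ) (q ρ : ℝ) : ℝ≥0∞ :=
  ∫⁻ t, ∫⁻ x, ‖TT Q x ρ t‖ₑ ^ q

lemma hh_meas {Q : (Fin m → ℝ) → ℝ → ℝ → ℂ} (hQ : QF Q) (q : ℝ) : Measurable (hh Q q) := by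
  have h1 : Measurable fun p : (ℝ × ℝ) × (Fin m → ℝ) => ‖TT Q p.2 p.1.1 p.1.2‖ₑ ^ q := by
    have h := (TT_meas hQ).comp (by fun_prop : Measurable
      fun p : (ℝ × ℝ) × (Fin m → ℝ) => (p.2, (p.1.1, p.1.2)))
    simp only [Function.comp_def] at h
    exact h.enorm.pow_const q
  exact (h1.lintegral_prod_right').lintegral_prod_right'

lemma hh_z {Q : (Fin m → ℝ) → ℝ → ℝ → ℂ} (hQ : QF Q) (q ρ : ℝ) :
    hh Q q ρ = ∫⁻ z : ℝ × (Fin m → ℝ), ‖TT Q z.2 ρ z.1‖ₑ ^ q := by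
  have h1 : Measurable fun z : ℝ × (Fin m → ℝ) => ‖TT Q z.2 ρ z.1‖ₑ ^ q := by
    have h := (TT_meas hQ).comp (by fun_prop : Measurable
      fun z : ℝ × (Fin m → ℝ) => (z.2, (ρ, z.1)))
    simp only [Function.comp_def] at h
    exact h.enorm.pow_const q
  rw [Measure.volume_eq_prod, lintegral_prod _ h1.aemeasurable]
  rfl

/-- the main term -/
lemma main_w (k : ℕ) (hk : 2 ≤ k) (q p₀ : ℝ) (hq : 2 < q) (hqp : q < p₀)
    (hc : p₀ - q < ((k : ℝ) - 1) * (q - 2) * (p₀ - 2) / 2) (A₀ : ℝ≥0)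
    (b : (Fin m → ℝ) → ℝ → ℂ) (hb : Fam b) (σ : ℝ)
    (hR : ∫⁻ ρ, hh (fun v ρ t => E1 (gA k (b v)) (σ * ρ) t) p₀ ρ ≤ A₀) :
    ∫⁻ ρ in Ioi (1 : ℝ), ENNReal.ofReal (ρ ^ (-((k : ℝ) - 1) * (q - 2) / 2)) *
      hh (fun v ρ t => E1 (gA k (b v)) (σ * ρ) t) q ρ ≤
      (2 ^ m) ^ ((p₀ - q) / (p₀ - 2)) * (ENNReal.ofReal (1 / (((k : ℝ) - 1) * (q - 2) / 2 /
        ((p₀ - q) / (p₀ - 2)) - 1)) ^
        ((p₀ - q) / (p₀ - 2)) * (A₀ : ℝ≥0∞) ^ (1 - (p₀ - q) / (p₀ - 2))) := by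
  have hQ := gA_QF (k := k) hb σ
  set Q : (Fin m → ℝ) → ℝ → ℝ → ℂ := fun v ρ t => E1 (gA k (b v)) (σ * ρ) t with hQdef
  have hp2 : 0 < p₀ - 2 := by linarith
  have h1 := holder_w (volume : Measure (ℝ × (Fin m → ℝ))) q p₀ (((k : ℝ) - 1) * (q - 2) / 2) hq hqp
    (by
      rw [div_lt_iff₀ hp2]
      linarith) (2 ^ m) A₀ (fun ρ z => ‖TT Q z.2 ρ z.1‖ₑ) (by
      have h := (TT_meas hQ).comp (by fun_prop : Measurable
        fun p : ℝ × (ℝ × (Fin m → ℝ)) => (p.2.2, (p.1, p.2.1)))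
      simp only [Function.comp_def] at h
      exact h.enorm) (by
      intro ρ
      have h2 := TT_Lq hQ (ρ := ρ) (A := 2) (B := 1)
        (fun v t => E1_le (gA_adm hk (hb.adm v)) _ _)
        (fun v => main_time hk (hb.adm v) (σ * ρ)) 2 le_rfl
      rw [sub_self, Real.rpow_zero, ENNReal.ofReal_one, one_mul, mul_one] at h2
      have h3 := hh_z hQ 2 ρ
      unfold hh at h3
      rw [h3] at h2
      refine le_trans (le_of_eq ?_) h2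
      apply lintegral_congr
      intro z
      norm_cast) (by
      refine le_trans (le_of_eq ?_) hR
      apply lintegral_congr
      intro ρ
      exact (hh_z hQ p₀ ρ).symm)
  refine le_trans (le_of_eq ?_) h1
  apply setLIntegral_congr_fun measurableSet_Ioi
  intro ρ _
  simp only
  rw [hh_z hQ q ρ]
  congr 3
  ring

/-- **the estimate for the profile** -/
theorem prof2 (m k : ℕ) (hk : 2 ≤ k) (q p₀ : ℝ) (hq : 2 < q) (hqp : q < p₀)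
    (hc : p₀ - q < ((k : ℝ) - 1) * (q - 2) * (p₀ - 2) / 2) (A₀ : ℝ≥0) : ∃ K : ℝ≥0,
    ∀ b : (Fin m → ℝ) → ℝ → ℂ, Fam b →
    (∫⁻ ρ, hh (fun v ρ t => E1 (gA k (b v)) (1 * ρ) t) p₀ ρ ≤ A₀) →
    ∫⁻ ρ in Ioi (0 : ℝ), ENNReal.ofReal (ρ ^ (k - 1)) *
      hh (fun v ρ t => VV k (b v) ρ t) q ρ ≤ K := by
  have hk2 : (2 : ℝ) ≤ k := by exact_mod_cast hk
  obtain ⟨c, C, hA⟩ := exists_asym k hk
  have hC := hA.1
  have hp2 : 0 < p₀ - 2 := by linarith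
  set θ : ℝ := (p₀ - q) / (p₀ - 2) with hθ
  have hθ0 : 0 < θ := div_pos (by linarith) hp2
  have hθ1 : θ < 1 := by
    rw [hθ, div_lt_one hp2]
    linarith
  set L1 : ℝ≥0∞ := 2 ^ q * (2 ^ q * ‖c‖ₑ ^ q) with hL1
  have h2q : (2 : ℝ≥0∞) ^ q ≠ ∞ := ENNReal.rpow_ne_top_of_nonneg (by linarith) (by norm_num)
  have hL1f : L1 ≠ ∞ := by
    rw [hL1]
    apply ENNReal.mul_ne_top h2q
    apply ENNReal.mul_ne_top h2q
    exact ENNReal.rpow_ne_top_of_nonneg (by linarith) enorm_ne_top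
  set M1 : ℝ≥0∞ := (2 ^ m) ^ θ * (ENNReal.ofReal (1 / (((k : ℝ) - 1) * (q - 2) / 2 / θ - 1)) ^ θ *
    (A₀ : ℝ≥0∞) ^ (1 - θ)) with hM1
  have hM1f : M1 ≠ ∞ := by
    rw [hM1]
    apply ENNReal.mul_ne_top
      (ENNReal.rpow_ne_top_of_nonneg hθ0.le (ENNReal.pow_ne_top (by norm_num)))
    apply ENNReal.mul_ne_top
    · exact ENNReal.rpow_ne_top_of_nonneg hθ0.le ENNReal.ofReal_ne_top
    · exact ENNReal.rpow_ne_top_of_nonneg (by linarith) ENNReal.coe_ne_top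
  set R0 : ℝ≥0∞ := ENNReal.ofReal ((2 ^ m * Real.pi) ^ (q - 2)) *
    (2 ^ m * ENNReal.ofReal (Real.pi ^ 2)) with hR0
  have hR0f : R0 ≠ ∞ := by
    rw [hR0]
    exact ENNReal.mul_ne_top ENNReal.ofReal_ne_top (ENNReal.mul_ne_top
      (ENNReal.pow_ne_top (by norm_num)) ENNReal.ofReal_ne_top)
  set R2 : ℝ≥0∞ := (ENNReal.ofReal ((2 ^ m * (2 * C)) ^ (q - 2)) * (2 ^ m *
    ENNReal.ofReal (C ^ 2))) * ENNReal.ofReal (2 / (((k : ℝ) + 1) * (q - 2))) with hR2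
  have hR2f : R2 ≠ ∞ := by
    rw [hR2]
    exact ENNReal.mul_ne_top (ENNReal.mul_ne_top ENNReal.ofReal_ne_top (ENNReal.mul_ne_top
      (ENNReal.pow_ne_top (by norm_num)) ENNReal.ofReal_ne_top)) ENNReal.ofReal_ne_top
  set T : ℝ≥0∞ := R0 + (L1 * M1 + (L1 * M1 + 2 ^ q * R2)) with hT
  have hTf : T ≠ ∞ := by
    rw [hT]
    exact ENNReal.add_ne_top.2 ⟨hR0f, ENNReal.add_ne_top.2 ⟨ENNReal.mul_ne_top hL1f hM1f,
      ENNReal.add_ne_top.2 ⟨ENNReal.mul_ne_top hL1f hM1f, ENNReal.mul_ne_top h2q hR2f⟩⟩⟩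
  refine ⟨T.toNNReal, ?_⟩
  rw [ENNReal.coe_toNNReal hTf]
  intro b hb hR
  set QV : (Fin m → ℝ) → ℝ → ℝ → ℂ := fun v ρ t => VV k (b v) ρ t with hQV
  set QP : (Fin m → ℝ) → ℝ → ℝ → ℂ := fun v ρ t => E1 (gA k (b v)) (1 * ρ) t with hQP
  set QM : (Fin m → ℝ) → ℝ → ℝ → ℂ := fun v ρ t => E1 (gA k (b v)) (-1 * ρ) t with hQM
  set QW : (Fin m → ℝ) → ℝ → ℝ → ℂ := fun v ρ t => WW k c (b v) ρ t with hQW
  have fV : QF QV := VV_QF hb
  have fP : QF QP := gA_QF hb 1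
  have fM : QF QM := gA_QF hb (-1)
  have fW : QF QW := WW_QF hb
  set w : ℝ → ℝ≥0∞ := fun ρ => ENNReal.ofReal (ρ ^ (-((k : ℝ) - 1) * (q - 2) / 2)) with hw
  have mw : Measurable w := by
    rw [hw]
    fun_prop
  have mρ : Measurable fun ρ : ℝ => ENNReal.ofReal (ρ ^ (k - 1)) := by fun_prop
  -- near zero
  have b0 : ∫⁻ ρ in Ioc (0 : ℝ) 1, ENNReal.ofReal (ρ ^ (k - 1)) * hh QV q ρ ≤ R0 := by
    apply lint_le
    intro ρ hρ
    have h2 : ENNReal.ofReal (ρ ^ (k - 1)) ≤ 1 :=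
      ENNReal.ofReal_le_one.2 (pow_le_one₀ hρ.1.le hρ.2)
    have h3 : hh QV q ρ ≤ R0 := TT_Lq fV (ρ := ρ) (A := Real.pi)
      (B := ENNReal.ofReal (Real.pi ^ 2)) (fun v t => VV_bd hk (hb.adm v) ρ t)
      (fun v => VV_time hk (hb.adm v) ρ) q hq.le
    calc ENNReal.ofReal (ρ ^ (k - 1)) * hh QV q ρ ≤ 1 * R0 := by gcongr
      _ = R0 := one_mul _
  -- the pointwise splitting
  have hpt : ∀ ρ ∈ Ioi (1 : ℝ), ENNReal.ofReal (ρ ^ (k - 1)) * hh QV q ρ ≤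
      L1 * (w ρ * hh QP q ρ) + (L1 * (w ρ * hh QM q ρ) +
        2 ^ q * (ENNReal.ofReal (ρ ^ (k - 1)) * hh QW q ρ)) := by
    intro ρ hρ
    have hρ1 : (1 : ℝ) < ρ := hρ
    have sm : ∀ {Q : (Fin m → ℝ) → ℝ → ℝ → ℂ}, QF Q →
        Measurable fun z : ℝ × (Fin m → ℝ) => ‖TT Q z.2 ρ z.1‖ₑ ^ q := by
      intro Q hQ
      have h := (TT_meas hQ).comp (by fun_prop : Measurable
        fun z : ℝ × (Fin m → ℝ) => (z.2, (ρ, z.1)))
      simp only [Function.comp_def] at h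
      exact h.enorm.pow_const q
    rw [hh_z fV, hh_z fP, hh_z fM, hh_z fW]
    have hwf : w ρ ≠ ∞ := ENNReal.ofReal_ne_top
    rw [← lintegral_const_mul' _ _ ENNReal.ofReal_ne_top, ← lintegral_const_mul' _ _ hwf,
      ← lintegral_const_mul' _ _ hwf, ← lintegral_const_mul' _ _ ENNReal.ofReal_ne_top,
      ← lintegral_const_mul' _ _ hL1f, ← lintegral_const_mul' _ _ hL1f,
      ← lintegral_const_mul' _ _ h2q, ← lintegral_add_left (((sm fM).const_mul _).const_mul _),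
      ← lintegral_add_left (((sm fP).const_mul _).const_mul _)]
    apply lintegral_mono
    intro z
    exact alg_pt hk c q hq hρ1 _ _ _ _ (TV_dec hk hA hb (by linarith) z.2 z.1)
  -- the three parts
  have b1 : ∫⁻ ρ in Ioi (1 : ℝ), w ρ * hh QP q ρ ≤ M1 :=
    main_w k hk q p₀ hq hqp hc A₀ b hb 1 hR
  have b2 : ∫⁻ ρ in Ioi (1 : ℝ), w ρ * hh QM q ρ ≤ M1 := by
    apply main_w k hk q p₀ hq hqp hc A₀ b hb (-1)
    refine le_trans (le_of_eq ?_) hR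
    rw [← lintegral_neg_eq_self (fun ρ => hh QP p₀ ρ)]
    apply lintegral_congr
    intro ρ
    unfold hh TT
    simp only [hQP, hQM, one_mul, neg_one_mul]
  have b3 : ∫⁻ ρ in Ioi (1 : ℝ), ENNReal.ofReal (ρ ^ (k - 1)) * hh QW q ρ ≤ R2 := by
    have h1 : ∀ ρ ∈ Ioi (1 : ℝ), ENNReal.ofReal (ρ ^ (k - 1)) * hh QW q ρ ≤
        (ENNReal.ofReal ((2 ^ m * (2 * C)) ^ (q - 2)) * (2 ^ m * ENNReal.ofReal (C ^ 2))) *
        ENNReal.ofReal (ρ ^ (-1 - ((k : ℝ) + 1) * (q - 2) / 2)) := by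
      intro ρ hρ
      have hρ1 : (1 : ℝ) < ρ := hρ
      have hρ0 : 0 < ρ := by linarith
      have h3 : hh QW q ρ ≤ _ := TT_Lq fW (ρ := ρ) (A := 2 * C * ρ ^ (-((k : ℝ) + 1) / 2))
        (B := ENNReal.ofReal (C ^ 2 * ρ ^ (-(k : ℝ))))
        (fun v t => WW_bd hk hA (hb.adm v) hρ0 t)
        (fun v => WW_time hk hA (hb.adm v) hρ0) q hq.le
      refine (mul_le_mul_right h3 _).trans (le_of_eq ?_)
      have e2 : (2 : ℝ≥0∞) ^ m = ENNReal.ofReal (2 ^ m) := by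
        rw [ENNReal.ofReal_pow (by norm_num), ENNReal.ofReal_ofNat]
      rw [e2, ← ENNReal.ofReal_mul (by positivity), ← ENNReal.ofReal_mul (by positivity),
        ← ENNReal.ofReal_mul (by positivity), ← ENNReal.ofReal_mul (by positivity),
        ← ENNReal.ofReal_mul (by positivity), ← ENNReal.ofReal_mul (by positivity)]
      congr 1
      have e3 : 2 ^ m * (2 * C * ρ ^ (-((k : ℝ) + 1) / 2)) =
          (2 ^ m * (2 * C)) * ρ ^ (-((k : ℝ) + 1) / 2) := by ring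
      rw [e3, Real.mul_rpow (by positivity) (Real.rpow_nonneg hρ0.le _), ← Real.rpow_mul hρ0.le,
        ← Real.rpow_natCast ρ (k - 1)]
      have e1 : ρ ^ (((k - 1 : ℕ)) : ℝ) * ρ ^ (-((k : ℝ) + 1) / 2 * (q - 2)) *
          ρ ^ (-(k : ℝ)) = ρ ^ (-1 - ((k : ℝ) + 1) * (q - 2) / 2) := by
        rw [← Real.rpow_add hρ0, ← Real.rpow_add hρ0]
        congr 1
        rw [Nat.cast_sub (by omega)]
        push_cast
        ring
      rw [← e1]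
      ring
    have hpos : 0 < ((k : ℝ) + 1) * (q - 2) := mul_pos (by linarith) (by linarith)
    calc ∫⁻ ρ in Ioi (1 : ℝ), ENNReal.ofReal (ρ ^ (k - 1)) * hh QW q ρ
        ≤ ∫⁻ ρ in Ioi (1 : ℝ), (ENNReal.ofReal ((2 ^ m * (2 * C)) ^ (q - 2)) *
          (2 ^ m * ENNReal.ofReal (C ^ 2))) *
          ENNReal.ofReal (ρ ^ (-1 - ((k : ℝ) + 1) * (q - 2) / 2)) :=
          setLIntegral_mono' measurableSet_Ioi h1
      _ = (ENNReal.ofReal ((2 ^ m * (2 * C)) ^ (q - 2)) *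
          (2 ^ m * ENNReal.ofReal (C ^ 2))) *
          ENNReal.ofReal (-1 / (-1 - ((k : ℝ) + 1) * (q - 2) / 2 + 1)) := by
          rw [lintegral_const_mul _ (by fun_prop), Ioi_rpow _ (by linarith)]
      _ = R2 := by
          rw [hR2]
          congr 2
          rw [show -1 - ((k : ℝ) + 1) * (q - 2) / 2 + 1 = -(((k : ℝ) + 1) * (q - 2) / 2) by ring,
            neg_div_neg_eq, one_div_div]
  have hu : Ioi (0 : ℝ) = Ioc 0 1 ∪ Ioi 1 := (Ioc_union_Ioi_eq_Ioi zero_le_one).symm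
  rw [hu]
  refine (lintegral_union_le _ _ _).trans ?_
  rw [hT]
  gcongr
  have n1 : Measurable fun ρ => L1 * (w ρ * hh QP q ρ) := (mw.mul (hh_meas fP q)).const_mul _
  have n2 : Measurable fun ρ => L1 * (w ρ * hh QM q ρ) := (mw.mul (hh_meas fM q)).const_mul _
  calc ∫⁻ ρ in Ioi (1 : ℝ), ENNReal.ofReal (ρ ^ (k - 1)) * hh QV q ρ
      ≤ ∫⁻ ρ in Ioi (1 : ℝ), (L1 * (w ρ * hh QP q ρ) + (L1 * (w ρ * hh QM q ρ) +
        2 ^ q * (ENNReal.ofReal (ρ ^ (k - 1)) * hh QW q ρ))) :=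
        setLIntegral_mono' measurableSet_Ioi hpt
    _ = L1 * (∫⁻ ρ in Ioi (1 : ℝ), w ρ * hh QP q ρ) + (L1 * (∫⁻ ρ in Ioi (1 : ℝ), w ρ * hh QM q ρ) +
        2 ^ q * ∫⁻ ρ in Ioi (1 : ℝ), ENNReal.ofReal (ρ ^ (k - 1)) * hh QW q ρ) := by
        rw [lintegral_add_left n1, lintegral_add_left n2, lintegral_const_mul' _ _ hL1f,
          lintegral_const_mul' _ _ hL1f, lintegral_const_mul' _ _ h2q]
    _ ≤ L1 * M1 + (L1 * M1 + 2 ^ q * R2) := by gcongr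

end Pool.Agent.X146.RP
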