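import Mathlib
import Pool.Agent.X146.RP.R
import Pool.Agent.X146.RP.K
set_option autoImplicit false
set_option linter.unusedSectionVars false
set_option linter.style.haveILetI false

/-! The extension of functions that are radial in a group of the variables. -/

namespace Pool.Agent.X146.RP

open MeasureTheory Set Complex WithLp
open scoped ENNReal NNReal RealInnerProductSpace
open Pool.Agent.TH277.HT
open Pool.Agent.H438R2.BR (Phi Phi_le Phi_meas)
open Pool.Agent.W771.MD (qe em em_norm em_enorm em_cont em_meas planchM)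
open Pool.Agent.H789R2.FR (E sg)

variable {m : ℕ}

lemma em_ch (x : Fin m → ℝ) (t : ℝ) (v : Fin m → ℝ) :
    em x t v = ch (∑ j, v j * x j + (∑ j, v j ^ 2) * t) := by
  unfold Pool.Agent.W771.MD.em
  rw [Finset.sum_mul, ← Finset.sum_add_distrib, ch_sum]
  rfl

/-- the restriction estimate with one more variable gives the estimate for the main term -/
lemma red (k : ℕ) (hk : 2 ≤ k) (p₀ : ℝ) (A₀ : ℝ≥0)
    (hE : ∀ g : (Fin (m + 1) → ℝ) → ℂ, Measurable g → (∀ ξ, ‖g ξ‖ ≤ 1) →
      ∫⁻ y, ‖EE g y‖ₑ ^ p₀ ≤ A₀) (b : (Fin m → ℝ) → ℝ → ℂ) (hb : Fam b) :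
    ∫⁻ ρ, hh (fun v ρ t => E1 (gA k (b v)) (1 * ρ) t) p₀ ρ ≤ A₀ := by
  set G : (Fin (m + 1) → ℝ) → ℂ := fun ξ => gA k (b (Fin.tail ξ)) (ξ 0) with hG
  have htail : Measurable fun ξ : Fin (m + 1) → ℝ => (Fin.tail ξ : Fin m → ℝ) := by
    rw [measurable_pi_iff]
    intro i
    exact measurable_pi_apply _
  have hGm : Measurable G := by
    have h := (gA_meas' (k := k) hb).comp (htail.prodMk (measurable_pi_apply 0))
    simp only [Function.comp_def] at h
    exact h
  have hGb : ∀ ξ, ‖G ξ‖ ≤ 1 := fun ξ => (gA_adm hk (hb.adm _)).bd _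
  have h1 := hE G hGm hGb
  have hQ := gA_QF (k := k) hb 1
  -- the two operators
  have h2 : ∀ (ρ t : ℝ) (x : Fin m → ℝ),
      TT (fun v ρ t => E1 (gA k (b v)) (1 * ρ) t) x ρ t = EE G (Fin.cons ρ x, t) := by
    intro ρ t x
    have hmp := (measurePreserving_piFinSuccAbove
      (fun _ : Fin (m + 1) => (volume : Measure ℝ)) 0).symm
    have hint : IntegrableOn (fun ξ : Fin (m + 1) → ℝ =>
        ch (∑ j, ξ j * (Fin.cons ρ x : Fin (m + 1) → ℝ) j + (∑ j, ξ j ^ 2) * t) * G ξ)
        (Icc (-1) 1) := by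
      apply IntegrableOn.of_bound (C := 1) isCompact_Icc.measure_lt_top
      · apply Measurable.aestronglyMeasurable
        apply Measurable.mul _ hGm
        exact ch_cont.measurable.comp (by fun_prop)
      · refine ae_of_all _ fun ξ => ?_
        rw [norm_mul, ch_norm, one_mul]
        exact hGb ξ
    rw [← integrable_indicator_iff measurableSet_Icc] at hint
    unfold EE
    simp only
    rw [← integral_indicator measurableSet_Icc, volume_pi, ← hmp.integral_comp']
    rw [volume_pi] at hint
    have hint2 := (hmp.integrable_comp_emb (MeasurableEquiv.measurableEmbedding _)).2 hint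
    have h3 : ∀ p : ℝ × (Fin m → ℝ), (Icc (-1 : Fin (m + 1) → ℝ) 1).indicator
        (fun ξ => ch (∑ j, ξ j * (Fin.cons ρ x : Fin (m + 1) → ℝ) j + (∑ j, ξ j ^ 2) * t) * G ξ)
        ((MeasurableEquiv.piFinSuccAbove (fun _ : Fin (m + 1) => ℝ) 0).symm p) =
        (Icc (-1 : ℝ) 1).indicator (fun u => ch (u * ρ + u ^ 2 * t) * gA k (b p.2) u) p.1 *
          em x t p.2 := by
      intro p
      set ξ : Fin (m + 1) → ℝ := (MeasurableEquiv.piFinSuccAbove
        (fun _ : Fin (m + 1) => ℝ) 0).symm p with hξ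
      have e1 : ξ 0 = p.1 := sa0 (X := fun _ : Fin (m + 1) => ℝ) p
      have e2 : ∀ j, ξ (Fin.succ j) = p.2 j := fun j => sa1 (X := fun _ : Fin (m + 1) => ℝ) p j
      have e3 : Fin.tail ξ = p.2 := by
        ext j
        exact e2 j
      have e4 : ch (∑ j, ξ j * (Fin.cons ρ x : Fin (m + 1) → ℝ) j + (∑ j, ξ j ^ 2) * t) * G ξ =
          ch (p.1 * ρ + p.1 ^ 2 * t) * gA k (b p.2) p.1 * em x t p.2 := by
        rw [Fin.sum_univ_succ, Fin.sum_univ_succ, Fin.cons_zero, em_ch, hG]
        simp only [Fin.cons_succ, e1, e2, e3]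
        have e5 : p.1 * ρ + ∑ i, p.2 i * x i + (p.1 ^ 2 + ∑ i, p.2 i ^ 2) * t =
            (p.1 * ρ + p.1 ^ 2 * t) + (∑ i, p.2 i * x i + (∑ i, p.2 i ^ 2) * t) := by ring
        rw [e5, ch_add]
        ring
      by_cases hc : ξ ∈ Icc (-1 : Fin (m + 1) → ℝ) 1
      · rw [indicator_of_mem hc, indicator_of_mem (show p.1 ∈ Icc (-1 : ℝ) 1 from by
          rw [← e1]
          exact ⟨hc.1 0, hc.2 0⟩), e4]
      · rw [indicator_of_notMem hc]
        by_cases h4 : p.1 ∈ Icc (-1 : ℝ) 1
        · rw [indicator_of_mem h4]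
          have h5 : p.2 ∉ Icc (-1 : Fin m → ℝ) 1 := by
            intro h6
            apply hc
            constructor
            · intro j
              refine Fin.cases ?_ (fun j => ?_) j
              · rw [e1]
                exact h4.1
              · rw [e2]
                exact h6.1 j
            · intro j
              refine Fin.cases ?_ (fun j => ?_) j
              · rw [e1]
                exact h4.2
              · rw [e2]
                exact h6.2 j
          rw [gA_zero (hb.supp _ h5), mul_zero, zero_mul]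
        · rw [indicator_of_notMem h4, zero_mul]
    simp only [Function.comp_def, h3] at hint2
    simp only [h3]
    rw [integral_prod_symm _ hint2]
    unfold TT E1
    simp only [one_mul]
    apply integral_congr_ae
    refine ae_of_all _ fun v => ?_
    simp only
    rw [integral_mul_const, integral_indicator measurableSet_Icc]
    rfl
  -- integration
  have h5 : ∫⁻ ρ, hh (fun v ρ t => E1 (gA k (b v)) (1 * ρ) t) p₀ ρ =
      ∫⁻ y, ‖EE G y‖ₑ ^ p₀ := by
    have hm : Measurable fun y => ‖EE G y‖ₑ ^ p₀ :=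
      (EE_meas hGm.stronglyMeasurable).enorm.pow_const p₀
    have hmp := (measurePreserving_piFinSuccAbove
      (fun _ : Fin (m + 1) => (volume : Measure ℝ)) 0).symm
    rw [Measure.volume_eq_prod, lintegral_prod_symm _ hm.aemeasurable]
    have h6 : ∀ t, ∫⁻ y : Fin (m + 1) → ℝ, ‖EE G (y, t)‖ₑ ^ p₀ =
        ∫⁻ ρ, ∫⁻ x : Fin m → ℝ, ‖EE G (Fin.cons ρ x, t)‖ₑ ^ p₀ := by
      intro t
      rw [volume_pi, ← hmp.lintegral_comp_emb (MeasurableEquiv.measurableEmbedding _)]
      have h7 : ∀ p : ℝ × (Fin m → ℝ), (MeasurableEquiv.piFinSuccAbove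
          (fun _ : Fin (m + 1) => ℝ) 0).symm p = Fin.cons p.1 p.2 := by
        intro p
        ext j
        refine Fin.cases ?_ (fun j => ?_) j
        · exact sa0 (X := fun _ : Fin (m + 1) => ℝ) p
        · exact sa1 (X := fun _ : Fin (m + 1) => ℝ) p j
      simp only [h7]
      have hm2 : Measurable fun p : ℝ × (Fin m → ℝ) =>
          ‖EE G ((Fin.cons p.1 p.2 : Fin (m + 1) → ℝ), t)‖ₑ ^ p₀ := by
        have h8 : Measurable fun p : ℝ × (Fin m → ℝ) =>
            (((Fin.cons p.1 p.2 : Fin (m + 1) → ℝ), t) : (Fin (m + 1) → ℝ) × ℝ) := by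
          apply Measurable.prodMk _ measurable_const
          rw [measurable_pi_iff]
          intro j
          refine Fin.cases ?_ (fun j => ?_) j
          · simp only [Fin.cons_zero]
            exact measurable_fst
          · simp only [Fin.cons_succ]
            fun_prop
        have h9 := hm.comp h8
        simp only [Function.comp_def] at h9
        exact h9
      rw [lintegral_prod _ hm2.aemeasurable]
      rfl
    simp only [h6]
    have hm3 : Measurable fun p : ℝ × ℝ =>
        ∫⁻ x : Fin m → ℝ, ‖EE G ((Fin.cons p.2 x : Fin (m + 1) → ℝ), p.1)‖ₑ ^ p₀ := by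
      have h8 : Measurable fun p : (ℝ × ℝ) × (Fin m → ℝ) =>
          (((Fin.cons p.1.2 p.2 : Fin (m + 1) → ℝ), p.1.1) : (Fin (m + 1) → ℝ) × ℝ) := by
        apply Measurable.prodMk _ (by fun_prop)
        rw [measurable_pi_iff]
        intro j
        refine Fin.cases ?_ (fun j => ?_) j
        · simp only [Fin.cons_zero]
          fun_prop
        · simp only [Fin.cons_succ]
          fun_prop
      have h9 := hm.comp h8
      simp only [Function.comp_def] at h9
      exact h9.lintegral_prod_right'
    rw [lintegral_lintegral_swap hm3.aemeasurable]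
    unfold hh
    simp only [h2]
  rw [h5]
  exact h1

end Pool.Agent.X146.RP
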