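import Mathlib
import Pool.Agent.X146.RP.S
set_option autoImplicit false
set_option linter.unusedSectionVars false
set_option linter.style.haveILetI false

/-! The estimate for functions that are radial in a group of the variables. -/

namespace Pool.Agent.X146.RP

open MeasureTheory Set Complex WithLp
open scoped ENNReal NNReal RealInnerProductSpace
open Pool.Agent.TH277.HT
open Pool.Agent.H438R2.BR (Phi Phi_le Phi_meas)
open Pool.Agent.W771.MD (qe em_norm em_enorm em_cont em_meas planchM)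
open Pool.Agent.H789R2.FR (E sg)

variable {m k n : ℕ}

/-- functions that are radial about `c` in the last group of variables -/
structure PR (c : Fin k → ℝ) (F : (Fin m → ℝ) → (Fin k → ℝ) → ℂ) : Prop where
  meas : Measurable (Function.uncurry F)
  bd : ∀ v η, ‖F v η‖ ≤ 1
  supp : ∀ v η, (v ∉ Icc (-1 : Fin m → ℝ) 1 ∨ η ∉ Icc (-1 : Fin k → ℝ) 1) → F v η = 0
  radial : ∀ v, ∀ η η' : Fin k → ℝ,
    ∑ i, (η i - c i) ^ 2 = ∑ i, (η' i - c i) ^ 2 → F v η = F v η'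

lemma PR.blk {c : Fin k → ℝ} {F : (Fin m → ℝ) → (Fin k → ℝ) → ℂ} (h : PR c F) (v : Fin m → ℝ) :
    Blk (F v) :=
  ⟨(h.meas.comp measurable_prodMk_left).stronglyMeasurable, h.bd v,
    fun η hη => h.supp v η (Or.inr hη), fun _ => ⟨c, h.radial v⟩⟩

lemma PR.fam (hk : 0 < k) {c : Fin k → ℝ} {F : (Fin m → ℝ) → (Fin k → ℝ) → ℂ} (h : PR c F) :
    Fam fun v => bb hk (F v) c := by
  refine ⟨?_, fun v r => h.bd v _, fun v hv r => h.supp v _ (Or.inl hv)⟩
  have h1 : Measurable fun p : (Fin m → ℝ) × ℝ =>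
      (p.1, Function.update c ⟨0, hk⟩ (c ⟨0, hk⟩ + p.2)) := by
    apply Measurable.prodMk measurable_fst
    rw [measurable_pi_iff]
    intro i
    by_cases hi : i = ⟨0, hk⟩
    · subst hi
      simp only [Function.update_self]
      fun_prop
    · simp only [Function.update_of_ne hi]
      fun_prop
  have h2 := h.meas.comp h1
  simp only [Function.comp_def] at h2
  exact h2

/-- the grouping of the coordinates into two groups -/
noncomputable def gs (e : Fin m ⊕ Fin k ≃ Fin n) :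
    ((Fin m → ℝ) × (Fin k → ℝ)) ≃ᵐ (Fin n → ℝ) :=
  (MeasurableEquiv.sumPiEquivProdPi (fun _ : Fin m ⊕ Fin k => ℝ)).symm.trans
    (MeasurableEquiv.piCongrLeft (fun _ => ℝ) e)

lemma gs_inl (e : Fin m ⊕ Fin k ≃ Fin n) (p : (Fin m → ℝ) × (Fin k → ℝ)) (i : Fin m) :
    gs e p (e (Sum.inl i)) = p.1 i := by
  unfold gs
  simp only [MeasurableEquiv.trans_apply]
  rw [MeasurableEquiv.coe_piCongrLeft, Equiv.piCongrLeft_apply_apply]
  rfl

lemma gs_inr (e : Fin m ⊕ Fin k ≃ Fin n) (p : (Fin m → ℝ) × (Fin k → ℝ)) (i : Fin k) :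
    gs e p (e (Sum.inr i)) = p.2 i := by
  unfold gs
  simp only [MeasurableEquiv.trans_apply]
  rw [MeasurableEquiv.coe_piCongrLeft, Equiv.piCongrLeft_apply_apply]
  rfl

lemma gs_mp (e : Fin m ⊕ Fin k ≃ Fin n) : MeasurePreserving (gs e) := by
  unfold gs
  exact (volume_measurePreserving_piCongrLeft (fun _ => ℝ) e).comp
    (volume_measurePreserving_sumPiEquivProdPi_symm (fun _ : Fin m ⊕ Fin k => ℝ))

/-- the function on the whole space -/
noncomputable def glue (e : Fin m ⊕ Fin k ≃ Fin n) (F : (Fin m → ℝ) → (Fin k → ℝ) → ℂ)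
    (ξ : Fin n → ℝ) : ℂ := F (fun i => ξ (e (Sum.inl i))) fun i => ξ (e (Sum.inr i))

lemma glue_gs (e : Fin m ⊕ Fin k ≃ Fin n) (F : (Fin m → ℝ) → (Fin k → ℝ) → ℂ)
    (p : (Fin m → ℝ) × (Fin k → ℝ)) : glue e F (gs e p) = F p.1 p.2 := by
  unfold glue
  simp only [gs_inl, gs_inr]

lemma sum_gs (e : Fin m ⊕ Fin k ≃ Fin n) (f : Fin n → ℝ) :
    ∑ j, f j = ∑ i, f (e (Sum.inl i)) + ∑ i, f (e (Sum.inr i)) := by
  rw [← e.sum_comp, Fintype.sum_sum_type]

/-- The extension operator. -/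
lemma EE_glue (hk : 2 ≤ k) (e : Fin m ⊕ Fin k ≃ Fin n) {c : Fin k → ℝ}
    {F : (Fin m → ℝ) → (Fin k → ℝ) → ℂ} (hF : PR c F) (y : (Fin n → ℝ) × ℝ) :
    ‖EE (glue e F) y‖ₑ = ‖((sg (k - 1)).real univ : ℂ)‖ₑ *
      ‖TT (fun v ρ t => VV k (bb (by omega) (F v) c) ρ t) (fun i => y.1 (e (Sum.inl i)))
        ‖(toLp 2 ((fun i => y.1 (e (Sum.inr i))) + (2 * y.2) • c) : E k)‖ y.2‖ₑ := by
  have hk0 : 0 < k := by omega
  set x'' : Fin m → ℝ := fun i => y.1 (e (Sum.inl i)) with hx''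
  set x' : Fin k → ℝ := fun i => y.1 (e (Sum.inr i)) with hx'
  set t : ℝ := y.2 with ht
  set ρ : ℝ := ‖(toLp 2 (x' + (2 * t) • c) : E k)‖ with hρ
  have hsupp : ∀ ξ : Fin n → ℝ, ξ ∉ Icc (-1 : Fin n → ℝ) 1 → glue e F ξ = 0 := by
    intro ξ hξ
    unfold glue
    apply hF.supp
    by_contra hc
    push Not at hc
    apply hξ
    constructor
    · intro j
      obtain ⟨s, rfl⟩ := e.surjective j
      rcases s with i | i
      · exact hc.1.1 i
      · exact hc.2.1 i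
    · intro j
      obtain ⟨s, rfl⟩ := e.surjective j
      rcases s with i | i
      · exact hc.1.2 i
      · exact hc.2.2 i
  have h1 : EE (glue e F) y = ∫ p : (Fin m → ℝ) × (Fin k → ℝ),
      (ch (∑ i, p.2 i * x' i + (∑ i, p.2 i ^ 2) * t) * F p.1 p.2) *
        Pool.Agent.W771.MD.em x'' t p.1 := by
    unfold EE
    rw [← integral_indicator measurableSet_Icc]
    have h2 : (Icc (-1 : Fin n → ℝ) 1).indicator
        (fun ξ => ch (∑ j, ξ j * y.1 j + (∑ j, ξ j ^ 2) * y.2) * glue e F ξ) =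
        fun ξ => ch (∑ j, ξ j * y.1 j + (∑ j, ξ j ^ 2) * y.2) * glue e F ξ := by
      ext ξ
      by_cases h : ξ ∈ Icc (-1 : Fin n → ℝ) 1
      · rw [indicator_of_mem h]
      · rw [indicator_of_notMem h, hsupp ξ h, mul_zero]
    rw [h2, ← (gs_mp e).integral_comp']
    apply integral_congr_ae
    refine ae_of_all _ fun p => ?_
    simp only
    rw [glue_gs, sum_gs e, sum_gs e, em_ch]
    simp only [gs_inl, gs_inr]
    have e5 : ∑ i, p.1 i * y.1 (e (Sum.inl i)) + ∑ i, p.2 i * y.1 (e (Sum.inr i)) +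
        (∑ i, p.1 i ^ 2 + ∑ i, p.2 i ^ 2) * y.2 =
        (∑ i, p.2 i * x' i + (∑ i, p.2 i ^ 2) * t) +
          (∑ i, p.1 i * x'' i + (∑ i, p.1 i ^ 2) * t) := by
      simp only [hx', hx'', ht]
      ring
    rw [e5, ch_add]
    ring
  have hmF : Measurable fun p : (Fin m → ℝ) × (Fin k → ℝ) =>
      (ch (∑ i, p.2 i * x' i + (∑ i, p.2 i ^ 2) * t) * F p.1 p.2) *
        Pool.Agent.W771.MD.em x'' t p.1 := by
    apply Measurable.mul
    · apply Measurable.mul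
      · exact ch_cont.measurable.comp (by fun_prop)
      · exact hF.meas
    · exact (em_meas x'' t).comp measurable_fst
  have hint : Integrable fun p : (Fin m → ℝ) × (Fin k → ℝ) =>
      (ch (∑ i, p.2 i * x' i + (∑ i, p.2 i ^ 2) * t) * F p.1 p.2) *
        Pool.Agent.W771.MD.em x'' t p.1 := by
    have h2 : IntegrableOn (fun p : (Fin m → ℝ) × (Fin k → ℝ) =>
        (ch (∑ i, p.2 i * x' i + (∑ i, p.2 i ^ 2) * t) * F p.1 p.2) *
        Pool.Agent.W771.MD.em x'' t p.1) (Icc (-1 : Fin m → ℝ) 1 ×ˢ Icc (-1 : Fin k → ℝ) 1) := by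
      apply IntegrableOn.of_bound (C := 1) (isCompact_Icc.prod isCompact_Icc).measure_lt_top
      · exact hmF.aestronglyMeasurable
      · refine ae_of_all _ fun p => ?_
        rw [norm_mul, norm_mul, ch_norm, em_norm, one_mul, mul_one]
        exact hF.bd _ _
    rwa [integrableOn_iff_integrable_of_support_subset] at h2
    intro p hp
    by_contra hc
    apply hp
    simp only
    rw [hF.supp p.1 p.2 (by
      by_contra h3
      push Not at h3
      exact hc ⟨h3.1, h3.2⟩), mul_zero, zero_mul]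
  have h4 : EE (glue e F) y = (ch (∑ i, c i * x' i + (∑ i, c i ^ 2) * t) *
      ((sg (k - 1)).real univ : ℂ)) *
      TT (fun v ρ t => VV k (bb hk0 (F v) c) ρ t) x'' ρ t := by
    rw [h1, Measure.volume_eq_prod, integral_prod _ (by
      rw [← Measure.volume_eq_prod]
      exact hint)]
    unfold TT
    rw [← integral_const_mul]
    apply integral_congr_ae
    refine ae_of_all _ fun v => ?_
    simp only
    rw [integral_mul_const]
    have h5 := V_rad hk0 (hF.blk v) c (hF.radial v) x' t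
    unfold V at h5
    simp only [smul_eq_mul] at h5
    rw [h5, UU_eq hk (bb_adm hk0 (hF.blk v) c)]
    simp only [smul_eq_mul]
    ring
  rw [h4, enorm_mul, enorm_mul, ch_enorm, one_mul]

/-- the estimate -/
theorem part_rad (m k n : ℕ) (hk : 2 ≤ k) (q p₀ : ℝ) (hq : 2 < q) (hqp : q < p₀)
    (hc : p₀ - q < ((k : ℝ) - 1) * (q - 2) * (p₀ - 2) / 2) (A₀ : ℝ≥0)
    (hE : ∀ g : (Fin (m + 1) → ℝ) → ℂ, Measurable g → (∀ ξ, ‖g ξ‖ ≤ 1) →
      ∫⁻ y, ‖EE g y‖ₑ ^ p₀ ≤ A₀) : ∃ K : ℝ≥0,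
    ∀ (e : Fin m ⊕ Fin k ≃ Fin n) (c : Fin k → ℝ) (F : (Fin m → ℝ) → (Fin k → ℝ) → ℂ), PR c F →
      ∫⁻ y, ‖EE (glue e F) y‖ₑ ^ q ≤ K := by
  obtain ⟨K, hK⟩ := prof2 m k hk q p₀ hq hqp hc A₀
  haveI := Pool.Agent.H789R2.FR.sg_finite k
  have hk0 : 0 < k := by omega
  have hq0 : 0 ≤ q := by linarith
  set κ : ℝ≥0∞ := ‖((sg (k - 1)).real univ : ℂ)‖ₑ ^ q with hκ
  have hκf : κ ≠ ∞ := ENNReal.rpow_ne_top_of_nonneg hq0 enorm_ne_top
  refine ⟨(κ * (sg k univ * K)).toNNReal, ?_⟩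
  rw [ENNReal.coe_toNNReal (ENNReal.mul_ne_top hκf (ENNReal.mul_ne_top (measure_ne_top _ _)
    ENNReal.coe_ne_top))]
  intro e c F hF
  have hfam := hF.fam hk0
  have h1 := hK _ hfam (red k hk p₀ A₀ hE _ hfam)
  have hQ := VV_QF (k := k) hfam
  set Q : (Fin m → ℝ) → ℝ → ℝ → ℂ := fun v ρ t => VV k (bb hk0 (F v) c) ρ t with hQdef
  have hTm := TT_meas hQ
  -- the integrand
  have h2 : ∀ y : (Fin n → ℝ) × ℝ, ‖EE (glue e F) y‖ₑ ^ q = κ *
      ‖TT Q (fun i => y.1 (e (Sum.inl i)))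
        ‖(toLp 2 ((fun i => y.1 (e (Sum.inr i))) + (2 * y.2) • c) : E k)‖ y.2‖ₑ ^ q := by
    intro y
    rw [EE_glue hk e hF y, ENNReal.mul_rpow_of_nonneg _ _ hq0]
  simp only [h2]
  rw [lintegral_const_mul' _ _ hκf]
  gcongr
  have hm1 : Measurable fun y : (Fin n → ℝ) × ℝ => ‖TT Q (fun i => y.1 (e (Sum.inl i)))
        ‖(toLp 2 ((fun i => y.1 (e (Sum.inr i))) + (2 * y.2) • c) : E k)‖ y.2‖ₑ ^ q := by
    have h3 := hTm.comp (by fun_prop : Measurable fun y : (Fin n → ℝ) × ℝ =>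
      ((fun i => y.1 (e (Sum.inl i)) : Fin m → ℝ),
        (‖(toLp 2 ((fun i => y.1 (e (Sum.inr i))) + (2 * y.2) • c) : E k)‖, y.2)))
    simp only [Function.comp_def] at h3
    exact h3.enorm.pow_const q
  rw [Measure.volume_eq_prod, lintegral_prod_symm _ hm1.aemeasurable]
  simp only
  -- fixed time
  have h4 : ∀ t : ℝ, ∫⁻ x : Fin n → ℝ, ‖TT Q (fun i => x (e (Sum.inl i)))
        ‖(toLp 2 ((fun i => x (e (Sum.inr i))) + (2 * t) • c) : E k)‖ t‖ₑ ^ q =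
      ∫⁻ x'' : Fin m → ℝ, sg k univ *
        ∫⁻ ρ in Ioi (0 : ℝ), ENNReal.ofReal (ρ ^ (k - 1)) * ‖TT Q x'' ρ t‖ₑ ^ q := by
    intro t
    rw [← (gs_mp e).lintegral_comp_emb (MeasurableEquiv.measurableEmbedding _)]
    simp only [gs_inl, gs_inr]
    have hm2 : Measurable fun p : (Fin m → ℝ) × (Fin k → ℝ) => ‖TT Q p.1
        ‖(toLp 2 (p.2 + (2 * t) • c) : E k)‖ t‖ₑ ^ q := by
      have h3 := hTm.comp (by fun_prop : Measurable fun p : (Fin m → ℝ) × (Fin k → ℝ) =>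
        (p.1, (‖(toLp 2 (p.2 + (2 * t) • c) : E k)‖, t)))
      simp only [Function.comp_def] at h3
      exact h3.enorm.pow_const q
    have e0 : (∫⁻ p : (Fin m → ℝ) × (Fin k → ℝ), ‖TT Q (fun i => p.1 i)
        ‖(toLp 2 ((fun i => p.2 i) + (2 * t) • c) : E k)‖ t‖ₑ ^ q) =
        ∫⁻ p : (Fin m → ℝ) × (Fin k → ℝ), ‖TT Q p.1
        ‖(toLp 2 (p.2 + (2 * t) • c) : E k)‖ t‖ₑ ^ q := rfl
    rw [e0, Measure.volume_eq_prod, lintegral_prod _ hm2.aemeasurable]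
    apply lintegral_congr
    intro x''
    simp only
    have hmp : MeasurePreserving (MeasurableEquiv.toLp 2 (Fin k → ℝ)) :=
      PiLp.volume_preserving_toLp (Fin k)
    rw [lintegral_add_right_eq_self
      (fun x : Fin k → ℝ => ‖TT Q x'' ‖(toLp 2 x : E k)‖ t‖ₑ ^ q) ((2 * t) • c)]
    have e1 : (∫⁻ x : Fin k → ℝ, ‖TT Q x'' ‖(toLp 2 x : E k)‖ t‖ₑ ^ q) =
        ∫⁻ x : E k, ‖TT Q x'' ‖x‖ t‖ₑ ^ q := by
      rw [← hmp.lintegral_comp_emb (MeasurableEquiv.measurableEmbedding _)]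
      rfl
    rw [e1]
    have hm3 : Measurable fun ρ : ℝ => ‖TT Q x'' ρ t‖ₑ ^ q := by
      have h3 := hTm.comp (by fun_prop : Measurable fun ρ : ℝ => (x'', (ρ, t)))
      simp only [Function.comp_def] at h3
      exact h3.enorm.pow_const q
    rw [Pool.Agent.H789R2.FR.polar hk0 (fun x : E k => ‖TT Q x'' ‖x‖ t‖ₑ ^ q)
      (hm3.comp measurable_norm)]
    have h5 : ∀ᵐ w ∂(sg k), ∫⁻ r in Ioi (0 : ℝ), ENNReal.ofReal (r ^ (k - 1)) *
        ‖TT Q x'' ‖r • w‖ t‖ₑ ^ q =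
        ∫⁻ ρ in Ioi (0 : ℝ), ENNReal.ofReal (ρ ^ (k - 1)) * ‖TT Q x'' ρ t‖ₑ ^ q := by
      filter_upwards [Pool.Agent.H789R2.FR.sg_ae k] with w hw
      apply setLIntegral_congr_fun measurableSet_Ioi
      intro r hr
      have hr0 : (0 : ℝ) < r := hr
      simp only
      rw [norm_smul, hw, mul_one, Real.norm_of_nonneg hr0.le]
    rw [lintegral_congr_ae h5, lintegral_const, mul_comm]
  simp only [h4]
  -- exchange of the integrals
  have hsgf : sg k univ ≠ ∞ := measure_ne_top _ _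
  have hm5 : Measurable fun p : (ℝ × (Fin m → ℝ)) × ℝ =>
      ENNReal.ofReal (p.2 ^ (k - 1)) * ‖TT Q p.1.2 p.2 p.1.1‖ₑ ^ q := by
    apply Measurable.mul (by fun_prop)
    have h3 := hTm.comp (by fun_prop : Measurable fun p : (ℝ × (Fin m → ℝ)) × ℝ =>
      (p.1.2, (p.2, p.1.1)))
    simp only [Function.comp_def] at h3
    exact h3.enorm.pow_const q
  have hsw : ∀ t : ℝ, ∫⁻ x'' : Fin m → ℝ, sg k univ *
        ∫⁻ ρ in Ioi (0 : ℝ), ENNReal.ofReal (ρ ^ (k - 1)) * ‖TT Q x'' ρ t‖ₑ ^ q =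
      sg k univ * ∫⁻ ρ in Ioi (0 : ℝ), ENNReal.ofReal (ρ ^ (k - 1)) *
        ∫⁻ x'' : Fin m → ℝ, ‖TT Q x'' ρ t‖ₑ ^ q := by
    intro t
    rw [lintegral_const_mul' _ _ hsgf]
    congr 1
    have hm6 : Measurable fun p : (Fin m → ℝ) × ℝ =>
        ENNReal.ofReal (p.2 ^ (k - 1)) * ‖TT Q p.1 p.2 t‖ₑ ^ q := by
      have h3 := hm5.comp (by fun_prop : Measurable fun p : (Fin m → ℝ) × ℝ => ((t, p.1), p.2))
      simp only [Function.comp_def] at h3
      exact h3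
    rw [lintegral_lintegral_swap hm6.aemeasurable]
    apply lintegral_congr
    intro ρ
    rw [lintegral_const_mul' _ _ ENNReal.ofReal_ne_top]
  simp only [hsw]
  rw [lintegral_const_mul' _ _ hsgf]
  gcongr
  have hm7 : Measurable fun p : ℝ × ℝ =>
      ENNReal.ofReal (p.2 ^ (k - 1)) * ∫⁻ x'' : Fin m → ℝ, ‖TT Q x'' p.2 p.1‖ₑ ^ q := by
    apply Measurable.mul (by fun_prop)
    have h3 : Measurable fun z : (ℝ × ℝ) × (Fin m → ℝ) => ‖TT Q z.2 z.1.2 z.1.1‖ₑ ^ q := by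
      have h3 := hTm.comp (by fun_prop : Measurable fun z : (ℝ × ℝ) × (Fin m → ℝ) =>
        (z.2, (z.1.2, z.1.1)))
      simp only [Function.comp_def] at h3
      exact h3.enorm.pow_const q
    exact h3.lintegral_prod_right'
  rw [lintegral_lintegral_swap hm7.aemeasurable]
  refine le_trans (le_of_eq ?_) h1
  apply lintegral_congr
  intro ρ
  rw [lintegral_const_mul' _ _ ENNReal.ofReal_ne_top]
  rfl

end Pool.Agent.X146.RP
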