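import Mathlib
import Pool.Agent.X146.RP.U
import Pool.Agent.Y183.TS.D
set_option autoImplicit false
set_option linter.unusedSectionVars false
set_option linter.style.haveILetI false

/-! The unconditional range for functions that are radial in a group of the variables. -/

namespace Pool.Agent.X146.RP

open MeasureTheory Set Complex
open scoped ENNReal NNReal
open Pool.Agent.TH277.HT

/-- Tomas-Stein for bounded functions -/
lemma ts_bdd (M : ℕ) (hM : 0 < M) (p₀ : ℝ) (hp : 2 * ((M : ℝ) + 2) / M < p₀) : ∃ A₀ : ℝ≥0,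
    ∀ g : (Fin M → ℝ) → ℂ, Measurable g → (∀ ξ, ‖g ξ‖ ≤ 1) →
      ∫⁻ y, ‖EE g y‖ₑ ^ p₀ ≤ A₀ := by
  obtain ⟨C, hC⟩ := Pool.Agent.Y183.TS.tomas M hM p₀ hp
  have hM0 : (0 : ℝ) < M := by exact_mod_cast hM
  have hp0 : 0 < p₀ := lt_trans (by positivity) hp
  have hKf : ((C : ℝ≥0∞) * 2 ^ M) ^ p₀ ≠ ∞ :=
    ENNReal.rpow_ne_top_of_nonneg hp0.le (ENNReal.mul_ne_top ENNReal.coe_ne_top
      (ENNReal.pow_ne_top (by norm_num)))
  refine ⟨(((C : ℝ≥0∞) * 2 ^ M) ^ p₀).toNNReal, ?_⟩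
  rw [ENNReal.coe_toNNReal hKf]
  intro g hg hgb
  set G : (Fin M → ℝ) → ℂ := (Icc (-1 : Fin M → ℝ) 1).indicator g with hG
  have hGm : Measurable G := hg.indicator measurableSet_Icc
  have h1 : ∫⁻ v, ‖G v‖ₑ ^ 2 ≤ (2 ^ M) ^ 2 := by
    calc ∫⁻ v, ‖G v‖ₑ ^ 2 ≤ ∫⁻ v, (Icc (-1 : Fin M → ℝ) 1).indicator (fun _ => 1) v := by
          apply lintegral_mono
          intro v
          simp only [hG]
          by_cases h : v ∈ Icc (-1 : Fin M → ℝ) 1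
          · rw [indicator_of_mem h, indicator_of_mem h]
            have h2 : ‖g v‖ₑ ≤ 1 := by
              rw [← ofReal_norm]
              exact ENNReal.ofReal_le_one.2 (hgb v)
            calc ‖g v‖ₑ ^ 2 ≤ 1 ^ 2 := by gcongr
              _ = 1 := one_pow 2
          · rw [indicator_of_notMem h, indicator_of_notMem h, enorm_zero]
            norm_num
      _ = 2 ^ M := by rw [lintegral_indicator measurableSet_Icc, setLIntegral_one, cube_vol]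
      _ ≤ (2 ^ M) ^ 2 := by
          have h3 : (1 : ℝ≥0∞) ≤ 2 ^ M := one_le_pow₀ (by norm_num)
          calc (2 : ℝ≥0∞) ^ M = 2 ^ M * 1 := (mul_one _).symm
            _ ≤ 2 ^ M * 2 ^ M := by gcongr
            _ = (2 ^ M) ^ 2 := (sq _).symm
  have h2 := hC G hGm (2 ^ M) (ENNReal.pow_ne_top (by norm_num)) h1
  have hm : Measurable fun y => ‖EE g y‖ₑ ^ p₀ :=
    (EE_meas hg.stronglyMeasurable).enorm.pow_const p₀
  refine le_trans (le_of_eq ?_) h2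
  rw [Measure.volume_eq_prod, lintegral_prod_symm _ hm.aemeasurable]
  apply lintegral_congr
  intro t
  apply lintegral_congr
  intro y
  congr 2
  unfold EE
  apply setIntegral_congr_fun measurableSet_Icc
  intro v hv
  simp only [hG]
  rw [indicator_of_mem hv, em_ch]
  exact mul_comm _ _

/-- the choice of the exponents -/
lemma expo (m k : ℕ) (hk : 2 ≤ k) (q : ℝ) (hq : 2 + 4 / ((m : ℝ) + 2 * k - 1) < q) :
    ∃ q₁ p₀ : ℝ, q₁ ≤ q ∧ 2 < q₁ ∧ q₁ < p₀ ∧ 2 * (((m + 1 : ℕ) : ℝ) + 2) / ((m + 1 : ℕ) : ℝ) < p₀ ∧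
      p₀ - q₁ < ((k : ℝ) - 1) * (q₁ - 2) * (p₀ - 2) / 2 := by
  have hk2 : (2 : ℝ) ≤ k := by exact_mod_cast hk
  have hm0 : (0 : ℝ) ≤ m := Nat.cast_nonneg m
  have hm1 : (0 : ℝ) < (m : ℝ) + 1 := by linarith
  have hd : (0 : ℝ) < (m : ℝ) + 2 * k - 1 := by linarith
  set ε : ℝ := min (q - 2) (4 / ((m : ℝ) + 1)) with hε
  have h1 : 4 / ((m : ℝ) + 2 * k - 1) < ε := by
    rw [hε, lt_min_iff]
    constructor
    · linarith
    · apply div_lt_div_of_pos_left (by norm_num) hm1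
      linarith
  have hε0 : 0 < ε := lt_trans (by positivity) h1
  rw [div_lt_iff₀ hd] at h1
  set s : ℝ := ε * ((m : ℝ) + 2 * k - 1) - 4 with hs
  have hs0 : 0 < s := by rw [hs]; linarith
  set δ : ℝ := s / (2 * ((m : ℝ) + 1)) with hδ
  have hδ0 : 0 < δ := by positivity
  have hε2 : ε ≤ 4 / ((m : ℝ) + 1) := min_le_right _ _
  refine ⟨2 + ε, 2 + (4 / ((m : ℝ) + 1) + δ), ?_, by linarith, by linarith, ?_, ?_⟩
  · have : ε ≤ q - 2 := min_le_left _ _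
    linarith
  · push_cast
    have e1 : 2 * ((m : ℝ) + 1 + 2) / ((m : ℝ) + 1) = 2 + 4 / ((m : ℝ) + 1) := by
      field_simp
      ring
    rw [e1]
    linarith
  · have e2 : s / ((m : ℝ) + 1) = ε + ((k : ℝ) - 1) * ε * (4 / ((m : ℝ) + 1)) / 2 -
        4 / ((m : ℝ) + 1) := by
      rw [hs]
      field_simp
      ring
    have e3 : δ < s / ((m : ℝ) + 1) := by
      rw [hδ]
      apply div_lt_div_of_pos_left hs0 hm1
      linarith
    have e4 : 0 ≤ ((k : ℝ) - 1) * ε * δ / 2 := by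
      have : 0 ≤ (k : ℝ) - 1 := by linarith
      positivity
    have e5 : ((k : ℝ) - 1) * (2 + ε - 2) * (2 + (4 / ((m : ℝ) + 1) + δ) - 2) / 2 =
        ((k : ℝ) - 1) * ε * (4 / ((m : ℝ) + 1)) / 2 + ((k : ℝ) - 1) * ε * δ / 2 := by ring
    rw [e5]
    linarith

/-- the unconditional range -/
theorem part_uncond (m k n : ℕ) (hk : 2 ≤ k) (q : ℝ)
    (hq : 2 + 4 / ((m : ℝ) + 2 * k - 1) < q) : ∃ K : ℝ≥0,
    ∀ (e : Fin m ⊕ Fin k ≃ Fin n) (c : Fin k → ℝ) (F : (Fin m → ℝ) → (Fin k → ℝ) → ℂ), PR c F →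
      ∫⁻ y, ‖EE (glue e F) y‖ₑ ^ q ≤ K := by
  obtain ⟨q₁, p₀, hq1, hq2, hqp, hp, hc⟩ := expo m k hk q hq
  obtain ⟨A₀, hA⟩ := ts_bdd (m + 1) (by omega) p₀ hp
  obtain ⟨K, hK⟩ := part_rad m k n hk q₁ p₀ hq2 hqp hc A₀ hA
  have hKf : ((2 : ℝ≥0∞) ^ n) ^ (q - q₁) * K ≠ ∞ :=
    ENNReal.mul_ne_top (ENNReal.rpow_ne_top_of_nonneg (by linarith)
      (ENNReal.pow_ne_top (by norm_num))) ENNReal.coe_ne_top
  refine ⟨(((2 : ℝ≥0∞) ^ n) ^ (q - q₁) * K).toNNReal, ?_⟩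
  rw [ENNReal.coe_toNNReal hKf]
  intro e c F hF
  have hb : ∀ ξ, ‖glue e F ξ‖ ≤ 1 := fun ξ => hF.bd _ _
  calc ∫⁻ y, ‖EE (glue e F) y‖ₑ ^ q
      ≤ ∫⁻ y, ((2 : ℝ≥0∞) ^ n) ^ (q - q₁) * ‖EE (glue e F) y‖ₑ ^ q₁ := by
        apply lintegral_mono
        intro y
        simp only
        calc ‖EE (glue e F) y‖ₑ ^ q = ‖EE (glue e F) y‖ₑ ^ ((q - q₁) + q₁) := by
              rw [sub_add_cancel]
          _ = ‖EE (glue e F) y‖ₑ ^ (q - q₁) * ‖EE (glue e F) y‖ₑ ^ q₁ :=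
              ENNReal.rpow_add_of_nonneg _ _ (by linarith) (by linarith)
          _ ≤ _ := by
              gcongr
              exact (EE_le _ y).trans (I1_le _ hb)
    _ = ((2 : ℝ≥0∞) ^ n) ^ (q - q₁) * ∫⁻ y, ‖EE (glue e F) y‖ₑ ^ q₁ := by
        rw [lintegral_const_mul']
        exact ENNReal.rpow_ne_top_of_nonneg (by linarith) (ENNReal.pow_ne_top (by norm_num))
    _ ≤ _ := by
        gcongr
        exact hK e c F hF

end Pool.Agent.X146.RP
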