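import Mathlib
import Pool.Agent.X146.RP.L
import Pool.Agent.X146.RP.W
set_option autoImplicit false
set_option linter.unusedSectionVars false
set_option linter.style.haveILetI false

/-! The product inequality for the extension operator. -/

namespace Pool.Agent.X146.RP

open MeasureTheory Set Complex WithLp FourierTransform
open scoped ENNReal NNReal RealInnerProductSpace
open Pool.Agent.TH277.HT
open Pool.Agent.H789R2.FR (E sg)

/-- square integrable functions on the cube -/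
structure L2F {H : Type} [NormedAddCommGroup H] {k : ℕ} (F : (Fin k → ℝ) → H) : Prop where
  meas : StronglyMeasurable F
  l2 : MemLp F 2 volume
  supp : ∀ η, η ∉ Icc (-1 : Fin k → ℝ) 1 → F η = 0

section
variable {H : Type} [NormedAddCommGroup H] [InnerProductSpace ℂ H] [CompleteSpace H]

lemma L2F.int {k : ℕ} {F : (Fin k → ℝ) → H} (hF : L2F F) : Integrable F := by
  haveI : IsFiniteMeasure ((volume : Measure (Fin k → ℝ)).restrict (Icc (-1) 1)) :=
    ⟨by rw [Measure.restrict_apply_univ]; exact isCompact_Icc.measure_lt_top⟩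
  have h1 : IntegrableOn F (Icc (-1 : Fin k → ℝ) 1) :=
    (hF.l2.restrict _).integrable (by norm_num)
  rwa [integrableOn_iff_integrable_of_support_subset] at h1
  intro η hη
  by_contra hc
  exact hη (hF.supp η hc)

lemma L2F.int_ch {k : ℕ} {F : (Fin k → ℝ) → H} (hF : L2F F) (x : Fin k → ℝ) (t : ℝ) :
    Integrable fun η : Fin k → ℝ => ch (∑ i, η i * x i + (∑ i, η i ^ 2) * t) • F η := by
  refine hF.int.mono ?_ (ae_of_all _ fun η => ?_)
  · apply StronglyMeasurable.aestronglyMeasurable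
    apply StronglyMeasurable.smul _ hF.meas
    exact (ch_cont.comp (by fun_prop : Continuous fun η : Fin k → ℝ =>
      ∑ i, η i * x i + (∑ i, η i ^ 2) * t)).stronglyMeasurable
  · rw [norm_smul, ch_norm, one_mul]

lemma V_meas' {k : ℕ} {F : (Fin k → ℝ) → H} (hF : L2F F) :
    StronglyMeasurable fun p : (Fin k → ℝ) × ℝ => V F p.1 p.2 := by
  have h1 : StronglyMeasurable (Function.uncurry fun (y : (Fin k → ℝ) × ℝ) (ξ : Fin k → ℝ) =>
      ch (∑ j, ξ j * y.1 j + (∑ j, ξ j ^ 2) * y.2) • F ξ) := by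
    refine StronglyMeasurable.smul (f := fun q : ((Fin k → ℝ) × ℝ) × (Fin k → ℝ) =>
      ch (∑ j, q.2 j * q.1.1 j + (∑ j, q.2 j ^ 2) * q.1.2))
      (g := fun q : ((Fin k → ℝ) × ℝ) × (Fin k → ℝ) => F q.2) ?_ ?_
    · exact (ch_cont.comp (by fun_prop : Continuous fun q : ((Fin k → ℝ) × ℝ) × (Fin k → ℝ) =>
        (∑ j, q.2 j * q.1.1 j + (∑ j, q.2 j ^ 2) * q.1.2))).stronglyMeasurable
    · exact hF.meas.comp_measurable measurable_snd
  exact h1.integral_prod_right (ν := (volume : Measure (Fin k → ℝ)))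

/-- Plancherel's theorem for a fixed time -/
lemma V_planch {k : ℕ} {F : (Fin k → ℝ) → H} (hF : L2F F) (t : ℝ) :
    ∫⁻ x, ‖V F x t‖ₑ ^ 2 = ∫⁻ η, ‖F η‖ₑ ^ 2 := by
  have hmp : MeasurePreserving (MeasurableEquiv.toLp 2 (Fin k → ℝ)).symm :=
    PiLp.volume_preserving_ofLp (Fin k)
  set G : E k → H := fun v => ch (‖v‖ ^ 2 * t) • F (ofLp v) with hG
  have hFm : StronglyMeasurable fun v : E k => F (ofLp v) :=
    hF.meas.comp_measurable (MeasurableEquiv.toLp 2 (Fin k → ℝ)).symm.measurable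
  have hGm : StronglyMeasurable G := by
    rw [hG]
    apply StronglyMeasurable.smul _ hFm
    exact (ch_cont.comp (by fun_prop : Continuous fun v : E k => ‖v‖ ^ 2 * t)).stronglyMeasurable
  have hn : ∀ v, ‖G v‖ = ‖F (ofLp v)‖ := by
    intro v
    rw [hG]
    simp only
    rw [norm_smul, ch_norm, one_mul]
  have i1 : Integrable fun v : E k => F (ofLp v) :=
    (hmp.integrable_comp_emb (MeasurableEquiv.measurableEmbedding _)).2 hF.int
  have i2 : MemLp (fun v : E k => F (ofLp v)) 2 :=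
    hF.l2.comp_measurePreserving hmp
  have h1 : Integrable G := i1.mono hGm.aestronglyMeasurable (ae_of_all _ fun v => (hn v).le)
  have h2 : MemLp G 2 := i2.of_le hGm.aestronglyMeasurable (ae_of_all _ fun v => (hn v).le)
  have h3 := plancherel G h1 h2
  have h4 : ∫⁻ v, ‖G v‖ₑ ^ 2 = ∫⁻ η, ‖F η‖ₑ ^ 2 := by
    rw [← hmp.lintegral_comp_emb (MeasurableEquiv.measurableEmbedding _)]
    apply lintegral_congr
    intro v
    rw [← ofReal_norm, ← ofReal_norm, hn]
    rfl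
  have h5 : ∀ w : E k, ‖𝓕 G (-w)‖ₑ ^ 2 = ‖V F (ofLp w) t‖ₑ ^ 2 := by
    intro w
    congr 2
    rw [Real.fourier_eq]
    unfold V
    rw [← hmp.integral_comp']
    apply integral_congr_ae
    refine ae_of_all _ fun v => ?_
    simp only [hG]
    rw [Circle.smul_def, Real.fourierChar_apply, smul_smul]
    have e1 : (MeasurableEquiv.toLp 2 (Fin k → ℝ)).symm v = ofLp v := rfl
    rw [e1]
    congr 1
    have e2 : cexp (((2 * Real.pi * -⟪v, -w⟫ : ℝ) : ℂ) * I) = ch (∑ i, ofLp v i * ofLp w i) := by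
      unfold ch
      congr 1
      rw [inner_neg_right, neg_neg, PiLp.inner_apply]
      have e3 : ∑ i, (inner ℝ (v.ofLp i) (w.ofLp i) : ℝ) = ∑ i, ofLp v i * ofLp w i := by
        apply Finset.sum_congr rfl
        intro i _
        simp
        ring
      rw [e3]
      push_cast
      ring
    rw [e2, ← ch_add, EuclideanSpace.norm_sq_eq]
    simp only [Real.norm_eq_abs, sq_abs]
  rw [← h4, ← h3, ← lintegral_neg_eq_self (fun w : E k => ‖𝓕 G w‖ₑ ^ 2)]
  simp only [h5]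
  rw [← hmp.lintegral_comp_emb (MeasurableEquiv.measurableEmbedding _)]
  rfl

variable {n r : ℕ} {k : Fin r → ℕ}

lemma ten_zero' (e : (Σ j, Fin (k j)) ≃ Fin n)
    (M : ContinuousMultilinearMap ℂ (fun _ : Fin r => H) ℂ) (F : ∀ j, (Fin (k j) → ℝ) → H)
    (hF : ∀ j, L2F (F j)) (ξ : Fin n → ℝ) (hξ : ξ ∉ Icc (-1 : Fin n → ℝ) 1) : ten e M F ξ = 0 := by
  unfold ten
  have h1 : ∃ j, (fun i => ξ (e ⟨j, i⟩)) ∉ Icc (-1 : Fin (k j) → ℝ) 1 := by
    by_contra hc
    push Not at hc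
    apply hξ
    constructor
    · intro i
      have h2 := (hc (e.symm i).1).1 (e.symm i).2
      simpa using h2
    · intro i
      have h2 := (hc (e.symm i).1).2 (e.symm i).2
      simpa using h2
  obtain ⟨j, hj⟩ := h1
  exact M.map_coord_zero j ((hF j).supp _ hj)

/-- The extension operator on block tensors. -/
lemma EE_ten' (e : (Σ j, Fin (k j)) ≃ Fin n)
    (M : ContinuousMultilinearMap ℂ (fun _ : Fin r => H) ℂ) (F : ∀ j, (Fin (k j) → ℝ) → H)
    (hF : ∀ j, L2F (F j)) (y : (Fin n → ℝ) × ℝ) :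
    EE (ten e M F) y = M fun j => V (F j) (fun i => y.1 (e ⟨j, i⟩)) y.2 := by
  unfold EE
  rw [← integral_indicator measurableSet_Icc]
  have h1 : (Icc (-1 : Fin n → ℝ) 1).indicator
      (fun ξ => ch (∑ j, ξ j * y.1 j + (∑ j, ξ j ^ 2) * y.2) * ten e M F ξ) =
      fun ξ => ch (∑ j, ξ j * y.1 j + (∑ j, ξ j ^ 2) * y.2) * ten e M F ξ := by
    ext ξ
    by_cases h : ξ ∈ Icc (-1 : Fin n → ℝ) 1
    · rw [indicator_of_mem h]
    · rw [indicator_of_notMem h, ten_zero' e M F hF ξ h, mul_zero]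
  rw [h1, ← (grp_mp e).integral_comp']
  have h2 : ∀ η : (∀ j, Fin (k j) → ℝ), ch (∑ i, grp e η i * y.1 i + (∑ i, grp e η i ^ 2) * y.2) *
      ten e M F (grp e η) = M fun j => ch (∑ i, η j i * y.1 (e ⟨j, i⟩) + (∑ i, η j i ^ 2) * y.2) •
        F j (η j) := by
    intro η
    rw [ContinuousMultilinearMap.map_smul_univ, smul_eq_mul, ten_grp, ← ch_sum]
    congr 2
    rw [← e.sum_comp, ← e.sum_comp, Fintype.sum_sigma, Fintype.sum_sigma, Finset.sum_add_distrib,
      Finset.sum_mul]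
    simp only [grp_apply]
  simp only [h2]
  have hm : ∀ j, StronglyMeasurable fun η : Fin (k j) → ℝ =>
      ch (∑ i, η i * y.1 (e ⟨j, i⟩) + (∑ i, η i ^ 2) * y.2) • F j η := by
    intro j
    apply StronglyMeasurable.smul
    · exact (ch_cont.comp (by fun_prop : Continuous fun η : Fin (k j) → ℝ =>
        ∑ i, η i * y.1 (e ⟨j, i⟩) + (∑ i, η i ^ 2) * y.2)).stronglyMeasurable
    · exact (hF j).meas
  rw [volume_pi]
  exact mult_int' (fun _ => volume) M _ hm fun j => (hF j).int_ch _ _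

/-- **the product inequality** -/
theorem product (e : (Σ j, Fin (k j)) ≃ Fin n)
    (M : ContinuousMultilinearMap ℂ (fun _ : Fin r => H) ℂ) (F : ∀ j, (Fin (k j) → ℝ) → H)
    (hM : ‖M‖ ≤ 1) (hF : ∀ j, L2F (F j)) (q : ℝ) (p : Fin r → ℝ) (hq : 2 ≤ q)
    (hp : ∀ j, 2 < p j) (hsum : ∑ j, (q - 2) / (p j - 2) = 1) :
    ∫⁻ y, ‖EE (ten e M F) y‖ₑ ^ q ≤ ∏ j, ((∫⁻ η, ‖F j η‖ₑ ^ 2) ^ (1 - (q - 2) / (p j - 2)) *
      (∫⁻ y : (Fin (k j) → ℝ) × ℝ, ‖V (F j) y.1 y.2‖ₑ ^ p j) ^ ((q - 2) / (p j - 2))) := by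
  have hq0 : 0 < q := by linarith
  set α : Fin r → ℝ := fun j => (q - 2) / (p j - 2) with hα
  have hα0 : ∀ j, 0 ≤ α j := fun j => div_nonneg (by linarith) (by linarith [hp j])
  have hα1 : ∀ j, α j ≤ 1 := by
    intro j
    rw [← hsum]
    exact Finset.single_le_sum (f := α) (fun i _ => hα0 i) (Finset.mem_univ j)
  have hqα : ∀ j, 2 * (1 - α j) + p j * α j = q := by
    intro j
    have h1 : (p j - 2) * α j = q - 2 := by
      rw [hα]
      simp only
      rw [mul_div_cancel₀]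
      linarith [hp j]
    linarith
  have h2 : ∀ y : (Fin n → ℝ) × ℝ, ‖EE (ten e M F) y‖ₑ ^ q ≤
      ∏ j, ‖V (F j) (fun i => y.1 (e ⟨j, i⟩)) y.2‖ₑ ^ q := by
    intro y
    rw [EE_ten' e M F hF y, ENNReal.prod_rpow_of_nonneg hq0.le]
    gcongr
    rw [← ofReal_norm]
    calc ENNReal.ofReal ‖M fun j => V (F j) (fun i => y.1 (e ⟨j, i⟩)) y.2‖
        ≤ ENNReal.ofReal (∏ j, ‖V (F j) (fun i => y.1 (e ⟨j, i⟩)) y.2‖) := by
          apply ENNReal.ofReal_le_ofReal
          refine (M.le_opNorm _).trans ?_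
          have h3 : 0 ≤ ∏ j, ‖V (F j) (fun i => y.1 (e ⟨j, i⟩)) y.2‖ :=
            Finset.prod_nonneg fun j _ => norm_nonneg _
          calc ‖M‖ * ∏ j, ‖V (F j) (fun i => y.1 (e ⟨j, i⟩)) y.2‖
              ≤ 1 * ∏ j, ‖V (F j) (fun i => y.1 (e ⟨j, i⟩)) y.2‖ := by gcongr
            _ = _ := one_mul _
      _ = ∏ j, ‖V (F j) (fun i => y.1 (e ⟨j, i⟩)) y.2‖ₑ := by
          rw [ENNReal.ofReal_prod_of_nonneg fun j _ => norm_nonneg _]
          apply Finset.prod_congr rfl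
          intro j _
          rw [ofReal_norm]
  have hm : ∀ j, ∀ s : ℝ, Measurable fun p : (Fin (k j) → ℝ) × ℝ => ‖V (F j) p.1 p.2‖ₑ ^ s :=
    fun j s => (V_meas' (hF j)).enorm.pow_const s
  have hmt : ∀ j, ∀ s t : ℝ, Measurable fun x : Fin (k j) → ℝ => ‖V (F j) x t‖ₑ ^ s := by
    intro j s t
    have h3 := (hm j s).comp (by fun_prop : Measurable fun x : Fin (k j) → ℝ => (x, t))
    simp only [Function.comp_def] at h3
    exact h3
  have hA : ∀ j, ∀ s : ℝ, Measurable fun t : ℝ => ∫⁻ x, ‖V (F j) x t‖ₑ ^ s := fun j s =>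
    (hm j s).lintegral_prod_left'
  have hprod : Measurable fun y : (Fin n → ℝ) × ℝ =>
      ∏ j, ‖V (F j) (fun i => y.1 (e ⟨j, i⟩)) y.2‖ₑ ^ q := by
    apply Finset.measurable_prod
    intro j _
    have h3 : Measurable fun y : (Fin n → ℝ) × ℝ =>
        (((fun i => y.1 (e ⟨j, i⟩)), y.2) : (Fin (k j) → ℝ) × ℝ) := by fun_prop
    have h5 := (hm j q).comp h3
    simp only [Function.comp_def] at h5
    exact h5
  have hS : ∀ j t, ∫⁻ x, ‖V (F j) x t‖ₑ ^ q ≤ (∫⁻ η, ‖F j η‖ₑ ^ 2) ^ (1 - α j) *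
      (∫⁻ x, ‖V (F j) x t‖ₑ ^ p j) ^ α j := by
    intro j t
    have hm2 : Measurable fun x : Fin (k j) → ℝ => ‖V (F j) x t‖ₑ ^ 2 := by
      have h3 := ((V_meas' (hF j)).enorm.pow_const 2).comp
        (by fun_prop : Measurable fun x : Fin (k j) → ℝ => (x, t))
      simp only [Function.comp_def] at h3
      exact h3
    calc ∫⁻ x, ‖V (F j) x t‖ₑ ^ q =
          ∫⁻ x, (‖V (F j) x t‖ₑ ^ 2) ^ (1 - α j) * (‖V (F j) x t‖ₑ ^ p j) ^ α j := by
          apply lintegral_congr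
          intro x
          rw [← ENNReal.rpow_natCast, ← ENNReal.rpow_mul, ← ENNReal.rpow_mul,
            ← ENNReal.rpow_add_of_nonneg _ _ (mul_nonneg (by norm_num) (by linarith [hα1 j]))
              (mul_nonneg (by linarith [hp j]) (hα0 j))]
          congr 1
          push_cast
          exact (hqα j).symm
      _ ≤ (∫⁻ x, ‖V (F j) x t‖ₑ ^ 2) ^ (1 - α j) * (∫⁻ x, ‖V (F j) x t‖ₑ ^ p j) ^ α j :=
          ENNReal.lintegral_mul_norm_pow_le hm2.aemeasurable (hmt j (p j) t).aemeasurable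
            (by linarith [hα1 j]) (hα0 j) (by ring)
      _ = _ := by rw [V_planch (hF j)]
  calc ∫⁻ y, ‖EE (ten e M F) y‖ₑ ^ q
      ≤ ∫⁻ y : (Fin n → ℝ) × ℝ, ∏ j, ‖V (F j) (fun i => y.1 (e ⟨j, i⟩)) y.2‖ₑ ^ q :=
        lintegral_mono h2
    _ = ∫⁻ t : ℝ, ∫⁻ x : Fin n → ℝ, ∏ j, ‖V (F j) (fun i => x (e ⟨j, i⟩)) t‖ₑ ^ q := by
        rw [Measure.volume_eq_prod, lintegral_prod_symm _ hprod.aemeasurable]
    _ = ∫⁻ t : ℝ, ∏ j, ∫⁻ x, ‖V (F j) x t‖ₑ ^ q := by
        apply lintegral_congr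
        intro t
        rw [← (grp_mp e).lintegral_comp_emb (MeasurableEquiv.measurableEmbedding _)]
        simp only [grp_apply]
        rw [volume_pi]
        exact lint_pi' (fun _ => volume) (fun j x => ‖V (F j) x t‖ₑ ^ q) fun j => hmt j q t
    _ ≤ ∫⁻ t : ℝ, ∏ j, ((∫⁻ η, ‖F j η‖ₑ ^ 2) ^ (1 - α j) *
          (∫⁻ x, ‖V (F j) x t‖ₑ ^ p j) ^ α j) := by
        apply lintegral_mono
        intro t
        simp only
        gcongr with j
        exact hS j t
    _ = ∫⁻ t : ℝ, (∏ j, (∫⁻ η, ‖F j η‖ₑ ^ 2) ^ (1 - α j)) *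
          ∏ j, (∫⁻ x, ‖V (F j) x t‖ₑ ^ p j) ^ α j := by
        apply lintegral_congr
        intro t
        exact Finset.prod_mul_distrib
    _ = (∏ j, (∫⁻ η, ‖F j η‖ₑ ^ 2) ^ (1 - α j)) *
          ∫⁻ t : ℝ, ∏ j, (∫⁻ x, ‖V (F j) x t‖ₑ ^ p j) ^ α j := by
        apply lintegral_const_mul
        exact Finset.measurable_prod _ fun j _ => (hA j (p j)).pow_const _
    _ ≤ (∏ j, (∫⁻ η, ‖F j η‖ₑ ^ 2) ^ (1 - α j)) *
          ∏ j, (∫⁻ t : ℝ, ∫⁻ x, ‖V (F j) x t‖ₑ ^ p j) ^ α j := by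
        gcongr
        apply ENNReal.lintegral_prod_norm_pow_le
        · intro j _
          exact (hA j (p j)).aemeasurable
        · exact hsum
        · intro j _
          exact hα0 j
    _ = ∏ j, ((∫⁻ η, ‖F j η‖ₑ ^ 2) ^ (1 - α j) *
          (∫⁻ y : (Fin (k j) → ℝ) × ℝ, ‖V (F j) y.1 y.2‖ₑ ^ p j) ^ α j) := by
        rw [← Finset.prod_mul_distrib]
        apply Finset.prod_congr rfl
        intro j _
        congr 2
        rw [Measure.volume_eq_prod, lintegral_prod_symm _ (hm j (p j)).aemeasurable]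

end

end Pool.Agent.X146.RP
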