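import Mathlib
import Pool.Agent.X146.RP.X
set_option autoImplicit false
set_option linter.unusedSectionVars false
set_option linter.style.haveILetI false

/-! Consequences of the product inequality. -/

namespace Pool.Agent.X146.RP

open MeasureTheory Set Complex
open scoped ENNReal NNReal
open Pool.Agent.TH277.HT

section
variable {H : Type} [NormedAddCommGroup H] [InnerProductSpace ℂ H] [CompleteSpace H]

lemma L2F_of_bdd {k : ℕ} {F : (Fin k → ℝ) → H} (hm : StronglyMeasurable F) (hb : ∀ η, ‖F η‖ ≤ 1)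
    (hs : ∀ η, η ∉ Icc (-1 : Fin k → ℝ) 1 → F η = 0) : L2F F := by
  refine ⟨hm, ?_, hs⟩
  haveI : IsFiniteMeasure ((volume : Measure (Fin k → ℝ)).restrict (Icc (-1) 1)) :=
    ⟨by rw [Measure.restrict_apply_univ]; exact isCompact_Icc.measure_lt_top⟩
  have h1 : MemLp F 2 ((volume : Measure (Fin k → ℝ)).restrict (Icc (-1) 1)) :=
    MemLp.of_bound hm.aestronglyMeasurable 1 (ae_of_all _ hb)
  have h2 : (Icc (-1 : Fin k → ℝ) 1).indicator F = F := by
    funext η
    by_cases h : η ∈ Icc (-1 : Fin k → ℝ) 1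
    · rw [indicator_of_mem h]
    · rw [indicator_of_notMem h, hs η h]
  rw [← h2]
  exact (memLp_indicator_iff_restrict measurableSet_Icc).2 h1

lemma l2_le {k : ℕ} {F : (Fin k → ℝ) → H} (hb : ∀ η, ‖F η‖ ≤ 1)
    (hs : ∀ η, η ∉ Icc (-1 : Fin k → ℝ) 1 → F η = 0) : ∫⁻ η, ‖F η‖ₑ ^ 2 ≤ 2 ^ k := by
  calc ∫⁻ v, ‖F v‖ₑ ^ 2 ≤ ∫⁻ v, (Icc (-1 : Fin k → ℝ) 1).indicator (fun _ => 1) v := by
        apply lintegral_mono
        intro v
        simp only
        by_cases h : v ∈ Icc (-1 : Fin k → ℝ) 1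
        · rw [indicator_of_mem h]
          have h2 : ‖F v‖ₑ ≤ 1 := by
            rw [← ofReal_norm]
            exact ENNReal.ofReal_le_one.2 (hb v)
          calc ‖F v‖ₑ ^ 2 ≤ 1 ^ 2 := by gcongr
            _ = 1 := one_pow 2
        · rw [indicator_of_notMem h, hs v h, enorm_zero]
          norm_num
    _ = 2 ^ k := by rw [lintegral_indicator measurableSet_Icc, setLIntegral_one, cube_vol]

variable {n r : ℕ} {k : Fin r → ℕ}

/-- Strengths add: if the factor `j` has the extension bound for all exponents larger than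
`2 + 2/s_j`, then the tensor product has it for all exponents larger than `2 + 2/∑ s_j`. -/
theorem strengths (e : (Σ j, Fin (k j)) ≃ Fin n)
    (M : ContinuousMultilinearMap ℂ (fun _ : Fin r => H) ℂ) (F : ∀ j, (Fin (k j) → ℝ) → H)
    (hM : ‖M‖ ≤ 1) (hF : ∀ j, StronglyMeasurable (F j)) (hb : ∀ j η, ‖F j η‖ ≤ 1)
    (h0 : ∀ j η, η ∉ Icc (-1 : Fin (k j) → ℝ) 1 → F j η = 0) (s : Fin r → ℝ)
    (hr : 0 < r) (hs : ∀ j, 0 < s j) (q : ℝ) (hq : 2 < q) (A : Fin r → ℝ≥0)
    (hA : ∀ j, ∫⁻ y : (Fin (k j) → ℝ) × ℝ, ‖V (F j) y.1 y.2‖ₑ ^ (2 + (q - 2) * (∑ i, s i) / s j) ≤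
      A j) :
    ∫⁻ y, ‖EE (ten e M F) y‖ₑ ^ q ≤ ∏ j, ((2 ^ k j : ℝ≥0∞) ^ (1 - s j / ∑ i, s i) *
      (A j : ℝ≥0∞) ^ (s j / ∑ i, s i)) := by
  have hS : 0 < ∑ i, s i := by
    haveI : Nonempty (Fin r) := ⟨⟨0, hr⟩⟩
    exact Finset.sum_pos (fun i _ => hs i) Finset.univ_nonempty
  set S : ℝ := ∑ i, s i with hSd
  set p : Fin r → ℝ := fun j => 2 + (q - 2) * S / s j with hp
  have hα : ∀ j, (q - 2) / (p j - 2) = s j / S := by
    intro j
    have h1 := hs j
    have h2 : q - 2 ≠ 0 := by linarith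
    rw [hp]
    simp only [add_sub_cancel_left]
    field_simp
  have hp2 : ∀ j, 2 < p j := by
    intro j
    rw [hp]
    simp only
    have h1 := hs j
    have h2 : 0 < q - 2 := by linarith
    have : 0 < (q - 2) * S / s j := by positivity
    linarith
  have h1 := product e M F hM (fun j => L2F_of_bdd (hF j) (hb j) (h0 j)) q p hq.le hp2
    (by
      simp only [hα]
      rw [← Finset.sum_div, div_self hS.ne'])
  refine h1.trans ?_
  simp only [hα]
  gcongr with j
  · rw [sub_nonneg, div_le_one hS]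
    exact Finset.single_le_sum (f := s) (fun i _ => (hs i).le) (Finset.mem_univ j)
  · exact l2_le (hb j) (h0 j)
  · exact (div_pos (hs j) hS).le
  · exact hA j

end

/-- the diagonal estimate for one block -/
lemma diag (k : ℕ) (hk : 0 < k) (p : ℝ) (hp : 2 + 2 / (k : ℝ) < p) :
    ∃ K : ℝ≥0, ∀ (H : Type) [NormedAddCommGroup H] [InnerProductSpace ℂ H] [CompleteSpace H]
      (F : (Fin k → ℝ) → H), Blk F →
      ∫⁻ y : (Fin k → ℝ) × ℝ, ‖V F y.1 y.2‖ₑ ^ p ≤ K := by
  have hk0 : (0 : ℝ) < k := by exact_mod_cast hk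
  have key : ∃ K : ℝ≥0, ∀ (H : Type) [NormedAddCommGroup H] [InnerProductSpace ℂ H]
      [CompleteSpace H] (F : (Fin k → ℝ) → H), Blk F →
      ∫⁻ t, ∫⁻ x, ‖V F x t‖ₑ ^ p ≤ K := by
    rcases Nat.lt_or_ge k 2 with h2 | h2
    · obtain rfl : k = 1 := by omega
      obtain ⟨K, hK⟩ := zyg' p (by norm_num at hp; linarith)
      refine ⟨K, ?_⟩
      intro H _ _ _ F hF
      have ha : Adm (fun u : ℝ => F fun _ => u) :=
        ⟨hF.meas.comp_measurable (by fun_prop), fun u => hF.bd _⟩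
      have h3 : ∀ t, ∫⁻ x, ‖V F x t‖ₑ ^ p = ∫⁻ x : ℝ, ‖E1 (fun u => F fun _ => u) x t‖ₑ ^ p := by
        intro t
        rw [← (volume_preserving_funUnique (Fin 1) ℝ).lintegral_comp_emb
          (MeasurableEquiv.measurableEmbedding _)]
        apply lintegral_congr
        intro x
        rw [V_one hF]
        rfl
      simp only [h3]
      exact hK H _ ha
    · have h3 : 2 * ((k : ℝ) + 1) / k < p := by
        have : 2 * ((k : ℝ) + 1) / k = 2 + 2 / (k : ℝ) := by field_simp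
        rw [this]
        exact hp
      obtain ⟨K, hK⟩ := block k k h2 hk le_rfl p h3
      refine ⟨K, ?_⟩
      intro H _ _ _ F hF
      have h4 := hK H F hF
      rw [div_self hk0.ne'] at h4
      simpa only [ENNReal.rpow_one] using h4
  obtain ⟨K, hK⟩ := key
  refine ⟨K, ?_⟩
  intro H _ _ _ F hF
  rw [Measure.volume_eq_prod, lintegral_prod_symm _ ((V_meas hF).enorm.pow_const p).aemeasurable]
  exact hK H F hF

/-- the scalar block: `V` is `EE` -/
lemma V_EE {k : ℕ} (G : (Fin k → ℝ) → ℂ) (y : (Fin k → ℝ) × ℝ) :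
    V ((Icc (-1 : Fin k → ℝ) 1).indicator G) y.1 y.2 = EE G y := by
  unfold V EE
  rw [← integral_indicator measurableSet_Icc]
  apply integral_congr_ae
  refine ae_of_all _ fun η => ?_
  simp only
  by_cases h : η ∈ Icc (-1 : Fin k → ℝ) 1
  · rw [indicator_of_mem h, indicator_of_mem h, smul_eq_mul]
  · rw [indicator_of_notMem h, indicator_of_notMem h, smul_zero]

/-- the rough block with a fixed vector -/
lemma V_smul {H : Type} [NormedAddCommGroup H] [InnerProductSpace ℂ H] [CompleteSpace H] {k : ℕ}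
    (G : (Fin k → ℝ) → ℂ) (v : H) (y : (Fin k → ℝ) × ℝ) :
    V (fun η => (Icc (-1 : Fin k → ℝ) 1).indicator G η • v) y.1 y.2 = EE G y • v := by
  rw [← V_EE]
  unfold V
  simp only [← smul_assoc]
  exact integral_smul_const _ _

end Pool.Agent.X146.RP
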